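import Pool.Agent.T2h31.SB.Stm

/-! Project SB, task DIV: integration by parts with a vector field whose flow preserves the bodies. -/

set_option autoImplicit false
set_option linter.all false

namespace Pool.Agent.T2h31.SB.DIV

open MeasureTheory Set Filter Topology Pool.Agent.T2h31.SB

/-- the flow in one coordinate -/
noncomputable def ph (t s : ℝ) : ℝ := s + t * (s - s ^ 3)

theorem ph_neg (t s : ℝ) : ph t (-s) = -ph t s := by unfold ph; ring

theorem ph_lt {t a b : ℝ} (ht : |t| < 1 / 4) (ha : -1 ≤ a) (ha' : a ≤ 1) (hb : -1 ≤ b) (hb' : b ≤ 1)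
    (h : a < b) : ph t a < ph t b := by
  have h1 : ph t b - ph t a = (b - a) * (1 + t * (1 - (a ^ 2 + a * b + b ^ 2))) := by
    unfold ph; ring
  have ht' := abs_lt.1 ht
  have h2 : |1 - (a ^ 2 + a * b + b ^ 2)| ≤ 2 := by
    rw [abs_le]
    constructor
    · nlinarith [mul_nonneg (sub_nonneg.2 ha') (sub_nonneg.2 hb'),
        mul_nonneg (show (0 : ℝ) ≤ 1 + a by linarith) (show (0 : ℝ) ≤ 1 + b by linarith),
        mul_nonneg (sub_nonneg.2 ha') (show (0 : ℝ) ≤ 1 + a by linarith),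
        mul_nonneg (sub_nonneg.2 hb') (show (0 : ℝ) ≤ 1 + b by linarith),
        sq_nonneg (a - b)]
    · nlinarith [sq_nonneg (a + b), sq_nonneg a, sq_nonneg b]
  have h3 : |t * (1 - (a ^ 2 + a * b + b ^ 2))| ≤ 1 / 4 * 2 := by
    rw [abs_mul]
    exact mul_le_mul ht.le h2 (abs_nonneg _) (by norm_num)
  have h4 := (abs_le.1 h3).1
  have h5 : 0 < (b - a) * (1 + t * (1 - (a ^ 2 + a * b + b ^ 2))) :=
    mul_pos (by linarith) (by linarith)
  linarith

theorem ph_one (t : ℝ) : ph t 1 = 1 := by unfold ph; ring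

theorem ph_mone (t : ℝ) : ph t (-1) = -1 := by unfold ph; ring

theorem ph_le {t a b : ℝ} (ht : |t| < 1 / 4) (ha : -1 ≤ a) (ha' : a ≤ 1) (hb : -1 ≤ b) (hb' : b ≤ 1)
    (h : a ≤ b) : ph t a ≤ ph t b := by
  rcases h.eq_or_lt with h | h
  · rw [h]
  · exact (ph_lt ht ha ha' hb hb' h).le

theorem ph_le_iff {t a b : ℝ} (ht : |t| < 1 / 4) (ha : -1 ≤ a) (ha' : a ≤ 1) (hb : -1 ≤ b)
    (hb' : b ≤ 1) : ph t a ≤ ph t b ↔ a ≤ b := by
  refine ⟨fun h => ?_, ph_le ht ha ha' hb hb'⟩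
  by_contra hc
  exact absurd (ph_lt ht hb hb' ha ha' (not_le.1 hc)) (not_lt.2 h)

theorem ph_mem {t a : ℝ} (ht : |t| < 1 / 4) (ha : -1 ≤ a) (ha' : a ≤ 1) :
    -1 ≤ ph t a ∧ ph t a ≤ 1 := by
  constructor
  · have := ph_le ht (le_refl (-1)) (by norm_num) ha ha' ha
    rwa [ph_mone] at this
  · have := ph_le ht ha ha' (by norm_num) (le_refl 1) ha'
    rwa [ph_one] at this

theorem ph_cont (t : ℝ) : Continuous (ph t) := by
  unfold ph; fun_prop

theorem ph_surj {t y : ℝ} (hy : -1 ≤ y) (hy' : y ≤ 1) : ∃ s : ℝ, (-1 ≤ s ∧ s ≤ 1) ∧ ph t s = y := by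
  have h := intermediate_value_Icc (show (-1 : ℝ) ≤ 1 by norm_num) (ph_cont t).continuousOn
  rw [ph_mone, ph_one] at h
  obtain ⟨s, hs, h2⟩ := h ⟨hy, hy'⟩
  exact ⟨s, hs, h2⟩

theorem ph_deriv (t s : ℝ) : HasDerivAt (ph t) (1 + t * (1 - 3 * s ^ 2)) s := by
  unfold ph
  have h1 : HasDerivAt (fun s : ℝ => s - s ^ 3) (1 - 3 * s ^ 2) s := by
    exact ((hasDerivAt_id' s).fun_sub (hasDerivAt_pow 3 s)).congr_deriv (by norm_num)
  exact (hasDerivAt_id' s).add (h1.const_mul t)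

section

variable {n : ℕ}

/-- the flow -/
noncomputable def T (t : ℝ) (x : Fin n → ℝ) : Fin n → ℝ := fun i => ph t (x i)

theorem sv_T (t : ℝ) (x : Fin n → ℝ) (p : Lb n) : sv (T t x) p = ph t (sv x p) := by
  unfold sv T
  split_ifs
  · rfl
  · rw [ph_neg]

theorem sv_mem {x : Fin n → ℝ} (h : ∀ i, -1 ≤ x i ∧ x i ≤ 1) (p : Lb n) :
    -1 ≤ sv x p ∧ sv x p ≤ 1 := by
  unfold sv
  split_ifs
  · exact h _
  · constructor
    · linarith [(h p.1).2]
    · linarith [(h p.1).1]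

theorem image_T {t : ℝ} (ht : |t| < 1 / 4) (R : Lb n → Lb n → Prop) : T t '' SK R = SK R := by
  ext y
  constructor
  · rintro ⟨x, ⟨h1, h2⟩, rfl⟩
    refine ⟨fun i => ph_mem ht (h1 i).1 (h1 i).2, fun p q hpq => ?_⟩
    rw [sv_T, sv_T, ph_le_iff ht (sv_mem h1 p).1 (sv_mem h1 p).2 (sv_mem h1 q).1 (sv_mem h1 q).2]
    exact h2 p q hpq
  · rintro ⟨h1, h2⟩
    choose x hx hxy using fun i => ph_surj (t := t) (h1 i).1 (h1 i).2
    have hT : T t x = y := funext hxy
    refine ⟨x, ⟨hx, fun p q hpq => ?_⟩, hT⟩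
    have h3 := h2 p q hpq
    rw [← hT, sv_T, sv_T, ph_le_iff ht (sv_mem hx p).1 (sv_mem hx p).2 (sv_mem hx q).1
      (sv_mem hx q).2] at h3
    exact h3

theorem ph_inj {t a b : ℝ} (ht : |t| < 1 / 4) (ha : -1 ≤ a) (ha' : a ≤ 1) (hb : -1 ≤ b)
    (hb' : b ≤ 1) (h : ph t a = ph t b) : a = b :=
  le_antisymm ((ph_le_iff ht ha ha' hb hb').1 h.le) ((ph_le_iff ht hb hb' ha ha').1 h.ge)

theorem injOn_T {t : ℝ} (ht : |t| < 1 / 4) (R : Lb n → Lb n → Prop) : InjOn (T t) (SK R) := by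
  intro x hx y hy h
  funext i
  exact ph_inj ht (hx.1 i).1 (hx.1 i).2 (hy.1 i).1 (hy.1 i).2 (congrFun h i)

theorem cont_sv (p : Lb n) : Continuous fun x : Fin n → ℝ => sv x p := by
  unfold sv
  split_ifs
  · exact continuous_apply _
  · exact (continuous_apply _).neg

theorem isClosed_SK (R : Lb n → Lb n → Prop) : IsClosed (SK R) := by
  have h : SK R = {x | ∀ i, -1 ≤ x i ∧ x i ≤ 1} ∩ ⋂ p, ⋂ q, ⋂ (_ : R p q), {x | sv x p ≤ sv x q} := by
    ext x
    simp only [SK, mem_setOf_eq, mem_inter_iff, mem_iInter]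
  rw [h]
  refine IsClosed.inter ?_ ?_
  · have : {x : Fin n → ℝ | ∀ i, -1 ≤ x i ∧ x i ≤ 1} = ⋂ i, {x | -1 ≤ x i ∧ x i ≤ 1} := by
      ext x; simp
    rw [this]
    exact isClosed_iInter fun i => (isClosed_le continuous_const (continuous_apply i)).inter
      (isClosed_le (continuous_apply i) continuous_const)
  · exact isClosed_iInter fun p => isClosed_iInter fun q => isClosed_iInter fun _ =>
      isClosed_le (cont_sv p) (cont_sv q)

theorem isCompact_SK (R : Lb n → Lb n → Prop) : IsCompact (SK R) := by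
  refine Metric.isCompact_of_isClosed_isBounded (isClosed_SK R) ?_
  refine (Metric.isBounded_Icc (fun _ : Fin n => (-1 : ℝ)) (fun _ => 1)).subset ?_
  intro x hx
  exact ⟨fun i => (hx.1 i).1, fun i => (hx.1 i).2⟩

/-- the derivative of the flow -/
noncomputable def dT (t : ℝ) (x : Fin n → ℝ) : (Fin n → ℝ) →L[ℝ] (Fin n → ℝ) :=
  ContinuousLinearMap.pi fun i => (1 + t * (1 - 3 * x i ^ 2)) • ContinuousLinearMap.proj i

theorem hasF (t : ℝ) (x : Fin n → ℝ) : HasFDerivAt (T t) (dT t x) x := by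
  unfold dT
  rw [hasFDerivAt_pi]
  intro i
  exact HasDerivAt.comp_hasFDerivAt x (ph_deriv t (x i)) (hasFDerivAt_apply i x)

theorem det_dT (t : ℝ) (x : Fin n → ℝ) : (dT t x).det = ∏ i, (1 + t * (1 - 3 * x i ^ 2)) := by
  have h : ((dT t x : (Fin n → ℝ) →L[ℝ] (Fin n → ℝ)) : (Fin n → ℝ) →ₗ[ℝ] (Fin n → ℝ)) =
      Matrix.toLin' (Matrix.diagonal fun i => 1 + t * (1 - 3 * x i ^ 2)) := by
    apply LinearMap.ext
    intro y
    funext i
    rw [Matrix.toLin'_apply, Matrix.mulVec_diagonal]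
    rfl
  rw [ContinuousLinearMap.det, h, LinearMap.det_toLin', Matrix.det_diagonal]

theorem det_nonneg {t : ℝ} (ht : |t| < 1 / 4) {x : Fin n → ℝ} (hx : ∀ i, -1 ≤ x i ∧ x i ≤ 1) :
    0 ≤ ∏ i, (1 + t * (1 - 3 * x i ^ 2)) := by
  refine Finset.prod_nonneg fun i _ => ?_
  have h2 : |1 - 3 * x i ^ 2| ≤ 2 := by
    rw [abs_le]
    constructor
    · nlinarith [mul_nonneg (show (0 : ℝ) ≤ 1 - x i by linarith [(hx i).2])
        (show (0 : ℝ) ≤ 1 + x i by linarith [(hx i).1])]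
    · nlinarith [sq_nonneg (x i)]
  have h3 : |t * (1 - 3 * x i ^ 2)| ≤ 1 / 4 * 2 := by
    rw [abs_mul]
    exact mul_le_mul ht.le h2 (abs_nonneg _) (by norm_num)
  have h4 := (abs_le.1 h3).1
  linarith

theorem change {t : ℝ} (ht : |t| < 1 / 4) (R : Lb n → Lb n → Prop) (g : (Fin n → ℝ) → ℝ) :
    ∫ x in SK R, g (T t x) * ∏ i, (1 + t * (1 - 3 * x i ^ 2)) = ∫ x in SK R, g x := by
  have h := integral_image_eq_integral_abs_det_fderiv_smul volume (isClosed_SK R).measurableSet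
    (fun x _ => (hasF t x).hasFDerivWithinAt) (injOn_T ht R) g
  rw [image_T ht R] at h
  rw [h]
  refine setIntegral_congr_fun (isClosed_SK R).measurableSet fun x hx => ?_
  change _ = |(dT t x).det| • g (T t x)
  rw [det_dT, abs_of_nonneg (det_nonneg ht hx.1), smul_eq_mul, mul_comm]

/-- the integrand -/
noncomputable def FF (a : ℝ) (u : Fin n → ℝ) (t : ℝ) (x : Fin n → ℝ) : ℝ :=
  (a + ∑ i, u i * ph t (x i)) * ∏ i, (1 + t * (1 - 3 * x i ^ 2))

/-- its derivative -/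
noncomputable def FD (a : ℝ) (u : Fin n → ℝ) (t : ℝ) (x : Fin n → ℝ) : ℝ :=
  (∑ i, u i * (x i - x i ^ 3)) * ∏ i, (1 + t * (1 - 3 * x i ^ 2)) +
    (a + ∑ i, u i * ph t (x i)) *
      ∑ i, (∏ j ∈ Finset.univ.erase i, (1 + t * (1 - 3 * x j ^ 2))) * (1 - 3 * x i ^ 2)

theorem FF_deriv (a : ℝ) (u : Fin n → ℝ) (t : ℝ) (x : Fin n → ℝ) :
    HasDerivAt (fun t => FF a u t x) (FD a u t x) t := by
  unfold FF FD
  refine HasDerivAt.mul ?_ ?_
  · refine HasDerivAt.const_add a ?_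
    refine HasDerivAt.fun_sum fun i _ => ?_
    refine HasDerivAt.const_mul (u i) ?_
    unfold ph
    have h := ((hasDerivAt_id' t).mul_const (x i - x i ^ 3)).const_add (x i)
    rwa [one_mul] at h
  · have h := HasDerivAt.fun_finsetProd (u := Finset.univ)
      (f := fun (i : Fin n) (t : ℝ) => 1 + t * (1 - 3 * x i ^ 2))
      (f' := fun i => 1 - 3 * x i ^ 2) (x := t) (fun i _ => by
        have h := ((hasDerivAt_id' t).mul_const (1 - 3 * x i ^ 2)).const_add 1
        rwa [one_mul] at h)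
    exact h

theorem FF_cont (a : ℝ) (u : Fin n → ℝ) : Continuous fun p : ℝ × (Fin n → ℝ) => FF a u p.1 p.2 := by
  unfold FF ph
  fun_prop

theorem FD_cont (a : ℝ) (u : Fin n → ℝ) : Continuous fun p : ℝ × (Fin n → ℝ) => FD a u p.1 p.2 := by
  unfold FD ph
  fun_prop

theorem main (R : Lb n → Lb n → Prop) (a : ℝ) (u : Fin n → ℝ) :
    ∫ x in SK R, (∑ i, u i * (x i - x i ^ 3) +
      (a + ∑ i, u i * x i) * ∑ i, (1 - 3 * x i ^ 2)) = 0 := by
  have hK := isCompact_SK R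
  have hm := (isClosed_SK R).measurableSet
  obtain ⟨C, hC⟩ := ((isCompact_Icc (a := (-1 : ℝ)) (b := 1)).prod hK).exists_bound_of_continuousOn
    (FD_cont a u).continuousOn
  have hs : Set.Icc (-1 : ℝ) 1 ∈ 𝓝 (0 : ℝ) := Icc_mem_nhds (by norm_num) (by norm_num)
  haveI : IsFiniteMeasure (volume.restrict (SK R)) := ⟨by
    rw [Measure.restrict_apply_univ]; exact hK.measure_lt_top⟩
  have hc : ∀ t, Continuous (FF a u t) := fun t =>
    (FF_cont a u).comp (continuous_const.prodMk continuous_id)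
  have hc' : ∀ t, Continuous (FD a u t) := fun t =>
    (FD_cont a u).comp (continuous_const.prodMk continuous_id)
  have h := hasDerivAt_integral_of_dominated_loc_of_deriv_le (μ := volume.restrict (SK R))
    (F := FF a u) (F' := FD a u) (x₀ := 0) (bound := fun _ => C) hs
    (Eventually.of_forall fun t => (hc t).aestronglyMeasurable)
    ((hc 0).continuousOn.integrableOn_compact hK) (hc' 0).aestronglyMeasurable
    ((ae_restrict_iff' hm).2 (Eventually.of_forall fun x hx t ht => hC (t, x) ⟨ht, hx⟩))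
    (integrable_const C)
    (Eventually.of_forall fun x t _ => FF_deriv a u t x)
  have h2 : (fun t => ∫ x in SK R, FF a u t x) =ᶠ[𝓝 0] fun _ => ∫ x in SK R, (a + ∑ i, u i * x i) := by
    have : Set.Ioo (-(1 / 4) : ℝ) (1 / 4) ∈ 𝓝 (0 : ℝ) := Ioo_mem_nhds (by norm_num) (by norm_num)
    filter_upwards [this] with t ht
    exact change (abs_lt.2 ht) R fun x => a + ∑ i, u i * x i
  have h3 := (h.2.congr_of_eventuallyEq h2.symm).unique (hasDerivAt_const 0 _)
  rw [← h3]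
  refine setIntegral_congr_fun hm fun x _ => ?_
  unfold FD ph
  simp

end

theorem t_DIV : S_DIV := by
  intro n R u
  have hK := isCompact_SK R
  have key : ∀ a : ℝ, ∀ u : Fin n → ℝ, ∫ x in SK R, (a + ∑ i, u i * x i) * ∑ i, (3 * x i ^ 2 - 1) =
      ∫ x in SK R, ∑ i, u i * (x i - x i ^ 3) := by
    intro a u
    have h := main R a u
    rw [integral_add] at h
    · have h2 : ∫ x in SK R, (a + ∑ i, u i * x i) * ∑ i, (1 - 3 * x i ^ 2) =
          -∫ x in SK R, (a + ∑ i, u i * x i) * ∑ i, (3 * x i ^ 2 - 1) := by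
        rw [← integral_neg]
        congr 1
        funext x
        rw [← mul_neg, ← Finset.sum_neg_distrib]
        simp only [neg_sub]
      rw [h2] at h
      linarith
    · exact (Continuous.continuousOn (by fun_prop)).integrableOn_compact hK
    · exact (Continuous.continuousOn (by fun_prop)).integrableOn_compact hK
  refine ⟨?_, ?_⟩
  · have h := key 0 u
    simpa only [zero_add] using h
  · have h := key 1 0
    simpa using h

end Pool.Agent.T2h31.SB.DIV

namespace Pool.Agent.T2h31.SB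

theorem t_DIV : S_DIV := DIV.t_DIV

end Pool.Agent.T2h31.SB
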