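import Pool.Agent.T2h31.SB.Stm

/-! Project SB, task VAR: a direction of large variance. -/

set_option autoImplicit false

namespace Pool.Agent.T2h31.SB

open MeasureTheory Set Filter Topology

namespace VAR

variable {n : ℕ} {μ : Measure (Fin n → ℝ)}

theorem sq_exp [IsFiniteMeasure μ] (hint : ∀ G : (Fin n → ℝ) → ℝ, Continuous G → Integrable G μ)
    {f : (Fin n → ℝ) → ℝ} (hf : Continuous f) (c : ℝ) :
    ∫ x, (f x - c) ^ 2 ∂μ = ∫ x, f x ^ 2 ∂μ - 2 * c * ∫ x, f x ∂μ + c ^ 2 * μ.real univ := by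
  have h1 : ∀ x, (f x - c) ^ 2 = f x ^ 2 - 2 * c * f x + c ^ 2 := fun x => by ring
  simp_rw [h1]
  rw [integral_add (hint _ (by fun_prop)) (integrable_const _),
    integral_sub (hint _ (by fun_prop)) (hint _ (by fun_prop)), integral_const_mul, integral_const,
    smul_eq_mul]
  ring

/-- the variance is at most the mean square distance to a constant -/
theorem W_le [IsFiniteMeasure μ] (hint : ∀ G : (Fin n → ℝ) → ℝ, Continuous G → Integrable G μ)
    {f : (Fin n → ℝ) → ℝ} (hf : Continuous f) (c : ℝ) :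
    μ.real univ * ∫ x, f x ^ 2 ∂μ - (∫ x, f x ∂μ) ^ 2 ≤
      μ.real univ * ∫ x, (f x - c) ^ 2 ∂μ := by
  rw [sq_exp hint hf]
  nlinarith [sq_nonneg (∫ x, f x ∂μ - c * μ.real univ)]

theorem W_eq [IsFiniteMeasure μ] (hint : ∀ G : (Fin n → ℝ) → ℝ, Continuous G → Integrable G μ)
    {f : (Fin n → ℝ) → ℝ} (hf : Continuous f) (hV : 0 < μ.real univ) :
    μ.real univ * ∫ x, (f x - (∫ x, f x ∂μ) / μ.real univ) ^ 2 ∂μ =
      μ.real univ * ∫ x, f x ^ 2 ∂μ - (∫ x, f x ∂μ) ^ 2 := by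
  rw [sq_exp hint hf]
  field_simp
  ring

theorem v_lip {a b : ℝ} (ha : -1 ≤ a) (ha' : a ≤ 1) (hb : -1 ≤ b) (hb' : b ≤ 1) :
    (a - a ^ 3 - (b - b ^ 3)) ^ 2 ≤ 4 * (a - b) ^ 2 := by
  obtain ⟨q, hq⟩ : ∃ q, q = a ^ 2 + a * b + b ^ 2 := ⟨_, rfl⟩
  have h1 : a - a ^ 3 - (b - b ^ 3) = (a - b) * (1 - q) := by rw [hq]; ring
  have h0 : 0 ≤ q := by rw [hq]; nlinarith [sq_nonneg (a + b), sq_nonneg a, sq_nonneg b]
  have ha2 : a ^ 2 ≤ 1 := by nlinarith
  have hb2 : b ^ 2 ≤ 1 := by nlinarith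
  have h3 : q ≤ 3 := by
    rw [hq]
    nlinarith [sq_nonneg (a - b)]
  rw [h1, mul_pow]
  have h4 : (1 - q) ^ 2 ≤ 4 := by nlinarith
  nlinarith [sq_nonneg (a - b)]

theorem core [IsFiniteMeasure μ] (hint : ∀ G : (Fin n → ℝ) → ℝ, Continuous G → Integrable G μ)
    (hn : 1 ≤ n) (hV : 0 < μ.real univ) (hb : ∀ᵐ x ∂μ, ∀ i, -1 ≤ x i ∧ x i ≤ 1)
    (m1 : ∫ x, ∑ i, (x i - x i ^ 3) ^ 2 ∂μ = μ.real univ * (8 * (n : ℝ) / 105))
    (m2 : ∫ x, (∑ i, (3 * x i ^ 2 - 1)) ^ 2 ∂μ = μ.real univ * (4 * (n : ℝ) / 5))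
    (d1 : ∀ u : Fin n → ℝ, ∫ x, (∑ i, u i * x i) * ∑ i, (3 * x i ^ 2 - 1) ∂μ =
      ∫ x, ∑ i, u i * (x i - x i ^ 3) ∂μ)
    (d2 : ∫ x, ∑ i, (3 * x i ^ 2 - 1) ∂μ = 0) :
    ∃ u : Fin n → ℝ, ∑ i, u i ^ 2 = 1 ∧ 1 / 63 * μ.real univ ^ 2 ≤
      μ.real univ * (∫ x, (∑ i, u i * x i) ^ 2 ∂μ) - (∫ x, ∑ i, u i * x i ∂μ) ^ 2 := by
  classical
  obtain ⟨V, hVe⟩ : ∃ V, V = μ.real univ := ⟨_, rfl⟩
  rw [← hVe] at hV m1 m2 ⊢
  by_cases hcase : ∃ i : Fin n, 1 / 63 * V ^ 2 ≤ V * (∫ x, x i ^ 2 ∂μ) - (∫ x, x i ∂μ) ^ 2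
  · obtain ⟨i, hi⟩ := hcase
    refine ⟨Pi.single i 1, ?_, ?_⟩
    · rw [Finset.sum_eq_single i]
      · simp
      · intro j _ hji
        simp [hji]
      · intro h
        exact absurd (Finset.mem_univ i) h
    · have h1 : ∀ x : Fin n → ℝ, ∑ j, (Pi.single i 1 : Fin n → ℝ) j * x j = x i := by
        intro x
        rw [Finset.sum_eq_single i]
        · simp
        · intro j _ hji
          simp [hji]
        · intro h
          exact absurd (Finset.mem_univ i) h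
      simp only [h1]
      exact hi
  push Not at hcase
  -- each coordinate
  have hmean : ∀ i : Fin n, -1 ≤ (∫ x, x i ∂μ) / V ∧ (∫ x, x i ∂μ) / V ≤ 1 := by
    intro i
    have h1 : ∫ _x, (-1 : ℝ) ∂μ ≤ ∫ x, x i ∂μ :=
      integral_mono_ae (integrable_const _) (hint _ (continuous_apply i))
        (hb.mono fun x hx => (hx i).1)
    have h2 : ∫ x, x i ∂μ ≤ ∫ _x, (1 : ℝ) ∂μ :=
      integral_mono_ae (hint _ (continuous_apply i)) (integrable_const _)
        (hb.mono fun x hx => (hx i).2)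
    rw [integral_const, smul_eq_mul, ← hVe] at h1 h2
    exact ⟨by rw [le_div_iff₀ hV]; linarith, by rw [div_le_iff₀ hV]; linarith⟩
  have hv : ∀ i : Fin n, V * (∫ x, (x i - x i ^ 3) ^ 2 ∂μ) - (∫ x, (x i - x i ^ 3) ∂μ) ^ 2 ≤
      4 / 63 * V ^ 2 := by
    intro i
    obtain ⟨m, hm⟩ : ∃ m, m = (∫ x, x i ∂μ) / V := ⟨_, rfl⟩
    have hc1 : Continuous fun x : Fin n → ℝ => x i - x i ^ 3 := by fun_prop
    have h1 := W_le hint hc1 (m - m ^ 3)
    have h2 : ∫ x, (x i - x i ^ 3 - (m - m ^ 3)) ^ 2 ∂μ ≤ ∫ x, 4 * (x i - m) ^ 2 ∂μ := by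
      refine integral_mono_ae (hint _ (by fun_prop)) (hint _ (by fun_prop)) (hb.mono fun x hx => ?_)
      exact v_lip (hx i).1 (hx i).2 (by rw [hm]; exact (hmean i).1) (by rw [hm]; exact (hmean i).2)
    have h3 := W_eq hint (continuous_apply i) (by rw [← hVe]; exact hV)
    rw [← hVe] at h1 h3
    rw [← hm] at h3
    rw [integral_const_mul] at h2
    have h4 := hcase i
    have h5 : V * ∫ x, (x i - x i ^ 3 - (m - m ^ 3)) ^ 2 ∂μ ≤ V * (4 * ∫ x, (x i - m) ^ 2 ∂μ) :=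
      mul_le_mul_of_nonneg_left h2 hV.le
    have h6 : V * ∫ x : Fin n → ℝ, (x i - m) ^ 2 ∂μ < 1 / 63 * V ^ 2 := by
      rw [h3]
      exact h4
    linarith
  obtain ⟨y, hy⟩ : ∃ y : Fin n → ℝ, y = fun i => ∫ x, (x i - x i ^ 3) ∂μ := ⟨_, rfl⟩
  have hYs : 4 * (n : ℝ) * V ^ 2 / 315 ≤ ∑ i, y i ^ 2 := by
    have h1 : ∀ i ∈ (Finset.univ : Finset (Fin n)),
        V * (∫ x, (x i - x i ^ 3) ^ 2 ∂μ) - 4 / 63 * V ^ 2 ≤ y i ^ 2 := by
      intro i _
      have := hv i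
      rw [hy]
      simp only
      linarith
    have h2 := Finset.sum_le_sum h1
    rw [Finset.sum_sub_distrib, ← Finset.mul_sum, Finset.sum_const, Finset.card_univ,
      Fintype.card_fin, nsmul_eq_mul] at h2
    have h3 : ∑ i, ∫ x, (x i - x i ^ 3) ^ 2 ∂μ = V * (8 * (n : ℝ) / 105) := by
      rw [← m1, integral_finsetSum]
      exact fun i _ => hint _ (by fun_prop)
    rw [h3] at h2
    refine le_trans (le_of_eq ?_) h2
    ring
  have hn' : (0 : ℝ) < n := by exact_mod_cast hn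
  obtain ⟨Y, hY⟩ : ∃ Y, Y = √(∑ i, y i ^ 2) := ⟨_, rfl⟩
  have hS0 : 0 < ∑ i, y i ^ 2 := lt_of_lt_of_le (by positivity) hYs
  have hY0 : 0 < Y := by rw [hY]; exact Real.sqrt_pos.2 hS0
  have hYY : Y ^ 2 = ∑ i, y i ^ 2 := by rw [hY]; exact Real.sq_sqrt hS0.le
  refine ⟨fun i => y i / Y, ?_, ?_⟩
  · simp only [div_pow]
    rw [← Finset.sum_div, hYY]
    exact div_self hS0.ne'
  · have hcf : Continuous fun x : Fin n → ℝ => ∑ i, y i / Y * x i := by fun_prop
    have hch : Continuous fun x : Fin n → ℝ => ∑ i, (3 * x i ^ 2 - 1) := by fun_prop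
    have hfh : ∫ x, (∑ i, y i / Y * x i) * ∑ i, (3 * x i ^ 2 - 1) ∂μ = Y := by
      rw [d1, integral_finsetSum]
      · have h1 : ∀ i ∈ (Finset.univ : Finset (Fin n)),
            ∫ x, y i / Y * (x i - x i ^ 3) ∂μ = y i ^ 2 / Y := by
          intro i _
          rw [integral_const_mul]
          have h2 : ∫ x, (x i - x i ^ 3) ∂μ = y i := by rw [hy]
          rw [h2]
          ring
        rw [Finset.sum_congr rfl h1, ← Finset.sum_div, ← hYY]
        field_simp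
      · exact fun i _ => hint _ (by fun_prop)
    obtain ⟨f, hf⟩ : ∃ f : (Fin n → ℝ) → ℝ, f = fun x => ∑ i, y i / Y * x i := ⟨_, rfl⟩
    obtain ⟨h, hh⟩ : ∃ h : (Fin n → ℝ) → ℝ, h = fun x => ∑ i, (3 * x i ^ 2 - 1) := ⟨_, rfl⟩
    have hf' : ∀ x, ∑ i, y i / Y * x i = f x := fun x => by rw [hf]
    have hh' : ∀ x : Fin n → ℝ, ∑ i, (3 * x i ^ 2 - 1) = h x := fun x => by rw [hh]
    simp only [hf', hh'] at hcf hch hfh m2 d2 ⊢
    obtain ⟨c, hc⟩ : ∃ c, c = (∫ x, f x ∂μ) / V := ⟨_, rfl⟩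
    obtain ⟨t, ht⟩ : ∃ t, t = -(Y / (V * (4 * (n : ℝ) / 5))) := ⟨_, rfl⟩
    have h1 : 0 ≤ ∫ x, (f x - c + t * h x) ^ 2 ∂μ := integral_nonneg fun x => sq_nonneg _
    have h2 : ∀ x, (f x - c + t * h x) ^ 2 = (f x - c) ^ 2 + 2 * t * (f x * h x) -
        2 * t * c * h x + t ^ 2 * h x ^ 2 := fun x => by ring
    simp_rw [h2] at h1
    rw [integral_add (hint _ (by fun_prop)) (hint _ (by fun_prop)),
      integral_sub (hint _ (by fun_prop)) (hint _ (by fun_prop)),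
      integral_add (hint _ (by fun_prop)) (hint _ (by fun_prop)), integral_const_mul,
      integral_const_mul, integral_const_mul, hfh, d2, m2] at h1
    have h3 := W_eq hint hcf (by rw [← hVe]; exact hV)
    rw [← hVe, ← hc] at h3
    rw [← h3]
    have h4 : Y ^ 2 / (V * (4 * (n : ℝ) / 5)) ≤ ∫ x, (f x - c) ^ 2 ∂μ := by
      have h5 : 2 * t * Y - 2 * t * c * 0 + t ^ 2 * (V * (4 * (n : ℝ) / 5)) =
          -(Y ^ 2 / (V * (4 * (n : ℝ) / 5))) := by
        rw [ht]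
        field_simp
        ring
      linarith
    have h6 : V * (Y ^ 2 / (V * (4 * (n : ℝ) / 5))) ≤ V * ∫ x, (f x - c) ^ 2 ∂μ :=
      mul_le_mul_of_nonneg_left h4 hV.le
    refine le_trans ?_ h6
    have h7 : V * (Y ^ 2 / (V * (4 * (n : ℝ) / 5))) = Y ^ 2 / (4 * n / 5) := by
      field_simp
    rw [h7, le_div_iff₀ (by positivity), hYY]
    refine le_trans (le_of_eq ?_) hYs
    ring

theorem compact (R : Lb n → Lb n → Prop) : IsCompact (SK R) := by
  have h1 : IsCompact (Set.pi univ fun _ : Fin n => Icc (-1 : ℝ) 1) :=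
    isCompact_univ_pi fun _ => isCompact_Icc
  refine h1.of_isClosed_subset ?_ ?_
  · have h2 : SK R = {x : Fin n → ℝ | ∀ i, -1 ≤ x i ∧ x i ≤ 1} ∩
        {x : Fin n → ℝ | ∀ p q, R p q → sv x p ≤ sv x q} := rfl
    have hsv : ∀ p : Lb n, Continuous fun x : Fin n → ℝ => sv x p := by
      intro p
      unfold sv
      split_ifs
      · exact continuous_apply _
      · exact (continuous_apply _).neg
    rw [h2]
    refine IsClosed.inter ?_ ?_
    · simp only [Set.ofPred_forall]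
      refine isClosed_iInter fun i => ?_
      exact (isClosed_le continuous_const (continuous_apply i)).inter
        (isClosed_le (continuous_apply i) continuous_const)
    · simp only [Set.ofPred_forall]
      exact isClosed_iInter fun p => isClosed_iInter fun q => isClosed_iInter fun _ =>
        isClosed_le (hsv p) (hsv q)
  · intro x hx i _
    exact ⟨(hx.1 i).1, (hx.1 i).2⟩

end VAR

theorem t_VAR (hSYM : S_SYM) (hMOM : S_MOM) (hDIV : S_DIV) : S_VAR := by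
  intro n R hn hvol
  have hK := VAR.compact R
  have hfin : volume (SK R) < ⊤ := hK.measure_lt_top
  have hVr : (volume.restrict (SK R)).real univ = (volume (SK R)).toReal := by
    rw [measureReal_def, Measure.restrict_apply_univ]
  have : IsFiniteMeasure (volume.restrict (SK R)) := ⟨by rwa [Measure.restrict_apply_univ]⟩
  have hm1 := hSYM n R (fun x => ∑ i, (x i - x i ^ 3) ^ 2) (by fun_prop)
    (fun p x => Equiv.sum_comp p fun i => (x i - x i ^ 3) ^ 2)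
    (fun s x => Finset.sum_congr rfl fun i _ => by beta_reduce; split_ifs <;> ring)
  have hm2 := hSYM n R (fun x => (∑ i, (3 * x i ^ 2 - 1)) ^ 2) (by fun_prop)
    (fun p x => by rw [Equiv.sum_comp p fun i => (3 * x i ^ 2 - 1)])
    (fun s x => by
      congr 1
      exact Finset.sum_congr rfl fun i _ => by beta_reduce; split_ifs <;> ring)
  rw [(hMOM n).1] at hm1
  rw [(hMOM n).2] at hm2
  have h := VAR.core (n := n) (μ := volume.restrict (SK R))
    (fun G hG => hG.continuousOn.integrableOn_compact hK) hn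
    (by rw [hVr]; exact ENNReal.toReal_pos hvol.ne' hfin.ne)
    (by
      filter_upwards [ae_restrict_mem hK.measurableSet] with x hx
      exact hx.1)
    (by rw [hVr]; exact hm1) (by rw [hVr]; exact hm2) (fun u => (hDIV n R u).1)
    (hDIV n R fun _ => 0).2
  rw [hVr] at h
  exact h

end Pool.Agent.T2h31.SB
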