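import Pool.Agent.T2h31.SB.Stm

/-!
(CON) eigenvalues of nonconstant eigenfunctions are at least one.
-/

set_option autoImplicit false

namespace Pool.Agent.T2h31.SB

namespace CON

variable {n : ℕ}

theorem odd_ne {i : ℤ} (h : Odd i) : i ≠ 0 := by
  rintro rfl
  exact absurd h (by decide)

theorem mv_mv (hS : S_SGB) {i j : ℤ} (hi : Odd i) (hj : Odd j) (g : Fin n → ℤ) :
    mv i j (mv i j g) = g := by
  funext a
  exact hS.2.1 i j (g a) (odd_ne hi) (odd_ne hj)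

end CON

open CON

theorem t_CON (hPT : S_PT) (hS : S_SGB) (hG : S_GEN) : S_CON := by
  classical
  intro n N R lam F heig hne
  set T : Finset ((Fin n → ℤ) × ℤ × ℤ) :=
    (cfg N R ×ˢ (Finset.Ioo (-(2 * (N : ℤ))) (2 * (N : ℤ)) ×ˢ
      Finset.Ioo (-(2 * (N : ℤ))) (2 * (N : ℤ)))).filter
    fun x => Odd x.2.1 ∧ Odd x.2.2 ∧ x.2.1 < x.2.2 ∧ mv x.2.1 x.2.2 x.1 ∈ cfg N R with hT
  have memT : ∀ g i j, (g, i, j) ∈ T ↔ g ∈ cfg N R ∧ Odd i ∧ Odd j ∧ -(2 * (N : ℤ)) < i ∧ i < j ∧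
      j < 2 * (N : ℤ) ∧ mv i j g ∈ cfg N R := by
    intro g i j
    simp only [hT, Finset.mem_filter, Finset.mem_product, Finset.mem_Ioo]
    constructor
    · rintro ⟨⟨h1, ⟨h2, h3⟩, h4, h5⟩, h6, h7, h8, h9⟩
      exact ⟨h1, h6, h7, h2, h8, h5, h9⟩
    · rintro ⟨h1, h2, h3, h4, h5, h6, h7⟩
      exact ⟨⟨h1, ⟨h4, by omega⟩, by omega, h6⟩, h2, h3, h5, h7⟩
  obtain ⟨g0, hg0, k0, hk0, hm0, hF0⟩ := hne
  have h0T : (g0, 2 * (k0 : ℤ) - 1, 2 * (k0 : ℤ) + 1) ∈ T := by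
    refine (memT _ _ _).2 ⟨hg0, ⟨(k0 : ℤ) - 1, by ring⟩, ⟨(k0 : ℤ), by ring⟩, by omega, by omega,
      by omega, hm0⟩
  obtain ⟨⟨s0, i, j⟩, hsT, hmax⟩ := Finset.exists_max_image T
    (fun x => |F (mv x.2.1 x.2.2 x.1) - F x.1| / ((x.2.2 : ℝ) - x.2.1)) ⟨_, h0T⟩
  obtain ⟨hs0, hi, hj, hiN, hij, hjN, ht0⟩ := (memT _ _ _).1 hsT
  set M : ℝ := |F (mv i j s0) - F s0| / ((j : ℝ) - i) with hM
  have hcast : ∀ {a b : ℤ}, a < b → (0 : ℝ) < (b : ℝ) - a := by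
    intro a b hab
    have : (a : ℝ) < b := by exact_mod_cast hab
    linarith
  have hWij : 0 < (j : ℝ) - i := hcast hij
  have hMpos : 0 < M := by
    have h1 := hmax _ h0T
    have h2 : 0 < |F (mv (2 * (k0 : ℤ) - 1) (2 * (k0 : ℤ) + 1) g0) - F g0| /
        (((2 * (k0 : ℤ) + 1 : ℤ) : ℝ) - ((2 * (k0 : ℤ) - 1 : ℤ) : ℝ)) :=
      div_pos (abs_pos.2 (sub_ne_zero.2 hF0)) (hcast (by omega))
    exact lt_of_lt_of_le h2 h1
  have hLip : Lp N R F M := by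
    intro g hg i' j' hi' hj' hiN' hij' hjN' hm'
    have h1 := hmax _ ((memT g i' j').2 ⟨hg, hi', hj', hiN', hij', hjN', hm'⟩)
    exact (div_le_iff₀ (hcast hij')).1 h1
  have hD0 : |F (mv i j s0) - F s0| = M * ((j : ℝ) - i) := by
    rw [hM, div_mul_cancel₀ _ hWij.ne']
  obtain ⟨s, hs, ht, hD⟩ : ∃ s ∈ cfg N R, mv i j s ∈ cfg N R ∧
      F (mv i j s) - F s = M * ((j : ℝ) - i) := by
    rcases le_total 0 (F (mv i j s0) - F s0) with hc | hc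
    · exact ⟨s0, hs0, ht0, by rw [← hD0, abs_of_nonneg hc]⟩
    · refine ⟨mv i j s0, ht0, by rwa [mv_mv hS hi hj], ?_⟩
      rw [mv_mv hS hi hj, ← hD0, abs_of_nonpos hc]
      ring
  have hsum : LL N R F (mv i j s) - LL N R F s ≤ ∑ k ∈ Finset.range N, M * (cc N k *
      (((sg (2 * (k : ℤ) - 1) (2 * (k : ℤ) + 1) j - j) -
      (sg (2 * (k : ℤ) - 1) (2 * (k : ℤ) + 1) i - i) : ℤ) : ℝ)) := by
    unfold LL
    rw [← Finset.sum_sub_distrib]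
    refine Finset.sum_le_sum fun k hk => ?_
    exact hPT n N R F M hMpos.le hLip s hs i j hi hj hiN hij hjN ht hD k (Finset.mem_range.1 hk)
  have hrhs : ∑ k ∈ Finset.range N, M * (cc N k *
      (((sg (2 * (k : ℤ) - 1) (2 * (k : ℤ) + 1) j - j) -
      (sg (2 * (k : ℤ) - 1) (2 * (k : ℤ) + 1) i - i) : ℤ) : ℝ)) = M * (-(j : ℝ) - -(i : ℝ)) := by
    rw [← hG N j hj (by omega) hjN, ← hG N i hi hiN (by omega), ← Finset.sum_sub_distrib,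
      Finset.mul_sum]
    refine Finset.sum_congr rfl fun k _ => ?_
    push_cast
    ring
  rw [hrhs, heig _ ht, heig _ hs] at hsum
  have hDpos : 0 < M * ((j : ℝ) - i) := mul_pos hMpos hWij
  have h3 : -lam * (M * ((j : ℝ) - i)) ≤ -1 * (M * ((j : ℝ) - i)) := by
    rw [← hD]
    have h4 : M * (-(j : ℝ) - -(i : ℝ)) = -(F (mv i j s) - F s) := by rw [hD]; ring
    rw [h4] at hsum
    linarith
  have h5 := le_of_mul_le_mul_right h3 hDpos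
  linarith

end Pool.Agent.T2h31.SB
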