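import Pool.Agent.T2h31.SB.Stm

/-!
(CONN) connectivity of the admissible placements.
-/

set_option autoImplicit false

namespace Pool.Agent.T2h31.SB

namespace CONN

variable {n : ℕ}

/-- the opposite label -/
def ng (p : Lb n) : Lb n := (p.1, !p.2)

theorem sv_ng (g : Fin n → ℤ) (p : Lb n) : sv g (ng p) = -sv g p := by
  obtain ⟨a, s⟩ := p
  cases s <;> simp [sv, ng]

theorem ng_ng (p : Lb n) : ng (ng p) = p := by
  obtain ⟨a, s⟩ := p
  simp [ng]

theorem sqs (g h : Fin n → ℤ) (p : Lb n) : (g p.1 - h p.1) ^ 2 = (sv g p - sv h p) ^ 2 := by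
  obtain ⟨a, s⟩ := p
  cases s
  · simp only [sv]; norm_num; ring
  · simp only [sv]; norm_num

theorem bounds {N : ℕ} {R : Lb n → Lb n → Prop} {g : Fin n → ℤ} (hg : g ∈ cfg N R) (p : Lb n) :
    -(2 * (N : ℤ)) < sv g p ∧ sv g p < 2 * (N : ℤ) ∧ sv g p % 2 = 1 := by
  obtain ⟨a, s⟩ := p
  obtain ⟨h1, h2, h3⟩ := (mem_cfg.1 hg).1 a
  rw [Int.odd_iff] at h3
  cases s
  · simp only [sv]; norm_num; omega
  · simp only [sv]; norm_num; omega

theorem sv_inj {N : ℕ} {R : Lb n → Lb n → Prop} {g : Fin n → ℤ} (hg : g ∈ cfg N R) {p q : Lb n}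
    (h : sv g p = sv g q) : p = q := by
  obtain ⟨a, s⟩ := p
  obtain ⟨b, t⟩ := q
  by_cases hab : a = b
  · subst hab
    obtain ⟨-, -, h3⟩ := (mem_cfg.1 hg).1 a
    rw [Int.odd_iff] at h3
    cases s <;> cases t
    · rfl
    · simp only [sv] at h; norm_num at h; omega
    · simp only [sv] at h; norm_num at h; omega
    · rfl
  · exfalso
    obtain ⟨h4, h5⟩ := (mem_cfg.1 hg).2.1 a b hab
    cases s <;> cases t
    · simp only [sv] at h; norm_num at h; exact h4 h
    · simp only [sv] at h; norm_num at h; apply h5; omega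
    · simp only [sv] at h; norm_num at h; exact h5 h
    · simp only [sv] at h; norm_num at h; exact h4 h

theorem step (hS : S_SGB) {N : ℕ} {R : Lb n → Lb n → Prop} {g h : Fin n → ℤ} (hg : g ∈ cfg N R)
    (hh : h ∈ cfg N R) (hne : g ≠ h) :
    ∃ k, k < N ∧ sm k g ∈ cfg N R ∧ ∑ a, (sm k g a - h a) ^ 2 < ∑ a, (g a - h a) ^ 2 := by
  classical
  -- a label to be moved up
  have hex : ∃ p : Lb n, sv g p < sv h p := by
    by_contra hcon
    push Not at hcon
    apply hne
    funext a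
    have h1 := hcon (a, true)
    have h2 := hcon (a, false)
    simp only [sv] at h1 h2
    norm_num at h1 h2
    omega
  obtain ⟨p, hp, hmax⟩ := Finset.exists_max_image
    (Finset.univ.filter (fun p : Lb n => sv g p < sv h p)) (fun p => sv g p) (by
      obtain ⟨p, hp⟩ := hex
      exact ⟨p, Finset.mem_filter.2 ⟨Finset.mem_univ _, hp⟩⟩)
  rw [Finset.mem_filter] at hp
  have hp2 := hp.2
  obtain ⟨z, hz⟩ : ∃ z, sv g p = z := ⟨_, rfl⟩
  obtain ⟨H, hH⟩ : ∃ H, sv h p = H := ⟨_, rfl⟩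
  have hmax' : ∀ q : Lb n, z < sv g q → sv h q ≤ sv g q := by
    intro q hq
    by_contra hcon
    push Not at hcon
    have := hmax q (Finset.mem_filter.2 ⟨Finset.mem_univ _, hcon⟩)
    simp only [hz] at this
    omega
  obtain ⟨b1, b2, b3⟩ := bounds hg p
  obtain ⟨c1, c2, c3⟩ := bounds hh p
  rw [hz] at b1 b2 b3 hp2
  rw [hH] at c1 c2 c3 hp2
  -- the exchange
  obtain ⟨k, hkN, hk⟩ : ∃ k : ℕ, k < N ∧ ((2 * (k : ℤ) - 1 = z ∧ 2 * (k : ℤ) + 1 = z + 2) ∨
      (2 * (k : ℤ) - 1 = -(z + 2) ∧ 2 * (k : ℤ) + 1 = -z)) := by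
    rcases le_or_gt (-1) z with h1 | h1
    · refine ⟨((z + 1) / 2).toNat, by omega, Or.inl ⟨by omega, by omega⟩⟩
    · refine ⟨(-(z + 1) / 2).toNat, by omega, Or.inr ⟨by omega, by omega⟩⟩
  have oi : Odd (2 * (k : ℤ) - 1) := ⟨(k : ℤ) - 1, by ring⟩
  have oj : Odd (2 * (k : ℤ) + 1) := ⟨(k : ℤ), by ring⟩
  have hmem := hS.2.2.2 n N R g (2 * (k : ℤ) - 1) (2 * (k : ℤ) + 1) oi oj (by omega) (by omega)
    (by omega) (by omega) hg
  set t : ℤ → ℤ := sg (2 * (k : ℤ) - 1) (2 * (k : ℤ) + 1) with ht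
  -- values of the exchange
  have tz : t z = z + 2 := by
    rw [ht]; unfold sg
    rcases hk with ⟨h1, h2⟩ | ⟨h1, h2⟩ <;> rw [h1, h2] <;> split_ifs <;> omega
  have tz2 : t (z + 2) = z := by
    rw [ht]; unfold sg
    rcases hk with ⟨h1, h2⟩ | ⟨h1, h2⟩ <;> rw [h1, h2] <;> split_ifs <;> omega
  have tfix : ∀ w, w ≠ z → w ≠ z + 2 → w ≠ -z → w ≠ -(z + 2) → t w = w := by
    intro w w1 w2 w3 w4
    rw [ht]; unfold sg
    rcases hk with ⟨h1, h2⟩ | ⟨h1, h2⟩ <;> rw [h1, h2] <;> split_ifs <;> omega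
  have tlt : ∀ x y, x % 2 = 1 → y % 2 = 1 → x < y → ¬ (x = z ∧ y = z + 2) →
      ¬ (x = -(z + 2) ∧ y = -z) → t x < t y := by
    intro x y hx hy hxy n1 n2
    rw [ht]; unfold sg
    rcases hk with ⟨h1, h2⟩ | ⟨h1, h2⟩ <;> rw [h1, h2] <;> split_ifs <;> omega
  refine ⟨k, hkN, ?_, ?_⟩
  · show mv (2 * (k : ℤ) - 1) (2 * (k : ℤ) + 1) g ∈ cfg N R
    rw [hmem.1]
    intro a b hab
    have hgl := (mem_cfg.1 hg).2.2 a b hab
    have hhl := (mem_cfg.1 hh).2.2 a b hab
    apply tlt _ _ (bounds hg a).2.2 (bounds hg b).2.2 hgl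
    · rintro ⟨e1, e2⟩
      have hap : a = p := sv_inj hg (e1.trans hz.symm)
      rw [hap, hH] at hhl
      have := hmax' b (by omega)
      omega
    · rintro ⟨e1, e2⟩
      have e3 : sv g (ng b) = z := by rw [sv_ng]; omega
      have hbp : ng b = p := sv_inj hg (e3.trans hz.symm)
      have e4 : sv g (ng a) = z + 2 := by rw [sv_ng]; omega
      have h5 := hmax' (ng a) (by omega)
      rw [e4, sv_ng] at h5
      have h6 : sv h (ng b) = H := by rw [hbp, hH]
      rw [sv_ng] at h6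
      omega
  · -- the sum decreases
    have hval : ∀ q : Lb n, (sm k g q.1 - h q.1) ^ 2 = (t (sv g q) - sv h q) ^ 2 := by
      intro q
      rw [sqs (sm k g) h q]
      have := hmem.2 q
      have e : sv (sm k g) q = t (sv g q) := this
      rw [e]
    have hpv : (sm k g p.1 - h p.1) ^ 2 = (z + 2 - H) ^ 2 := by
      rw [hval p, hz, hH, tz]
    have hpg : (g p.1 - h p.1) ^ 2 = (z - H) ^ 2 := by
      rw [sqs g h p, hz, hH]
    have hother : ∀ c, c ≠ p.1 → |g c| ≠ |z + 2| → sm k g c = g c := by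
      intro c hc h1
      have h2 : g c ≠ z := by
        intro h'
        have : (c, true) = p := sv_inj hg (by rw [hz]; exact h')
        exact hc (congrArg Prod.fst this)
      have h3 : g c ≠ -z := by
        intro h'
        have : (c, false) = p := sv_inj hg (by
          rw [hz]; show -g c = z; omega)
        exact hc (congrArg Prod.fst this)
      have h4 : g c ≠ z + 2 := fun h' => h1 (by rw [h'])
      have h5 : g c ≠ -(z + 2) := fun h' => h1 (by rw [h', abs_neg])
      exact tfix (g c) h2 h4 h3 h5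
    by_cases hb : ∃ b, b ≠ p.1 ∧ |g b| = |z + 2|
    · obtain ⟨b, hbp, hb⟩ := hb
      obtain ⟨q, hq1, hq2⟩ : ∃ q : Lb n, q.1 = b ∧ sv g q = z + 2 := by
        rcases abs_eq_abs.1 hb with h1 | h1
        · exact ⟨(b, true), rfl, h1⟩
        · exact ⟨(b, false), rfl, by show -g b = z + 2; omega⟩
      subst hq1
      obtain ⟨K, hK⟩ : ∃ K, sv h q = K := ⟨_, rfl⟩
      have hKle : K ≤ z + 2 := by
        have := hmax' q (by omega)
        omega
      have hKH : K ≠ H := by
        intro h'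
        apply hbp
        have : q = p := sv_inj hh (by rw [hK, hH, h'])
        rw [this]
      have hqv : (sm k g q.1 - h q.1) ^ 2 = (z - K) ^ 2 := by
        rw [hval q, hq2, hK, tz2]
      have hqg : (g q.1 - h q.1) ^ 2 = (z + 2 - K) ^ 2 := by
        rw [sqs g h q, hq2, hK]
      have h1 : ∑ c, ((g c - h c) ^ 2 - (sm k g c - h c) ^ 2) =
          ((g p.1 - h p.1) ^ 2 - (sm k g p.1 - h p.1) ^ 2) +
          ((g q.1 - h q.1) ^ 2 - (sm k g q.1 - h q.1) ^ 2) := by
        apply Finset.sum_eq_add p.1 q.1 hbp.symm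
        · rintro c _ ⟨hca, hcb⟩
          rw [hother c hca ?_, sub_self]
          rw [← hb]
          intro h'
          rcases abs_eq_abs.1 h' with h'' | h''
          · exact ((mem_cfg.1 hg).2.1 c q.1 hcb).1 h''
          · exact ((mem_cfg.1 hg).2.1 c q.1 hcb).2 h''
        · intro h'
          exact absurd (Finset.mem_univ _) h'
        · intro h'
          exact absurd (Finset.mem_univ _) h'
      rw [Finset.sum_sub_distrib, hpv, hpg, hqv, hqg] at h1
      have h2 : ((z - H) ^ 2 - (z + 2 - H) ^ 2) + ((z + 2 - K) ^ 2 - (z - K) ^ 2) = 4 * (H - K) := by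
        ring
      rw [h2] at h1
      have h3 : (0 : ℤ) < 4 * (H - K) := by omega
      linarith
    · push Not at hb
      have hH2 : z + 2 ≤ H := by omega
      have hsq : (z + 2 - H) ^ 2 = (z - H) ^ 2 + 4 * (z - H) + 4 := by ring
      apply Finset.sum_lt_sum
      · intro c _
        by_cases hca : c = p.1
        · rw [hca, hpv, hpg, hsq]
          linarith
        · rw [hother c hca (hb c hca)]
      · refine ⟨p.1, Finset.mem_univ _, ?_⟩
        rw [hpv, hpg, hsq]
        linarith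

end CONN

open CONN

theorem t_CONN (hS : S_SGB) : S_CONN := by
  intro n N R F hF
  have key : ∀ m : ℕ, ∀ g ∈ cfg N R, ∀ h ∈ cfg N R,
      ∑ a, (g a - h a) ^ 2 ≤ (m : ℤ) → F g = F h := by
    intro m
    induction m with
    | zero =>
      intro g _ h _ hm
      have h0 : ∀ a ∈ Finset.univ, (0 : ℤ) ≤ (g a - h a) ^ 2 := fun a _ => sq_nonneg _
      have h1 : ∑ a, (g a - h a) ^ 2 = 0 :=
        le_antisymm (by simpa using hm) (Finset.sum_nonneg h0)
      rw [Finset.sum_eq_zero_iff_of_nonneg h0] at h1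
      have h2 : g = h := by
        funext a
        have h3 := h1 a (Finset.mem_univ a)
        rw [sq_eq_zero_iff, sub_eq_zero] at h3
        exact h3
      rw [h2]
    | succ m ih =>
      intro g hg h hh hm
      by_cases hne : g = h
      · rw [hne]
      · obtain ⟨k, hk, hmem, hlt⟩ := step hS hg hh hne
        rw [← hF g hg k hk hmem]
        apply ih _ hmem h hh
        push_cast at hm
        linarith
  intro g hg h hh
  have h0 : (0 : ℤ) ≤ ∑ a, (g a - h a) ^ 2 := Finset.sum_nonneg fun a _ => sq_nonneg _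
  obtain ⟨m, hm⟩ := Int.eq_ofNat_of_zero_le h0
  exact key m g hg h hh (le_of_eq hm)

end Pool.Agent.T2h31.SB
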