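import Pool.Agent.T2h31.SB.Stm
import Pool.Agent.R972.OP.Fin
import Pool.Agent.W695.KH.Final
import Pool.Agent.R310.OP2.Body
import Pool.Agent.R656.OP2.Core

/-!
# Type B bodies: Cheeger's inequality and the halfspaces (FIN)
-/

set_option autoImplicit false

namespace Pool.Agent.T2h31.SB.FIN

open MeasureTheory Set Filter Topology
open scoped ENNReal InnerProductSpace
open Pool.Agent.W695.KH (Eu EV VV Sm)

/-- the constant of Cheeger's inequality -/
noncomputable def B0 : ℝ := 4 * Real.sqrt (1 / 2)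

theorem B0_pos : 0 < B0 := by unfold B0; positivity

theorem bodl : Pool.Agent.R972.OP.S_BODL :=
  Pool.Agent.R310.OP2.Body.bodl Pool.Agent.R656.OP2.t_corl

/-- Cheeger's inequality at all levels -/
theorem che (h : S_PVE) (hg : S_TRG) (n : ℕ) (R : Lb n → Lb n → Prop) (hv : 0 < volume (SE R))
    (S : Set (Eu (Fin n))) (hS : MeasurableSet S) :
    un (SE R) S * (1 - un (SE R) S) ≤ ENNReal.ofReal B0 *
      liminf (fun ε : ℝ =>
        (un (SE R) (Metric.thickening ε S) - un (SE R) S) / ENNReal.ofReal ε) (𝓝[>] 0) := by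
  obtain ⟨-, -, hc, hco⟩ := hg n R
  refine Pool.Agent.W695.KH.mink (Fin n) (SE R) hc hco hv B0 B0_pos ?_ (un (SE R)) rfl S hS
  intro f L M hf hb
  exact bodl (Fin n) (SE R) hc hco hv (1 / 2) (by norm_num)
    (fun v hv1 => (h n R hv).1 v hv1) f L M hf hb

theorem sets (h : S_PVE) (hg : S_TRG) (n : ℕ) (R : Lb n → Lb n → Prop)
    (hi : (interior (SE R)).Nonempty) (S : Set (Eu (Fin n))) (hS : MeasurableSet S) :
    ENNReal.ofReal (1 / (2 * B0)) * min (un (SE R) S) (1 - un (SE R) S) ≤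
      liminf (fun ε : ℝ =>
        (un (SE R) (Metric.thickening ε S) - un (SE R) S) / ENNReal.ofReal ε) (𝓝[>] 0) := by
  have hv := Pool.Agent.R972.OP.vpos hi
  obtain ⟨-, -, hc, hco⟩ := hg n R
  have hprob : IsProbabilityMeasure (un (SE R)) := Pool.Agent.R972.OP.un_prob hc hv
  have hB := B0_pos
  have key := che h hg n R hv S hS
  obtain ⟨I, hI⟩ : ∃ I : ℝ≥0∞, I = liminf (fun ε : ℝ =>
    (un (SE R) (Metric.thickening ε S) - un (SE R) S) / ENNReal.ofReal ε) (𝓝[>] 0) := ⟨_, rfl⟩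
  rw [← hI] at key ⊢
  obtain ⟨a, ha⟩ : ∃ a : ℝ≥0∞, a = un (SE R) S := ⟨_, rfl⟩
  rw [← ha] at key ⊢
  have ha1 : a ≤ 1 := by rw [ha]; exact prob_le_one
  have hadd : a + (1 - a) = 1 := add_tsub_cancel_of_le ha1
  have hmin : min a (1 - a) ≤ 2 * (a * (1 - a)) := by
    rcases le_total a (1 - a) with h1 | h1
    · have h2 : 1 ≤ 2 * (1 - a) := by
        calc (1 : ℝ≥0∞) = a + (1 - a) := hadd.symm
          _ ≤ (1 - a) + (1 - a) := by gcongr
          _ = 2 * (1 - a) := (two_mul _).symm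
      calc min a (1 - a) ≤ a * 1 := by rw [mul_one]; exact min_le_left _ _
        _ ≤ a * (2 * (1 - a)) := by gcongr
        _ = _ := by ring
    · have h2 : 1 ≤ 2 * a := by
        calc (1 : ℝ≥0∞) = a + (1 - a) := hadd.symm
          _ ≤ a + a := by gcongr
          _ = 2 * a := (two_mul _).symm
      calc min a (1 - a) ≤ 1 * (1 - a) := by rw [one_mul]; exact min_le_right _ _
        _ ≤ 2 * a * (1 - a) := by gcongr
        _ = _ := by ring
  calc ENNReal.ofReal (1 / (2 * B0)) * min a (1 - a)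
      ≤ ENNReal.ofReal (1 / (2 * B0)) * (2 * (a * (1 - a))) := by gcongr
    _ ≤ ENNReal.ofReal (1 / (2 * B0)) * (2 * (ENNReal.ofReal B0 * I)) := by gcongr
    _ = (ENNReal.ofReal (1 / (2 * B0)) * ENNReal.ofReal 2 * ENNReal.ofReal B0) * I := by
        rw [ENNReal.ofReal_ofNat]
        ring
    _ = I := by
        rw [← ENNReal.ofReal_mul (by positivity), ← ENNReal.ofReal_mul (by positivity)]
        have : 1 / (2 * B0) * 2 * B0 = 1 := by
          field_simp
        rw [this, ENNReal.ofReal_one, one_mul]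

end Pool.Agent.T2h31.SB.FIN

namespace Pool.Agent.T2h31.SB

open MeasureTheory Set Filter Topology
open scoped ENNReal InnerProductSpace
open Pool.Agent.W695.KH (Eu EV VV Sm)

/-- Kannan, Lovasz, Simonovits -/
theorem t_FIN (h : S_PVE) (hg : S_TRG) : S_FIN := by
  obtain ⟨C, hC, HH⟩ := Pool.Agent.Y211.FF.half
  have hB := FIN.B0_pos
  obtain ⟨c1, hc1⟩ : ∃ c1 : ℝ, c1 = 1 / (2 * FIN.B0) := ⟨_, rfl⟩
  have hc1p : 0 < c1 := by rw [hc1]; positivity
  have h0 : 0 < Real.sqrt (63 * C) := by positivity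
  refine ⟨min c1 (c1 / Real.sqrt (63 * C)), lt_min hc1p (by positivity), ?_⟩
  intro n R hi
  have hv := Pool.Agent.R972.OP.vpos hi
  obtain ⟨-, -, hc, hco⟩ := hg n R
  have hprob : IsProbabilityMeasure (un (SE R)) := Pool.Agent.R972.OP.un_prob hc hv
  have hsets : ∀ S : Set (Eu (Fin n)), MeasurableSet S →
      ENNReal.ofReal c1 * min (un (SE R) S) (1 - un (SE R) S) ≤
      liminf (fun ε : ℝ =>
        (un (SE R) (Metric.thickening ε S) - un (SE R) S) / ENNReal.ofReal ε) (𝓝[>] 0) := by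
    intro S hS
    rw [hc1]
    exact FIN.sets h hg n R hi S hS
  refine ⟨fun S hS => ?_, fun hn => ?_⟩
  · refine le_trans ?_ (hsets S hS)
    exact mul_le_mul' (ENNReal.ofReal_le_ofReal (min_le_left _ _)) le_rfl
  obtain ⟨θ, hθ, hvar⟩ := (h n R hv).2 hn
  refine ⟨θ, hθ, fun t ht S hS => ?_⟩
  refine le_trans ?_ (hsets S hS)
  obtain ⟨m, hm⟩ := HH (Fin n) (SE R) hc hco hi (un (SE R)) rfl θ t hθ ht
  have hcont : Continuous fun x : Eu (Fin n) => (⟪θ, x⟫_ℝ - m) ^ 2 := by fun_prop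
  have hint : Integrable (fun x : Eu (Fin n) => (⟪θ, x⟫_ℝ - m) ^ 2) (un (SE R)) :=
    Pool.Agent.R972.OP.un_integrable hc hv _ hcont
  rw [← ofReal_integral_eq_lintegral_ofReal hint
    (Eventually.of_forall fun x => sq_nonneg _)] at hm
  have h3 : (1 / 63 : ℝ) ≤ ∫ x, (⟪θ, x⟫_ℝ - m) ^ 2 ∂(un (SE R)) := by
    have h4 : ProbabilityTheory.variance (fun x => ⟪x, θ⟫_ℝ - m) (un (SE R)) =
        ProbabilityTheory.variance (fun x => ⟪x, θ⟫_ℝ) (un (SE R)) :=
      ProbabilityTheory.variance_sub_const (by fun_prop) m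
    have h5 : ProbabilityTheory.variance (fun x => ⟪x, θ⟫_ℝ) (un (SE R)) =
        VV (SE R) fun x => ⟪x, θ⟫_ℝ := Pool.Agent.R972.OP.var_eq hc hv _ (by fun_prop)
    refine hvar.trans ?_
    rw [← h5, ← h4]
    refine (ProbabilityTheory.variance_le_expectation_sq (by fun_prop)).trans (le_of_eq ?_)
    refine integral_congr_ae (Eventually.of_forall fun x => ?_)
    simp only [Pi.pow_apply]
    rw [real_inner_comm]
  have h5 : t ^ 2 * ENNReal.ofReal (1 / 63) ≤ ENNReal.ofReal C :=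
    (mul_le_mul_right (ENNReal.ofReal_le_ofReal h3) _).trans hm
  have ht2 : t ^ 2 ≤ ENNReal.ofReal (63 * C) := by
    have e : ENNReal.ofReal (63 * C) = ENNReal.ofReal C * ENNReal.ofReal 63 := by
      rw [← ENNReal.ofReal_mul hC.le, mul_comm]
    rw [e]
    calc t ^ 2 = t ^ 2 * ENNReal.ofReal (1 / 63) * ENNReal.ofReal 63 := by
          rw [mul_assoc, ← ENNReal.ofReal_mul (by norm_num)]
          norm_num
      _ ≤ _ := mul_le_mul_left h5 _
  have ht3 : t ≤ ENNReal.ofReal (Real.sqrt (63 * C)) := by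
    have e : ENNReal.ofReal (63 * C) = ENNReal.ofReal (Real.sqrt (63 * C)) ^ 2 := by
      rw [← ENNReal.ofReal_pow (Real.sqrt_nonneg _), Real.sq_sqrt (by positivity)]
    rw [e] at ht2
    exact (ENNReal.pow_le_pow_left_iff two_ne_zero).1 ht2
  have h6 : ENNReal.ofReal (min c1 (c1 / Real.sqrt (63 * C))) * t ≤ ENNReal.ofReal c1 := by
    calc _ ≤ ENNReal.ofReal (c1 / Real.sqrt (63 * C)) *
          ENNReal.ofReal (Real.sqrt (63 * C)) :=
            mul_le_mul' (ENNReal.ofReal_le_ofReal (min_le_right _ _)) ht3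
      _ = ENNReal.ofReal c1 := by
          rw [← ENNReal.ofReal_mul (by positivity), div_mul_cancel₀ _ h0.ne']
  exact mul_le_mul' h6 le_rfl

end Pool.Agent.T2h31.SB
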