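import Pool.Agent.T2h31.SB.Stm

set_option autoImplicit false

namespace Pool.Agent.T2h31.SB.GEN

open Pool.Agent.T2h31.SB

/-- a position `2 m + 1 > 0` -/
theorem val_pos (m k : ℕ) : sg (2 * (k : ℤ) - 1) (2 * (k : ℤ) + 1) (2 * (m : ℤ) + 1) -
    (2 * (m : ℤ) + 1) = (if k = m + 1 then 2 else 0) + (if k = m then -2 else 0) := by
  unfold sg
  split_ifs <;> omega

/-- a position `- (2 m + 1) < 0` -/
theorem val_neg (m k : ℕ) : sg (2 * (k : ℤ) - 1) (2 * (k : ℤ) + 1) (-(2 * (m : ℤ) + 1)) -
    (-(2 * (m : ℤ) + 1)) = (if k = m + 1 then -2 else 0) + (if k = m then 2 else 0) := by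
  unfold sg
  split_ifs <;> omega

theorem sum_val (N m : ℕ) (hm : m < N) (c : ℝ) :
    ∑ k ∈ Finset.range N, cc N k * ((if k = m + 1 then c else 0) + (if k = m then -c else 0)) =
      -((2 * (m : ℝ) + 1) * c / 2) := by
  have h1 : ∑ k ∈ Finset.range N, cc N k * (if k = m then -c else 0) = cc N m * -c := by
    rw [Finset.sum_eq_single m]
    · rw [if_pos rfl]
    · intro b _ hb; rw [if_neg hb, mul_zero]
    · intro h; exact absurd (Finset.mem_range.2 hm) h
  have h2 : ∑ k ∈ Finset.range N, cc N k * (if k = m + 1 then c else 0) = cc N (m + 1) * c := by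
    rcases Nat.lt_or_ge (m + 1) N with h | h
    · rw [Finset.sum_eq_single (m + 1)]
      · rw [if_pos rfl]
      · intro b _ hb; rw [if_neg hb, mul_zero]
      · intro h'; exact absurd (Finset.mem_range.2 h) h'
    · have hN : N = m + 1 := by omega
      have h3 : cc N (m + 1) = 0 := by
        unfold cc
        rw [hN]
        simp
      rw [h3, zero_mul]
      apply Finset.sum_eq_zero
      intro b hb
      rw [if_neg (by have := Finset.mem_range.1 hb; omega), mul_zero]
  simp only [mul_add, Finset.sum_add_distrib]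
  rw [h1, h2]
  unfold cc
  push_cast
  ring

end Pool.Agent.T2h31.SB.GEN

namespace Pool.Agent.T2h31.SB

open Pool.Agent.T2h31.SB.GEN
open MeasureTheory Set Filter Topology

theorem t_GEN : S_GEN := by
  intro N z hz h1 h2
  obtain ⟨r, hr⟩ := hz
  rcases le_or_gt 0 r with h0 | h0
  · obtain ⟨m, rfl⟩ := Int.eq_ofNat_of_zero_le h0
    subst hr
    rw [Finset.sum_congr rfl fun k _ => by rw [val_pos m k]]
    have h3 := sum_val N m (by omega) 2
    push_cast
    rw [h3]
    ring
  · obtain ⟨m, hm⟩ := Int.eq_ofNat_of_zero_le (a := -r - 1) (by omega)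
    have hz' : z = -(2 * (m : ℤ) + 1) := by omega
    subst hz'
    rw [Finset.sum_congr rfl fun k _ => by rw [val_neg m k]]
    have h3 := sum_val N m (by omega) (-2)
    push_cast
    simp only [neg_neg] at h3
    rw [h3]
    ring


end Pool.Agent.T2h31.SB
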