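import Pool.Agent.T2h31.SB.Stm

set_option autoImplicit false

namespace Pool.Agent.T2h31.SB.MOM

open Pool.Agent.R972.OP (OPp)
open MeasureTheory Set Filter Topology ProbabilityTheory

/-- uniform measure on the unit interval -/
noncomputable def nu : Measure ℝ := (volume : Measure ℝ).restrict (Icc 0 1)

instance : IsProbabilityMeasure nu := ⟨by
  unfold nu
  rw [Measure.restrict_apply_univ, Real.volume_Icc]; simp⟩

theorem rest (n : ℕ) : (volume : Measure (Fin n → ℝ)).restrict (OPp (fun _ _ : Fin n => False))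
    = Measure.pi (fun _ => nu) := by
  have e : OPp (fun _ _ : Fin n => False) = univ.pi fun _ => Icc (0 : ℝ) 1 := by
    ext x
    rw [mem_univ_pi]
    exact ⟨fun h => h.1, fun h => ⟨h, fun _ _ h' => h'.elim⟩⟩
  rw [e, volume_pi, Measure.restrict_pi_pi]
  rfl

theorem mp (k : ℕ) : ∫ t, t ^ k ∂nu = 1 / (k + 1) := by
  unfold nu
  rw [integral_Icc_eq_integral_Ioc, ← intervalIntegral.integral_of_le zero_le_one, integral_pow]
  norm_num

theorem ip (k : ℕ) : Integrable (fun t : ℝ => t ^ k) nu := by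
  apply Integrable.of_bound (by fun_prop) 1
  unfold nu
  filter_upwards [ae_restrict_mem measurableSet_Icc] with t ht
  rw [Real.norm_eq_abs, abs_of_nonneg (pow_nonneg ht.1 _)]
  exact pow_le_one₀ ht.1 ht.2

theorem m8 : ∫ t, (t - t ^ 3) ^ 2 ∂nu = 8 / 105 := by
  have e : (fun t : ℝ => (t - t ^ 3) ^ 2) = fun t => t ^ 2 - 2 * t ^ 4 + t ^ 6 := by
    funext t; ring
  have h1 : Integrable (fun t : ℝ => t ^ 2 - 2 * t ^ 4) nu := (ip 2).sub ((ip 4).const_mul 2)
  have h2 : Integrable (fun t : ℝ => 2 * t ^ 4) nu := (ip 4).const_mul 2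
  rw [e, integral_add h1 (ip 6), integral_sub (ip 2) h2, integral_const_mul, mp, mp, mp]
  norm_num

theorem ig : Integrable (fun t : ℝ => (t - t ^ 3) ^ 2) nu := by
  have e : (fun t : ℝ => (t - t ^ 3) ^ 2) = fun t => t ^ 2 - 2 * t ^ 4 + t ^ 6 := by
    funext t; ring
  rw [e]
  exact ((ip 2).sub ((ip 4).const_mul 2)).add (ip 6)

theorem mid : MemLp (fun t : ℝ => 3 * t ^ 2 - 1) 2 nu := by
  apply MemLp.of_bound (by fun_prop) 2
  unfold nu
  filter_upwards [ae_restrict_mem measurableSet_Icc] with t ht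
  rw [Real.norm_eq_abs, abs_le]
  constructor <;> nlinarith [ht.1, ht.2]

theorem me : ∫ t, (3 * t ^ 2 - 1) ∂nu = 0 := by
  rw [integral_sub ((ip 2).const_mul 3) (integrable_const _), integral_const_mul, mp]
  simp
  norm_num

theorem var1 : Var[fun t : ℝ => 3 * t ^ 2 - 1; nu] = 4 / 5 := by
  rw [variance_eq_sub mid]
  simp only [Pi.pow_apply]
  rw [me]
  have e : (fun t : ℝ => (3 * t ^ 2 - 1) ^ 2) = fun t => 9 * t ^ 4 - 6 * t ^ 2 + t ^ 0 := by
    funext t; ring
  have h1 : Integrable (fun t : ℝ => 9 * t ^ 4) nu := (ip 4).const_mul 9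
  have h2 : Integrable (fun t : ℝ => 6 * t ^ 2) nu := (ip 2).const_mul 6
  have h3 : Integrable (fun t : ℝ => 9 * t ^ 4 - 6 * t ^ 2) nu := h1.sub h2
  rw [e, integral_add h3 (ip 0), integral_sub h1 h2, integral_const_mul, integral_const_mul,
    mp, mp, mp]
  norm_num

theorem mean (n : ℕ) : ∫ x : Fin n → ℝ, ∑ i, (3 * x i ^ 2 - 1) ∂(Measure.pi (fun _ => nu)) = 0 := by
  rw [integral_finsetSum]
  · refine Finset.sum_eq_zero fun i _ => ?_
    rw [integral_comp_eval (μ := fun _ : Fin n => nu) (i := i) (f := fun t => 3 * t ^ 2 - 1)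
        (by fun_prop)]
    exact me
  · intro i _
    have h := mid.integrable one_le_two
    exact integrable_comp_eval (μ := fun _ : Fin n => nu) (i := i) h

theorem mem (n : ℕ) : MemLp (∑ i : Fin n, fun x : Fin n → ℝ => 3 * x i ^ 2 - 1) 2 (Measure.pi (fun _ => nu)) := by
  apply memLp_finsetSum'
  intro i _
  exact mid.comp_measurePreserving (measurePreserving_eval (fun _ : Fin n => nu) i)

end Pool.Agent.T2h31.SB.MOM

namespace Pool.Agent.T2h31.SB

open Pool.Agent.T2h31.SB.MOM
open MeasureTheory Set Filter Topology ProbabilityTheory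

theorem t_MOM : S_MOM := by
  intro n
  rw [rest]
  constructor
  · rw [integral_finsetSum]
    · have h : ∀ i : Fin n, ∫ x : Fin n → ℝ, (x i - x i ^ 3) ^ 2 ∂(Measure.pi (fun _ => nu)) = 8 / 105 := by
        intro i
        rw [integral_comp_eval (μ := fun _ : Fin n => nu) (i := i) (f := fun t => (t - t ^ 3) ^ 2)
          (by fun_prop)]
        exact m8
      rw [Finset.sum_congr rfl (fun i _ => h i)]
      simp
      ring
    · intro i _
      exact integrable_comp_eval (μ := fun _ : Fin n => nu) (i := i) ig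
  · have e1 := mean n
    have h := variance_sum_pi (μ := fun _ : Fin n => nu) (X := fun _ t => 3 * t ^ 2 - 1) (fun _ => mid)
    have hv := variance_eq_sub (mem n)
    rw [h] at hv
    have e2 : ∑ i : Fin n, Var[fun t : ℝ => 3 * t ^ 2 - 1; nu] = 4 * (n : ℝ) / 5 := by
      rw [var1]; simp; ring
    rw [e2] at hv
    have e3 : ∫ x : Fin n → ℝ, (∑ i : Fin n, fun x : Fin n → ℝ => 3 * x i ^ 2 - 1) x ∂(Measure.pi (fun _ => nu))
        = 0 := by
      rw [← e1]
      apply integral_congr_ae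
      refine Eventually.of_forall fun x => ?_
      simp
    rw [e3] at hv
    have e4 : ∫ x : Fin n → ℝ, ((∑ i : Fin n, fun x : Fin n → ℝ => 3 * x i ^ 2 - 1) ^ 2) x
        ∂(Measure.pi (fun _ => nu)) =
        ∫ x : Fin n → ℝ, (∑ i : Fin n, (3 * x i ^ 2 - 1)) ^ 2 ∂(Measure.pi (fun _ => nu)) := by
      apply integral_congr_ae
      refine Eventually.of_forall fun x => ?_
      simp
    rw [e4] at hv
    linarith [hv]


end Pool.Agent.T2h31.SB
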