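import Pool.Agent.T2h31.SB.T_SGB

/-!
POS: positional inequalities for the exchanges.
-/

set_option autoImplicit false

namespace Pool.Agent.T2h31.SB

namespace POS

open SGB

theorem sg_spec (i j z : ℤ) : (z = i ∧ sg i j z = j) ∨ (z ≠ i ∧ z = j ∧ sg i j z = i) ∨
    (z ≠ i ∧ z ≠ j ∧ z = -i ∧ sg i j z = -j) ∨ (z ≠ i ∧ z ≠ j ∧ z ≠ -i ∧ z = -j ∧ sg i j z = -i) ∨
    (z ≠ i ∧ z ≠ j ∧ z ≠ -i ∧ z ≠ -j ∧ sg i j z = z) := by
  unfold sg
  split_ifs <;> omega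

theorem p5 (k : ℕ) (i j : ℤ) (hi : Odd i) (hj : Odd j) (h : i < j) :
    sg (2 * k - 1) (2 * k + 1) j ≤ sg (2 * k - 1) (2 * k + 1) i →
    (i = 2 * k - 1 ∧ j = 2 * k + 1) ∨ (i = -(2 * k + 1) ∧ j = -(2 * k - 1)) := by
  obtain ⟨a, rfl⟩ := hi
  obtain ⟨b, rfl⟩ := hj
  unfold sg
  split_ifs <;> omega

theorem p2 (k : ℕ) (z : ℤ) :
    sg (-(2 * k + 1)) (-(2 * k - 1)) z = sg (2 * k - 1) (2 * k + 1) z := by
  unfold sg
  split_ifs <;> omega

theorem p34 (k : ℕ) (i j : ℤ) (hi : Odd i) (hj : Odd j) (h : i < j) :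
   (sg i j (2 * k - 1) < sg i j (2 * k + 1) →
    ¬ (sg i j (2 * k - 1) = 2 * k - 1 ∧ sg i j (2 * k + 1) = 2 * k + 1) →
    ¬ (sg i j (2 * k - 1) = -(2 * k + 1) ∧ sg i j (2 * k + 1) = -(2 * k - 1)) →
    2 ≤ (sg (2 * k - 1) (2 * k + 1) j - j) - (sg (2 * k - 1) (2 * k + 1) i - i)) ∧
   ((sg i j (2 * k - 1) = 2 * k - 1 ∧ sg i j (2 * k + 1) = 2 * k + 1) ∨
    (sg i j (2 * k - 1) = -(2 * k + 1) ∧ sg i j (2 * k + 1) = -(2 * k - 1)) →
    0 ≤ (sg (2 * k - 1) (2 * k + 1) j - j) - (sg (2 * k - 1) (2 * k + 1) i - i)) := by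
  obtain ⟨a, rfl⟩ := hi
  obtain ⟨b, rfl⟩ := hj
  have e1 := sg_spec (2 * k - 1) (2 * k + 1) (2 * a + 1)
  have e2 := sg_spec (2 * k - 1) (2 * k + 1) (2 * b + 1)
  have e3 := sg_spec (2 * a + 1) (2 * b + 1) (2 * k - 1)
  have e4 := sg_spec (2 * a + 1) (2 * b + 1) (2 * k + 1)
  generalize sg (2 * k - 1) (2 * k + 1) (2 * a + 1) = w1 at *
  generalize sg (2 * k - 1) (2 * k + 1) (2 * b + 1) = w2 at *
  generalize sg (2 * a + 1) (2 * b + 1) (2 * k - 1) = w3 at *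
  generalize sg (2 * a + 1) (2 * b + 1) (2 * k + 1) = w4 at *
  rcases e1 with e1 | e1 | e1 | e1 | e1 <;> rcases e2 with e2 | e2 | e2 | e2 | e2 <;>
    try (exfalso; omega)
  all_goals rcases e3 with e3 | e3 | e3 | e3 | e3 <;> try (exfalso; omega)
  all_goals rcases e4 with e4 | e4 | e4 | e4 | e4 <;> try (exfalso; omega)
  all_goals omega

/-- conjugation of an exchange by an odd involution -/
theorem conj (t : ℤ → ℤ) (h1 : ∀ z, t (-z) = -t z) (h2 : ∀ z, t (t z) = z) (i j z : ℤ) :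
    t (sg i j z) = sg (t i) (t j) (t z) := by
  have inj : ∀ x y, t x = t y → x = y := fun x y h => by rw [← h2 x, h, h2 y]
  by_cases c1 : z = i
  · subst c1
    simp [sg]
  have c1' : t z ≠ t i := fun h => c1 (inj _ _ h)
  by_cases c2 : z = j
  · subst c2
    have e : sg i z z = i := by
      unfold sg
      rw [if_neg c1, if_pos rfl]
    have e' : sg (t i) (t z) (t z) = t i := by
      unfold sg
      rw [if_neg c1', if_pos rfl]
    rw [e, e']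
  have c2' : t z ≠ t j := fun h => c2 (inj _ _ h)
  by_cases c3 : z = -i
  · have c3' : t z = -t i := by rw [c3, h1]
    unfold sg
    rw [if_neg c1, if_neg c2, if_pos c3, if_neg c1', if_neg c2', if_pos c3', h1]
  have c3' : t z ≠ -t i := fun h => c3 (inj _ _ (by rw [h1]; exact h))
  by_cases c4 : z = -j
  · have c4' : t z = -t j := by rw [c4, h1]
    unfold sg
    rw [if_neg c1, if_neg c2, if_neg c3, if_pos c4, if_neg c1', if_neg c2', if_neg c3',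
      if_pos c4', h1]
  have c4' : t z ≠ -t j := fun h => c4 (inj _ _ (by rw [h1]; exact h))
  unfold sg
  rw [if_neg c1, if_neg c2, if_neg c3, if_neg c4, if_neg c1', if_neg c2', if_neg c3', if_neg c4']

end POS

open SGB POS in
theorem t_POS : S_POS := by
  intro k i j hi hj hij
  have a1 : (2 * (k : ℤ) - 1) ≠ 0 := by omega
  have a2 : (2 * (k : ℤ) + 1) ≠ 0 := by omega
  refine ⟨fun z => conj _ (fun z => sg_neg _ _ z a1 a2) (fun z => sg_inv _ _ z a1 a2) i j z,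
    fun h z => ?_, (p34 k i j hi hj hij).1, (p34 k i j hi hj hij).2, p5 k i j hi hj hij⟩
  rcases p5 k i j hi hj hij h with ⟨rfl, rfl⟩ | ⟨rfl, rfl⟩
  · rfl
  · exact p2 k z

end Pool.Agent.T2h31.SB
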