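import Pool.Agent.T2h31.SB.T_SGB

/-!
PT: the coupling, one exchange.
-/

set_option autoImplicit false

namespace Pool.Agent.T2h31.SB

open SGB in
theorem t_PT (hPOS : S_POS) : S_PT := by
  obtain ⟨-, -, -, sgb⟩ := t_SGB
  intro n N R F M hM hL s hs i j hi hj h1 hij h2 hs' hD k hk
  have a1 : (2 * (k : ℤ) - 1) ≠ 0 := by omega
  have a2 : (2 * (k : ℤ) + 1) ≠ 0 := by omega
  have o1 : Odd (2 * (k : ℤ) - 1) := ⟨k - 1, by ring⟩
  have o2 : Odd (2 * (k : ℤ) + 1) := ⟨k, by ring⟩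
  have r1 : -(2 * (N : ℤ)) < 2 * (k : ℤ) - 1 := by omega
  have r2 : 2 * (k : ℤ) - 1 < 2 * (N : ℤ) := by omega
  have r3 : -(2 * (N : ℤ)) < 2 * (k : ℤ) + 1 := by omega
  have r4 : 2 * (k : ℤ) + 1 < 2 * (N : ℤ) := by omega
  have hi0 := ne_zero_of_odd hi
  have hj0 := ne_zero_of_odd hj
  have hc : 0 ≤ cc N k := by
    unfold cc
    have : (k : ℝ) ≤ N := by exact_mod_cast hk.le
    have h0 : (0 : ℝ) ≤ k := Nat.cast_nonneg k
    nlinarith
  obtain ⟨q1, q2, q3, q4, -⟩ := hPOS k i j hi hj hij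
  -- facts on the moves
  obtain ⟨m1, m1'⟩ := sgb n N R s _ _ o1 o2 r1 r2 r3 r4 hs
  obtain ⟨m2, m2'⟩ := sgb n N R (mv i j s) _ _ o1 o2 r1 r2 r3 r4 hs'
  obtain ⟨m3, m3'⟩ := sgb n N R s i j hi hj h1 (by omega) (by omega) h2 hs
  have hsv : ∀ p, Odd (sv s p) := by
    intro p
    obtain ⟨ha, -, -⟩ := mem_cfg.1 hs
    unfold sv
    split_ifs
    · exact (ha _).2.2
    · exact (ha _).2.2.neg
  have hsv' : ∀ p, Odd (sv (mv i j s) p) := by
    intro p
    obtain ⟨ha, -, -⟩ := mem_cfg.1 hs'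
    unfold sv
    split_ifs
    · exact (ha _).2.2
    · exact (ha _).2.2.neg
  have rs := (mem_cfg.1 hs).2.2
  have rs' := (mem_cfg.1 hs').2.2
  -- bounds for one move
  have e2 : ((2 * (k : ℤ) + 1 : ℤ) : ℝ) - ((2 * (k : ℤ) - 1 : ℤ) : ℝ) = 2 := by push_cast; ring
  have one_t : sm k (mv i j s) ∈ cfg N R →
      cc N k * (F (sm k (mv i j s)) - F (mv i j s)) ≤ M * (cc N k * 2) := by
    intro h
    have h4 := (abs_le.mp (hL _ hs' _ _ o1 o2 r1 (by omega) r4 h)).2
    rw [e2] at h4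
    have := mul_le_mul_of_nonneg_left h4 hc
    unfold sm
    nlinarith
  have one_s : sm k s ∈ cfg N R →
      -(cc N k * (F (sm k s) - F s)) ≤ M * (cc N k * 2) := by
    intro h
    have h4 := (abs_le.mp (hL _ hs _ _ o1 o2 r1 (by omega) r4 h)).1
    rw [e2] at h4
    have := mul_le_mul_of_nonneg_left h4 hc
    unfold sm
    nlinarith
  by_cases hu : sm k s ∈ cfg N R
  · by_cases hu' : sm k (mv i j s) ∈ cfg N R
    · -- both admissible
      have key : F (sm k (mv i j s)) - F (sm k s) ≤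
          M * (((sg (2 * (k : ℤ) - 1) (2 * (k : ℤ) + 1) j : ℤ) : ℝ) -
            ((sg (2 * (k : ℤ) - 1) (2 * (k : ℤ) + 1) i : ℤ) : ℝ)) := by
        rcases lt_or_ge (sg (2 * (k : ℤ) - 1) (2 * (k : ℤ) + 1) i)
          (sg (2 * (k : ℤ) - 1) (2 * (k : ℤ) + 1) j) with hlt | hge
        · have e : sm k (mv i j s) = mv (sg (2 * (k : ℤ) - 1) (2 * (k : ℤ) + 1) i)
              (sg (2 * (k : ℤ) - 1) (2 * (k : ℤ) + 1) j) (sm k s) := by
            funext a
            exact q1 (s a)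
          obtain ⟨b1, b2, b3⟩ := sg_range N _ _ i o1 o2 r1 r2 r3 r4 hi h1 (by omega)
          obtain ⟨c1, c2, c3⟩ := sg_range N _ _ j o1 o2 r1 r2 r3 r4 hj (by omega) h2
          have h4 := (abs_le.mp (hL _ hu _ _ b1 c1 b2 hlt c3 (e ▸ hu'))).2
          rw [← e] at h4
          exact h4
        · have e := q2 hge
          have e1 : mv i j s = sm k s := by
            funext a
            exact e (s a)
          have e3 : sm k (mv i j s) = s := by
            rw [e1]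
            funext a
            exact sg_inv _ _ _ a1 a2
          have e4 : sg (2 * (k : ℤ) - 1) (2 * (k : ℤ) + 1) i = j := by
            rw [← e]
            simp [sg]
          have e5 : sg (2 * (k : ℤ) - 1) (2 * (k : ℤ) + 1) j = i := by
            rw [← e]
            unfold sg
            rw [if_neg (by omega), if_pos rfl]
          rw [e3, e4, e5, ← e1]
          linarith
      unfold tt
      rw [if_pos hu, if_pos hu']
      have h6 : cc N k * ((F (sm k (mv i j s)) - F (sm k s)) - (F (mv i j s) - F s)) ≤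
          cc N k * (M * (((sg (2 * (k : ℤ) - 1) (2 * (k : ℤ) + 1) j : ℤ) : ℝ) -
            ((sg (2 * (k : ℤ) - 1) (2 * (k : ℤ) + 1) i : ℤ) : ℝ)) - M * ((j : ℝ) - i)) :=
        mul_le_mul_of_nonneg_left (by rw [hD]; linarith) hc
      push_cast
      linarith
    · -- u' is not admissible
      rw [show sm k (mv i j s) = mv (2 * (k : ℤ) - 1) (2 * (k : ℤ) + 1) (mv i j s) from rfl,
        m2] at hu'
      push Not at hu'
      obtain ⟨p, q, hpq, hle⟩ := hu'
      obtain ⟨-, -, -, -, q5⟩ := hPOS k _ _ (hsv' p) (hsv' q) (rs' p q hpq)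
      have ep : sv s p = sg i j (sv (mv i j s) p) := by rw [m3', sg_inv _ _ _ hi0 hj0]
      have eq : sv s q = sg i j (sv (mv i j s) q) := by rw [m3', sg_inv _ _ _ hi0 hj0]
      have hlt := rs p q hpq
      have hσ : sg i j (2 * (k : ℤ) - 1) < sg i j (2 * (k : ℤ) + 1) := by
        rcases q5 hle with ⟨g1, g2⟩ | ⟨g1, g2⟩
        · rw [ep, eq, g1, g2] at hlt
          exact hlt
        · rw [ep, eq, g1, g2, sg_neg _ _ _ hi0 hj0, sg_neg _ _ _ hi0 hj0] at hlt
          omega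
      by_cases hB : (sg i j (2 * k - 1) = 2 * k - 1 ∧ sg i j (2 * k + 1) = 2 * k + 1) ∨
          (sg i j (2 * k - 1) = -(2 * k + 1) ∧ sg i j (2 * k + 1) = -(2 * k - 1))
      · exfalso
        have hall := (m1.1 hu) p q hpq
        have t1 : sg (2 * (k : ℤ) - 1) (2 * (k : ℤ) + 1) (2 * (k : ℤ) - 1) = 2 * (k : ℤ) + 1 := by
          simp [sg]
        have t2 : sg (2 * (k : ℤ) - 1) (2 * (k : ℤ) + 1) (2 * (k : ℤ) + 1) = 2 * (k : ℤ) - 1 := by
          unfold sg
          rw [if_neg (by omega), if_pos rfl]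
        rw [ep, eq] at hall
        rcases q5 hle with ⟨g1, g2⟩ | ⟨g1, g2⟩ <;> rcases hB with ⟨g3, g4⟩ | ⟨g3, g4⟩ <;>
          simp only [g1, g2, g3, g4, sg_neg _ _ _ hi0 hj0, sg_neg _ _ _ a1 a2, neg_neg, t1, t2]
            at hall <;> omega
      · push Not at hB
        have h7 := q3 hσ (fun h => absurd h.2 (hB.1 h.1)) (fun h => absurd h.2 (hB.2 h.1))
        have h8 : (2 : ℝ) ≤ (((sg (2 * (k : ℤ) - 1) (2 * (k : ℤ) + 1) j - j) -
          (sg (2 * (k : ℤ) - 1) (2 * (k : ℤ) + 1) i - i) : ℤ) : ℝ) := by exact_mod_cast h7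
        have h9 := mul_le_mul_of_nonneg_left (mul_le_mul_of_nonneg_left h8 hc) hM
        have h10 := one_s hu
        unfold tt
        rw [if_pos hu]
        have hu2 : ¬ sm k (mv i j s) ∈ cfg N R := by
          rw [show sm k (mv i j s) = mv (2 * (k : ℤ) - 1) (2 * (k : ℤ) + 1) (mv i j s) from rfl, m2]
          intro h
          exact absurd (h p q hpq) (not_lt.2 hle)
        rw [if_neg hu2]
        linarith
  · -- u is not admissible
    have hu0 := hu
    rw [show sm k s = mv (2 * (k : ℤ) - 1) (2 * (k : ℤ) + 1) s from rfl, m1] at hu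
    push Not at hu
    obtain ⟨p, q, hpq, hle⟩ := hu
    obtain ⟨-, -, -, -, q5⟩ := hPOS k _ _ (hsv p) (hsv q) (rs p q hpq)
    have ep : sv (mv i j s) p = sg i j (sv s p) := m3' p
    have eq : sv (mv i j s) q = sg i j (sv s q) := m3' q
    have hlt := rs' p q hpq
    have hσ : sg i j (2 * (k : ℤ) - 1) < sg i j (2 * (k : ℤ) + 1) := by
      rcases q5 hle with ⟨g1, g2⟩ | ⟨g1, g2⟩
      · rw [ep, eq, g1, g2] at hlt
        exact hlt
      · rw [ep, eq, g1, g2, sg_neg _ _ _ hi0 hj0, sg_neg _ _ _ hi0 hj0] at hlt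
        omega
    by_cases hB : (sg i j (2 * k - 1) = 2 * k - 1 ∧ sg i j (2 * k + 1) = 2 * k + 1) ∨
        (sg i j (2 * k - 1) = -(2 * k + 1) ∧ sg i j (2 * k + 1) = -(2 * k - 1))
    · have hu2 : ¬ sm k (mv i j s) ∈ cfg N R := by
        rw [show sm k (mv i j s) = mv (2 * (k : ℤ) - 1) (2 * (k : ℤ) + 1) (mv i j s) from rfl, m2]
        intro h
        have hall := h p q hpq
        have t1 : sg (2 * (k : ℤ) - 1) (2 * (k : ℤ) + 1) (2 * (k : ℤ) - 1) = 2 * (k : ℤ) + 1 := by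
          simp [sg]
        have t2 : sg (2 * (k : ℤ) - 1) (2 * (k : ℤ) + 1) (2 * (k : ℤ) + 1) = 2 * (k : ℤ) - 1 := by
          unfold sg
          rw [if_neg (by omega), if_pos rfl]
        rw [ep, eq] at hall
        rcases q5 hle with ⟨g1, g2⟩ | ⟨g1, g2⟩ <;> rcases hB with ⟨g3, g4⟩ | ⟨g3, g4⟩ <;>
          simp only [g1, g2, g3, g4, sg_neg _ _ _ hi0 hj0, sg_neg _ _ _ a1 a2, neg_neg, t1, t2]
            at hall <;> omega
      have h7 := q4 hB
      have h8 : (0 : ℝ) ≤ (((sg (2 * (k : ℤ) - 1) (2 * (k : ℤ) + 1) j - j) -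
        (sg (2 * (k : ℤ) - 1) (2 * (k : ℤ) + 1) i - i) : ℤ) : ℝ) := by exact_mod_cast h7
      have h9 := mul_nonneg hM (mul_nonneg hc h8)
      unfold tt
      rw [if_neg hu0, if_neg hu2]
      linarith
    · push Not at hB
      have h7 := q3 hσ (fun h => absurd h.2 (hB.1 h.1)) (fun h => absurd h.2 (hB.2 h.1))
      have h8 : (2 : ℝ) ≤ (((sg (2 * (k : ℤ) - 1) (2 * (k : ℤ) + 1) j - j) -
        (sg (2 * (k : ℤ) - 1) (2 * (k : ℤ) + 1) i - i) : ℤ) : ℝ) := by exact_mod_cast h7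
      have h9 := mul_le_mul_of_nonneg_left (mul_le_mul_of_nonneg_left h8 hc) hM
      unfold tt
      rw [if_neg hu0]
      by_cases hu' : sm k (mv i j s) ∈ cfg N R
      · have h10 := one_t hu'
        rw [if_pos hu']
        linarith
      · rw [if_neg hu']
        have h10 := mul_nonneg hM (mul_nonneg hc (show (0 : ℝ) ≤ 2 by norm_num))
        linarith

end Pool.Agent.T2h31.SB
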