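import Pool.Agent.T2h31.SB.Stm

/-! SB-PVE: Poincare's inequality and the variance in Euclidean space (project SB of helper31;
adapted from `Pool.Agent.R711.POBE`). -/

set_option autoImplicit false

namespace Pool.Agent.T2h31.SB.PVE

open MeasureTheory Set Filter Topology
open scoped ENNReal InnerProductSpace
open Pool.Agent.W695.KH (Eu EV VV)
open Pool.Agent.T2h31.SB

theorem norm_sq_functional {n : ℕ} (φ : Eu (Fin n) →L[ℝ] ℝ) :
    ‖φ‖ ^ 2 = ∑ a, φ (EuclideanSpace.single a 1) ^ 2 := by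
  set y := (InnerProductSpace.toDual ℝ (Eu (Fin n))).symm φ with hy
  have h1 : ∀ x, φ x = ⟪y, x⟫_ℝ := fun x => by
    rw [hy, InnerProductSpace.toDual_symm_apply]
  have h2 : ‖φ‖ = ‖y‖ := by rw [hy, LinearIsometryEquiv.norm_map]
  rw [h2, EuclideanSpace.real_norm_sq_eq]
  refine Finset.sum_congr rfl fun a _ => ?_
  rw [h1, EuclideanSpace.inner_single_right]
  simp

/-- the linear equivalence -/
noncomputable def L (n : ℕ) : (Fin n → ℝ) ≃L[ℝ] Eu (Fin n) :=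
  (PiLp.continuousLinearEquiv 2 ℝ (fun _ : Fin n => ℝ)).symm

theorem L_apply (n : ℕ) (x : Fin n → ℝ) : L n x = WithLp.toLp 2 x := rfl

theorem sum_pd {n : ℕ} (f : Eu (Fin n) → ℝ) (x : Fin n → ℝ) :
    ∑ a, pd (f ∘ L n) a x ^ 2 = ‖fderiv ℝ f (WithLp.toLp 2 x)‖ ^ 2 := by
  rw [norm_sq_functional]
  refine Finset.sum_congr rfl fun a _ => ?_
  rw [pd, ContinuousLinearEquiv.comp_right_fderiv]
  rfl

end Pool.Agent.T2h31.SB.PVE

namespace Pool.Agent.T2h31.SB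

open MeasureTheory Set Filter Topology
open scoped ENNReal InnerProductSpace
open Pool.Agent.W695.KH (Eu EV VV)
open PVE

theorem t_PVE (h1 : S_POI) (h0 : S_VAR) (h2 : S_TRG) : S_PVE := by
  intro n R hvol
  refine ⟨fun f hf => ?_, fun hn => ?_⟩
  · let R' : Lb n → Lb n → Prop := fun a b => R a b ∧ a ≠ b
    have hOE : SE R = SE R' := by
      ext x
      constructor
      · rintro ⟨h3, h4⟩
        exact ⟨h3, fun i j hij => h4 i j hij.1⟩
      · rintro ⟨h3, h4⟩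
        refine ⟨h3, fun i j hij => ?_⟩
        by_cases h : i = j
        · rw [h]
        · exact h4 i j ⟨hij, h⟩
    rw [hOE]
    obtain ⟨hv, hG, -, -⟩ := h2 n R'
    have hF : ContDiff ℝ 1 (f ∘ L n) := hf.comp (L n).contDiff
    have h3 := h1 n R' (fun a h => h.2 rfl) (f ∘ L n) hF
    have e1 : ∫ x in SE R', f x = ∫ x in SK R', (f ∘ L n) x := hG f
    have e2 : ∫ x in SE R', f x ^ 2 = ∫ x in SK R', (f ∘ L n) x ^ 2 := hG fun x => f x ^ 2
    have e3 : ∫ x in SE R', ‖fderiv ℝ f x‖ ^ 2 = ∫ x in SK R', ∑ a, pd (f ∘ L n) a x ^ 2 := by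
      rw [hG fun x => ‖fderiv ℝ f x‖ ^ 2]
      simp only [sum_pd]
    rw [← hv, ← e1, ← e2, ← e3] at h3
    simp only [VV, EV]
    set v : ℝ := (volume (SE R')).toReal with hvdef
    have hv0 : 0 ≤ v := ENNReal.toReal_nonneg
    rcases hv0.eq_or_lt with h0 | h0
    · rw [← h0]
      simp
    · have h4 : (∫ x in SE R', f x ^ 2) / v - ((∫ x in SE R', f x) / v) ^ 2 =
          (v * (∫ x in SE R', f x ^ 2) - (∫ x in SE R', f x) ^ 2) / v ^ 2 := by
        field_simp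
      have h5 : 1 / 2 * ((∫ x in SE R', ‖fderiv ℝ f x‖ ^ 2) / v) =
          (v * (1 / 2 * ∫ x in SE R', ‖fderiv ℝ f x‖ ^ 2)) / v ^ 2 := by
        field_simp
      rw [h4, h5]
      exact div_le_div_of_nonneg_right h3 (by positivity)
  · obtain ⟨hv, hG, hcomp, -⟩ := h2 n R
    obtain ⟨u, hu1, hu2⟩ := h0 n R hn (hv ▸ hvol)
    refine ⟨WithLp.toLp 2 u, ?_, ?_⟩
    · have h3 : ‖WithLp.toLp 2 u‖ ^ 2 = 1 := by
        rw [EuclideanSpace.real_norm_sq_eq]
        exact hu1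
      have h4 := norm_nonneg (WithLp.toLp 2 u)
      nlinarith
    · have hinner : ∀ x : Fin n → ℝ,
          ⟪WithLp.toLp 2 x, (WithLp.toLp 2 u : Eu (Fin n))⟫_ℝ = ∑ i, u i * x i := by
        intro x
        rw [PiLp.inner_apply]
        simp
      have e1 : ∫ x in SE R, ⟪x, (WithLp.toLp 2 u : Eu (Fin n))⟫_ℝ =
          ∫ x in SK R, ∑ i, u i * x i := by
        rw [hG fun x => ⟪x, (WithLp.toLp 2 u : Eu (Fin n))⟫_ℝ]
        simp only [hinner]
      have e2 : ∫ x in SE R, ⟪x, (WithLp.toLp 2 u : Eu (Fin n))⟫_ℝ ^ 2 =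
          ∫ x in SK R, (∑ i, u i * x i) ^ 2 := by
        rw [hG fun x => ⟪x, (WithLp.toLp 2 u : Eu (Fin n))⟫_ℝ ^ 2]
        simp only [hinner]
      rw [← hv, ← e1, ← e2] at hu2
      simp only [VV, EV]
      set v : ℝ := (volume (SE R)).toReal with hvdef
      have h0 : 0 < v := ENNReal.toReal_pos hvol.ne' hcomp.measure_lt_top.ne
      have h4 : (∫ x in SE R, ⟪x, (WithLp.toLp 2 u : Eu (Fin n))⟫_ℝ ^ 2) / v -
          ((∫ x in SE R, ⟪x, (WithLp.toLp 2 u : Eu (Fin n))⟫_ℝ) / v) ^ 2 =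
          (v * (∫ x in SE R, ⟪x, (WithLp.toLp 2 u : Eu (Fin n))⟫_ℝ ^ 2) -
            (∫ x in SE R, ⟪x, (WithLp.toLp 2 u : Eu (Fin n))⟫_ℝ) ^ 2) / v ^ 2 := by
        field_simp
      rw [h4, le_div_iff₀ (by positivity)]
      exact hu2

end Pool.Agent.T2h31.SB
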