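import Pool.Agent.T2h31.SB.Stm
import Pool.Agent.R364.OP.RS

/-!
# SB-RS: Riemann sums over admissible placements (helper25, for project SB of helper31)
-/

set_option autoImplicit false

namespace Pool.Agent.T2h31.SB.RS

open MeasureTheory Set Filter Topology
open Pool.Agent.T2h31.SB
open Pool.Agent.R364.OP (null_eq null_const)

variable {n : ℕ}

/-- centres of the cells -/
noncomputable def fl (N : ℕ) (x : Fin n → ℝ) : Fin n → ℤ := fun a => 2 * ⌊x a * N⌋ + 1

/-- cell of a lattice point -/
def cell (N : ℕ) (g : Fin n → ℤ) : Set (Fin n → ℝ) :=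
  Set.pi univ fun a => Ico (((g a : ℝ) - 1) / (2 * N)) (((g a : ℝ) + 1) / (2 * N))

theorem mem_cell {N : ℕ} (hN : 0 < N) {g : Fin n → ℤ} (hg : ∀ a, Odd (g a)) (x : Fin n → ℝ) :
    x ∈ cell N g ↔ fl N x = g := by
  have hN' : (0 : ℝ) < N := by exact_mod_cast hN
  have key : ∀ a, x a ∈ Ico (((g a : ℝ) - 1) / (2 * N)) (((g a : ℝ) + 1) / (2 * N)) ↔
      2 * ⌊x a * N⌋ + 1 = g a := by
    intro a
    obtain ⟨m, hm⟩ := hg a
    rw [hm, mem_Ico, div_le_iff₀ (by positivity), lt_div_iff₀ (by positivity)]
    have : (2 * ⌊x a * N⌋ + 1 = 2 * m + 1) ↔ ⌊x a * N⌋ = m := by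
      constructor <;> intro h <;> omega
    rw [this, Int.floor_eq_iff]
    push_cast
    constructor
    · rintro ⟨h1, h2⟩
      constructor <;> nlinarith
    · rintro ⟨h1, h2⟩
      constructor <;> nlinarith
  constructor
  · intro h
    exact funext fun a => (key a).1 (h a (mem_univ a))
  · intro h1 a _
    exact (key a).2 (congrFun h1 a)

theorem measurableSet_cell (N : ℕ) (g : Fin n → ℤ) : MeasurableSet (cell N g) :=
  MeasurableSet.univ_pi fun _ => measurableSet_Ico

theorem volume_cell {N : ℕ} (hN : 0 < N) (g : Fin n → ℤ) :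
    (volume : Measure (Fin n → ℝ)).real (cell N g) = 1 / (N : ℝ) ^ n := by
  have hN' : (0 : ℝ) < N := by exact_mod_cast hN
  unfold cell
  rw [Measure.real, Real.volume_pi_Ico]
  have : ∀ a, (((g a : ℝ) + 1) / (2 * N)) - (((g a : ℝ) - 1) / (2 * N)) = 1 / N := by
    intro a; field_simp; ring
  simp only [this]
  rw [Finset.prod_const, Finset.card_univ, Fintype.card_fin, ENNReal.toReal_pow,
    ENNReal.toReal_ofReal (by positivity)]
  rw [div_pow, one_pow]

open Classical in
/-- step function -/
noncomputable def hh (R : Lb n → Lb n → Prop) (G : (Fin n → ℝ) → ℝ) (N : ℕ)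
    (x : Fin n → ℝ) : ℝ :=
  if fl N x ∈ cfg N R then G (lp N (fl N x)) else 0

theorem hh_eq (R : Lb n → Lb n → Prop) (G : (Fin n → ℝ) → ℝ) {N : ℕ} (hN : 0 < N)
    (x : Fin n → ℝ) :
    hh R G N x = ∑ g ∈ cfg N R, (cell N g).indicator (fun _ => G (lp N g)) x := by
  classical
  unfold hh
  have : ∀ g ∈ cfg N R, (cell N g).indicator (fun _ => G (lp N g)) x =
      if fl N x = g then G (lp N g) else 0 := by
    intro g hg
    have hodd : ∀ a, Odd (g a) := fun a => ((mem_cfg.1 hg).1 a).2.2
    by_cases h : fl N x = g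
    · rw [if_pos h, indicator_of_mem ((mem_cell hN hodd x).2 h)]
    · rw [if_neg h, indicator_of_notMem]
      intro hx
      exact h ((mem_cell hN hodd x).1 hx)
  rw [Finset.sum_congr rfl this, Finset.sum_ite_eq]

theorem integral_hh (R : Lb n → Lb n → Prop) (G : (Fin n → ℝ) → ℝ) {N : ℕ} (hN : 0 < N) :
    ∫ x, hh R G N x = (∑ g ∈ cfg N R, G (lp N g)) / (N : ℝ) ^ n := by
  have : ∀ x, hh R G N x = ∑ g ∈ cfg N R, (cell N g).indicator (fun _ => G (lp N g)) x :=
    hh_eq R G hN
  simp only [this]
  have hfin : ∀ g : Fin n → ℤ, volume (cell N g) ≠ ⊤ := by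
    intro g
    unfold cell
    rw [Real.volume_pi_Ico]
    exact ENNReal.prod_ne_top fun a _ => ENNReal.ofReal_ne_top
  rw [integral_finsetSum]
  · rw [Finset.sum_div]
    apply Finset.sum_congr rfl
    intro g _
    rw [integral_indicator_const _ (measurableSet_cell N g), volume_cell hN, smul_eq_mul]
    ring
  · intro g _
    rw [integrable_indicator_iff (measurableSet_cell N g)]
    exact integrableOn_const (hfin g)

theorem null_neg {a b : Fin n} (hab : a ≠ b) :
    (volume : Measure (Fin n → ℝ)) {x | x a = -x b} = 0 := by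
  have h := Measure.addHaar_submodule (volume : Measure (Fin n → ℝ))
    (LinearMap.ker (LinearMap.proj (R := ℝ) (φ := fun _ : Fin n => ℝ) a + LinearMap.proj b)) (by
      intro h
      have h2 : (Pi.single a (1 : ℝ) : Fin n → ℝ) ∈ LinearMap.ker
        (LinearMap.proj (R := ℝ) (φ := fun _ : Fin n => ℝ) a + LinearMap.proj b) := by
        rw [h]; trivial
      rw [LinearMap.mem_ker] at h2
      simp [hab.symm] at h2)
  convert h using 2
  ext x
  simp [eq_neg_iff_add_eq_zero]

theorem ae_good : ∀ᵐ x : Fin n → ℝ, (∀ a b, a ≠ b → x a ≠ x b) ∧ (∀ a b, a ≠ b → x a ≠ -x b) ∧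
    (∀ a, x a ≠ 1) ∧ ∀ a, x a ≠ 0 := by
  have h1 : ∀ᵐ x : Fin n → ℝ, ∀ a b, a ≠ b → x a ≠ x b := by
    rw [ae_all_iff]; intro a
    rw [ae_all_iff]; intro b
    by_cases hab : a = b
    · exact Eventually.of_forall fun x h => absurd hab h
    · have := null_eq (n := n) hab
      rw [ae_iff]
      refine measure_mono_null ?_ this
      intro x hx
      simp only [mem_ofPred_eq, Classical.not_imp, not_not] at hx
      exact hx.2
  have h2 : ∀ᵐ x : Fin n → ℝ, ∀ a b, a ≠ b → x a ≠ -x b := by
    rw [ae_all_iff]; intro a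
    rw [ae_all_iff]; intro b
    by_cases hab : a = b
    · exact Eventually.of_forall fun x h => absurd hab h
    · have := null_neg (n := n) hab
      rw [ae_iff]
      refine measure_mono_null ?_ this
      intro x hx
      simp only [mem_ofPred_eq, Classical.not_imp, not_not] at hx
      exact hx.2
  have h3 : ∀ c : ℝ, ∀ᵐ x : Fin n → ℝ, ∀ a, x a ≠ c := by
    intro c
    rw [ae_all_iff]
    intro a
    rw [ae_iff]
    refine measure_mono_null ?_ (null_const (n := n) a c)
    intro x hx
    simpa using hx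
  filter_upwards [h1, h2, h3 1, h3 0] with x ha hb hc hd
  exact ⟨ha, hb, hc, hd⟩

/-- the centre of the cell is near the point -/
theorem near (N : ℕ) (x : Fin n → ℝ) (p : Lb n) :
    ((sv (fl N x) p : ℤ) : ℝ) ≤ 2 * N * sv x p + 1 ∧
      2 * N * sv x p ≤ ((sv (fl N x) p : ℤ) : ℝ) + 1 := by
  have h1 := Int.floor_le (x p.1 * N)
  have h2 := Int.lt_floor_add_one (x p.1 * N)
  unfold sv fl
  split_ifs
  · push_cast
    constructor <;> nlinarith
  · push_cast
    constructor <;> nlinarith

theorem ev_lt (x : Fin n → ℝ) : ∀ᶠ N : ℕ in atTop, ∀ p q : Lb n, sv x p < sv x q →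
    sv (fl N x) p < sv (fl N x) q := by
  rw [eventually_all]; intro p
  rw [eventually_all]; intro q
  by_cases hpq : sv x p < sv x q
  · have hd : 0 < sv x q - sv x p := sub_pos.2 hpq
    obtain ⟨m, hm⟩ := exists_nat_gt (1 / (sv x q - sv x p))
    filter_upwards [eventually_ge_atTop m] with N hN _
    have h1 : 1 / (sv x q - sv x p) < N := lt_of_lt_of_le hm (by exact_mod_cast hN)
    have h2 : 1 < (sv x q - sv x p) * N := by
      rw [div_lt_iff₀ hd] at h1; linarith [mul_comm (N : ℝ) (sv x q - sv x p)]
    have hp := (near N x p).1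
    have hq := (near N x q).2
    have : ((sv (fl N x) p : ℤ) : ℝ) < ((sv (fl N x) q : ℤ) : ℝ) := by nlinarith
    exact_mod_cast this
  · exact Eventually.of_forall fun N h => absurd h hpq

theorem lp_fl_tendsto (x : Fin n → ℝ) :
    Tendsto (fun N : ℕ => lp N (fl N x)) atTop (𝓝 x) := by
  rw [tendsto_pi_nhds]
  intro a
  rw [tendsto_iff_norm_sub_tendsto_zero]
  refine squeeze_zero' (Eventually.of_forall fun _ => norm_nonneg _) ?_
    (tendsto_one_div_atTop_nhds_zero_nat (𝕜 := ℝ))
  filter_upwards [eventually_gt_atTop 0] with N hN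
  have hN' : (0 : ℝ) < N := by exact_mod_cast hN
  have h := near N x (a, true)
  have h1 : ((fl N x a : ℤ) : ℝ) ≤ 2 * N * x a + 1 := by simpa [sv] using h.1
  have h2 : 2 * N * x a ≤ ((fl N x a : ℤ) : ℝ) + 1 := by simpa [sv] using h.2
  show ‖((fl N x a : ℤ) : ℝ) / (2 * N) - x a‖ ≤ 1 / N
  rw [Real.norm_eq_abs, abs_le]
  have e : ((fl N x a : ℤ) : ℝ) / (2 * N) - x a = (((fl N x a : ℤ) : ℝ) - 2 * N * x a) / (2 * N) := by
    field_simp
  rw [e]
  constructor
  · rw [le_div_iff₀ (by positivity)]
    have : -(1 / (N : ℝ)) * (2 * N) = -2 := by field_simp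
    rw [this]
    linarith
  · rw [div_le_iff₀ (by positivity)]
    have : 1 / (N : ℝ) * (2 * N) = 2 := by field_simp
    rw [this]
    linarith

theorem odd_fl (N : ℕ) (x : Fin n → ℝ) (a : Fin n) : Odd (fl N x a) := ⟨⌊x a * N⌋, rfl⟩

theorem odd_sv {g : Fin n → ℤ} (hg : ∀ a, Odd (g a)) (p : Lb n) : Odd (sv g p) := by
  unfold sv
  split_ifs
  · exact hg p.1
  · exact (hg p.1).neg

/-- admissible cells are contained in the body -/
theorem mem_SK_of {N : ℕ} (hN : 0 < N) {R : Lb n → Lb n → Prop} {x : Fin n → ℝ}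
    (h : fl N x ∈ cfg N R) : x ∈ SK R := by
  have hN' : (0 : ℝ) < N := by exact_mod_cast hN
  obtain ⟨hlt, hinj, hr⟩ := mem_cfg.1 h
  refine ⟨fun a => ?_, fun p q hpq => ?_⟩
  · obtain ⟨h1, h2, h3⟩ := hlt a
    have hn := near N x (a, true)
    have hn1 : ((fl N x a : ℤ) : ℝ) ≤ 2 * N * x a + 1 := by simpa [sv] using hn.1
    have hn2 : 2 * N * x a ≤ ((fl N x a : ℤ) : ℝ) + 1 := by simpa [sv] using hn.2
    have h4 : -(2 * (N : ℤ)) + 1 ≤ fl N x a := by omega
    have h5 : fl N x a ≤ 2 * (N : ℤ) - 1 := by omega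
    have h4' : ((-(2 * (N : ℤ)) + 1 : ℤ) : ℝ) ≤ ((fl N x a : ℤ) : ℝ) := by exact_mod_cast h4
    have h5' : ((fl N x a : ℤ) : ℝ) ≤ ((2 * (N : ℤ) - 1 : ℤ) : ℝ) := by exact_mod_cast h5
    push_cast at h4' h5'
    constructor
    · by_contra hcon
      push Not at hcon
      nlinarith
    · by_contra hcon
      push Not at hcon
      nlinarith
  · have h1 := hr p q hpq
    have h2 := odd_sv (fun a => odd_fl N x a) p
    have h3 := odd_sv (fun a => odd_fl N x a) q
    obtain ⟨u, hu⟩ := h2
    obtain ⟨v, hv⟩ := h3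
    have h4 : sv (fl N x) p + 2 ≤ sv (fl N x) q := by omega
    have h4' : ((sv (fl N x) p : ℤ) : ℝ) + 2 ≤ ((sv (fl N x) q : ℤ) : ℝ) := by exact_mod_cast h4
    have hp := (near N x p).2
    have hq := (near N x q).1
    by_contra hcon
    push Not at hcon
    nlinarith

theorem pointwise {R : Lb n → Lb n → Prop} (hR : ∀ p, ¬ R p p) {G : (Fin n → ℝ) → ℝ}
    (hG : Continuous G) {x : Fin n → ℝ} (hd : ∀ a b, a ≠ b → x a ≠ x b)
    (hd' : ∀ a b, a ≠ b → x a ≠ -x b) (h1 : ∀ a, x a ≠ 1) (h0 : ∀ a, x a ≠ 0) :
    Tendsto (fun N : ℕ => hh R G N x) atTop (𝓝 ((SK R).indicator G x)) := by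
  classical
  by_cases hx : x ∈ SK R
  · rw [indicator_of_mem hx]
    obtain ⟨hc, hr⟩ := hx
    have hev : ∀ᶠ N : ℕ in atTop, G (lp N (fl N x)) = hh R G N x := by
      filter_upwards [ev_lt x, eventually_gt_atTop 0] with N hN hN0
      have hN' : (0 : ℝ) < N := by exact_mod_cast hN0
      unfold hh
      rw [if_pos]
      refine mem_cfg.2 ⟨?_, ?_, ?_⟩
      · intro a
        refine ⟨?_, ?_, odd_fl N x a⟩
        · have : -(N : ℤ) ≤ ⌊x a * N⌋ := by
            rw [Int.le_floor]
            push_cast
            have := (hc a).1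
            nlinarith
          unfold fl
          omega
        · have : ⌊x a * N⌋ < (N : ℤ) := by
            rw [Int.floor_lt]
            push_cast
            have : x a < 1 := lt_of_le_of_ne (hc a).2 (h1 a)
            nlinarith
          unfold fl
          omega
      · intro a b hne
        constructor
        · intro hab
          rcases lt_or_gt_of_ne (hd a b hne) with h | h
          · have := hN (a, true) (b, true) (by simpa [sv] using h)
            simp only [sv, if_true] at this
            omega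
          · have := hN (b, true) (a, true) (by simpa [sv] using h)
            simp only [sv, if_true] at this
            omega
        · intro hab
          rcases lt_or_gt_of_ne (hd' a b hne) with h | h
          · have := hN (a, true) (b, false) (by simpa [sv] using h)
            simp [sv] at this
            omega
          · have := hN (b, false) (a, true) (by simpa [sv] using h)
            simp [sv] at this
            omega
      · intro p q hpq
        apply hN p q
        refine lt_of_le_of_ne (hr p q hpq) ?_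
        intro heq
        have hpq' : p ≠ q := by rintro rfl; exact hR p hpq
        obtain ⟨a, s⟩ := p
        obtain ⟨b, t⟩ := q
        by_cases hab : a = b
        · subst hab
          have hst : s ≠ t := fun h => hpq' (by rw [h])
          have := h0 a
          cases s <;> cases t <;> simp [sv] at heq hst <;> apply this <;> linarith
        · have h5 := hd a b hab
          have h6 := hd' a b hab
          cases s <;> cases t <;> simp only [sv, if_true, Bool.false_eq_true, if_false] at heq
          · exact h5 (by linarith)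
          · exact h6 (by linarith)
          · exact h6 (by linarith)
          · exact h5 (by linarith)
    refine Tendsto.congr' hev ?_
    exact (hG.tendsto x).comp (lp_fl_tendsto x)
  · rw [indicator_of_notMem hx]
    have hev : ∀ᶠ N : ℕ in atTop, (0 : ℝ) = hh R G N x := by
      filter_upwards [eventually_gt_atTop 0] with N hN0
      unfold hh
      rw [if_neg]
      intro hcf
      exact hx (mem_SK_of hN0 hcf)
    exact Tendsto.congr' hev tendsto_const_nhds

theorem cont_sv (p : Lb n) : Continuous (fun x : Fin n → ℝ => sv x p) := by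
  unfold sv
  by_cases h : p.2 = true
  · simp only [h, if_true]
    exact continuous_apply p.1
  · simp only [h]
    exact (continuous_apply p.1).neg

theorem measurableSet_SK (R : Lb n → Lb n → Prop) : MeasurableSet (SK R) := by
  have : IsClosed (SK R) := by
    have h1 : SK R = (⋂ i, ({x : Fin n → ℝ | -1 ≤ x i} ∩ {x : Fin n → ℝ | x i ≤ 1})) ∩
        ⋂ p, ⋂ q, ⋂ (_ : R p q), {x : Fin n → ℝ | sv x p ≤ sv x q} := by
      ext x
      simp only [SK, mem_ofPred_eq, mem_inter_iff, mem_iInter]
    rw [h1]
    refine IsClosed.inter (isClosed_iInter fun i => IsClosed.inter ?_ ?_)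
      (isClosed_iInter fun p => isClosed_iInter fun q => isClosed_iInter fun _ => ?_)
    · exact isClosed_le continuous_const (continuous_apply i)
    · exact isClosed_le (continuous_apply i) continuous_const
    · exact isClosed_le (cont_sv p) (cont_sv q)
  exact this.measurableSet

end Pool.Agent.T2h31.SB.RS

namespace Pool.Agent.T2h31.SB

open MeasureTheory Set Filter Topology
open RS

theorem t_RS : S_RS := by
  classical
  intro n R hR G hG
  -- bound of G on the cube
  have hK : IsCompact (Icc (-1 : Fin n → ℝ) 1) := isCompact_Icc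
  obtain ⟨M, hM⟩ := hK.exists_bound_of_continuousOn hG.continuousOn
  have h0m : (0 : Fin n → ℝ) ∈ Icc (-1 : Fin n → ℝ) 1 :=
    ⟨fun _ => by norm_num, fun _ => by norm_num⟩
  have hM0 : 0 ≤ M := le_trans (norm_nonneg _) (hM 0 h0m)
  have hlim : Tendsto (fun N : ℕ => ∫ x, hh R G N x) atTop (𝓝 (∫ x, (SK R).indicator G x)) := by
    refine tendsto_integral_filter_of_dominated_convergence
      ((Icc (-1 : Fin n → ℝ) 1).indicator fun _ => M) ?_ ?_ ?_ ?_
    · filter_upwards [eventually_gt_atTop 0] with N hN
      have : hh R G N = fun x =>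
          ∑ g ∈ cfg N R, (cell N g).indicator (fun _ => G (lp N g)) x :=
        funext (hh_eq R G hN)
      rw [this]
      apply Measurable.aestronglyMeasurable
      exact Finset.measurable_sum _ fun g _ =>
        measurable_const.indicator (measurableSet_cell N g)
    · filter_upwards [eventually_gt_atTop 0] with N hN
      have hN' : (0 : ℝ) < N := by exact_mod_cast hN
      refine Eventually.of_forall fun x => ?_
      unfold hh
      by_cases h : fl N x ∈ cfg N R
      · rw [if_pos h]
        have hxS := mem_SK_of hN h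
        have hlt := (mem_cfg.1 h).1
        have hxm : x ∈ Icc (-1 : Fin n → ℝ) 1 := ⟨fun a => (hxS.1 a).1, fun a => (hxS.1 a).2⟩
        rw [indicator_of_mem hxm]
        apply hM
        refine ⟨fun a => ?_, fun a => ?_⟩
        · show (-1 : ℝ) ≤ ((fl N x a : ℤ) : ℝ) / (2 * N)
          rw [le_div_iff₀ (by positivity)]
          have h2 : ((-(2 * (N : ℤ)) : ℤ) : ℝ) ≤ ((fl N x a : ℤ) : ℝ) := by
            exact_mod_cast (hlt a).1.le
          push_cast at h2
          linarith
        · show ((fl N x a : ℤ) : ℝ) / (2 * N) ≤ 1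
          rw [div_le_one (by positivity)]
          exact_mod_cast (hlt a).2.1.le
      · rw [if_neg h, norm_zero]
        exact indicator_nonneg (fun _ _ => hM0) x
    · rw [integrable_indicator_iff measurableSet_Icc]
      exact integrableOn_const hK.measure_lt_top.ne
    · filter_upwards [ae_good (n := n)] with x hx
      exact pointwise hR hG hx.1 hx.2.1 hx.2.2.1 hx.2.2.2
  rw [integral_indicator (measurableSet_SK R)] at hlim
  refine Tendsto.congr' ?_ hlim
  filter_upwards [eventually_gt_atTop 0] with N hN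
  exact integral_hh R G hN

end Pool.Agent.T2h31.SB
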