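import Pool.Agent.T2h31.SB.Stm

/-!
# Symmetric even functions have the same means over all bodies (SYM)
-/

set_option autoImplicit false

namespace Pool.Agent.T2h31.SB.SYM

open MeasureTheory Set Filter Topology
open Pool.Agent.R972.OP (OPp)

variable {n : ℕ}

/-- change of signs -/
def rf (s : Fin n → Bool) (x : Fin n → ℝ) : Fin n → ℝ := fun i => if s i then x i else -x i

theorem rf_rf (s : Fin n → Bool) (x : Fin n → ℝ) : rf s (rf s x) = x := by
  funext i
  unfold rf
  by_cases h : s i = true <;> simp [h]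

theorem rf_mp (s : Fin n → Bool) : MeasurePreserving (rf s) := by
  have h := volume_preserving_pi (ι := Fin n) (α' := fun _ => ℝ) (β' := fun _ => ℝ)
    (f := fun i => if s i then (fun t : ℝ => t) else fun t : ℝ => -t) (fun i => by
      by_cases h : s i = true
      · simp only [h, if_true]
        exact MeasurePreserving.id _
      · simp only [h, if_false]
        exact Measure.measurePreserving_neg volume)
  refine Eq.mp ?_ h
  congr 1
  funext x i
  unfold rf
  by_cases h : s i = true <;> simp [h]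

theorem rf_emb (s : Fin n → Bool) : MeasurableEmbedding (rf s) :=
  (MeasurableEquiv.ofInvolutive (rf s) (rf_rf s) (rf_mp s).measurable).measurableEmbedding

/-- open orthant -/
def Or (s : Fin n → Bool) : Set (Fin n → ℝ) := {x | ∀ i, 0 < rf s x i}

theorem Or_meas (s : Fin n → Bool) : MeasurableSet (Or s) := by
  have : Or s = rf s ⁻¹' (⋂ i, {x : Fin n → ℝ | 0 < x i}) := by
    ext x
    simp [Or]
  rw [this]
  refine (rf_mp s).measurable (MeasurableSet.iInter fun i => ?_)
  exact measurableSet_lt measurable_const (measurable_pi_apply i)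

theorem Or_disj : Pairwise (Function.onFun Disjoint (Or (n := n))) := by
  intro s t hst
  rw [Function.onFun, Set.disjoint_left]
  intro x hx hy
  apply hst
  funext i
  have h1 := hx i
  have h2 := hy i
  unfold rf at h1 h2
  cases hs : s i <;> cases ht : t i <;> simp_all <;> linarith

theorem null0 : volume {x : Fin n → ℝ | ∃ i, x i = 0} = 0 := by
  have : {x : Fin n → ℝ | ∃ i, x i = 0} = ⋃ i, {x : Fin n → ℝ | x i = 0} := by
    ext x
    simp
  rw [this, measure_iUnion_null_iff]
  intro i
  rw [volume_pi]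
  exact Measure.pi_hyperplane (fun _ : Fin n => (volume : Measure ℝ)) i (0 : ℝ)

theorem Or_cover (x : Fin n → ℝ) (hx : ∀ i, x i ≠ 0) : ∃ s, x ∈ Or s := by
  refine ⟨fun i => decide (0 < x i), fun i => ?_⟩
  unfold rf
  by_cases h : 0 < x i
  · simp [h]
  · simp only [h, decide_false, Bool.false_eq_true, if_false]
    have := lt_of_le_of_ne (not_lt.1 h) (hx i)
    linarith

theorem sv_cont (p : Lb n) : Continuous fun x : Fin n → ℝ => sv x p := by
  unfold sv
  by_cases h : p.2 = true
  · simp only [h, if_true]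
    fun_prop
  · simp only [h, Bool.false_eq_true, if_false]
    fun_prop

theorem SK_closed (R : Lb n → Lb n → Prop) : IsClosed (SK R) := by
  have : SK R = (⋂ i, {x : Fin n → ℝ | -1 ≤ x i ∧ x i ≤ 1}) ∩
      ⋂ p, ⋂ q, ⋂ (_ : R p q), {x : Fin n → ℝ | sv x p ≤ sv x q} := by
    ext x
    simp [SK]
  rw [this]
  refine IsClosed.inter (isClosed_iInter fun i => ?_) (isClosed_iInter fun p =>
    isClosed_iInter fun q => isClosed_iInter fun _ => isClosed_le (sv_cont p) (sv_cont q))
  exact (isClosed_le continuous_const (continuous_apply i)).inter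
    (isClosed_le (continuous_apply i) continuous_const)

theorem SK_compact (R : Lb n → Lb n → Prop) : IsCompact (SK R) := by
  refine IsCompact.of_isClosed_subset (isCompact_Icc (a := fun _ : Fin n => (-1 : ℝ))
    (b := fun _ => 1)) (SK_closed R) fun x hx => ?_
  exact ⟨fun i => (hx.1 i).1, fun i => (hx.1 i).2⟩

/-- there is a relation which is impossible in the orthant -/
def bad (R : Lb n → Lb n → Prop) (s : Fin n → Bool) : Prop :=
  ∃ p q, R p q ∧ p.2 = s p.1 ∧ q.2 ≠ s q.1

/-- the relations in the orthant -/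
def rel (R : Lb n → Lb n → Prop) (s : Fin n → Bool) (a b : Fin n) : Prop :=
  (∃ p q, R p q ∧ p.2 = s p.1 ∧ q.2 = s q.1 ∧ p.1 = a ∧ q.1 = b) ∨
  ∃ p q, R p q ∧ p.2 ≠ s p.1 ∧ q.2 ≠ s q.1 ∧ q.1 = a ∧ p.1 = b

theorem sv_rf (s : Fin n → Bool) (y : Fin n → ℝ) (p : Lb n) :
    sv (rf s y) p = if p.2 = s p.1 then y p.1 else -y p.1 := by
  unfold sv rf
  cases h1 : p.2 <;> cases h2 : s p.1 <;> simp

/-- the part in an orthant -/
def Ps (R : Lb n → Lb n → Prop) (s : Fin n → Bool) : Set (Fin n → ℝ) :=
  rf s ⁻¹' (SK R ∩ Or s)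

theorem mem_Ps (R : Lb n → Lb n → Prop) (s : Fin n → Bool) (y : Fin n → ℝ) :
    y ∈ Ps R s ↔ (∀ i, 0 < y i) ∧ rf s y ∈ SK R := by
  unfold Ps Or
  simp only [Set.mem_preimage, Set.mem_inter_iff, Set.mem_setOf_eq, rf_rf]
  tauto

theorem Ps_bad (R : Lb n → Lb n → Prop) (s : Fin n → Bool) (h : bad R s) : Ps R s = ∅ := by
  ext y
  simp only [mem_Ps, Set.mem_empty_iff_false, iff_false, not_and]
  intro hy hk
  obtain ⟨p, q, hR, hp, hq⟩ := h
  have h1 := hk.2 p q hR
  rw [sv_rf, sv_rf, if_pos hp, if_neg hq] at h1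
  have := hy p.1
  have := hy q.1
  linarith

theorem Ps_good (R : Lb n → Lb n → Prop) (s : Fin n → Bool) (h : ¬ bad R s) :
    Ps R s = OPp (rel R s) ∩ {y | ∀ i, 0 < y i} := by
  ext y
  rw [mem_Ps, Set.mem_inter_iff, and_comm (a := y ∈ OPp (rel R s))]
  refine and_congr_right fun hy => ?_
  constructor
  · intro hk
    refine ⟨fun i => ⟨(hy i).le, ?_⟩, ?_⟩
    · have := hk.1 i
      unfold rf at this
      by_cases hs : s i = true
      · simp only [hs, if_true] at this
        exact this.2
      · simp only [hs] at this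
        have h2 : -1 ≤ -y i := this.1
        linarith
    · intro a b hab
      rcases hab with ⟨p, q, hR, hp, hq, ha, hb⟩ | ⟨p, q, hR, hp, hq, ha, hb⟩
      · have h1 := hk.2 p q hR
        rw [sv_rf, sv_rf, if_pos hp, if_pos hq, ha, hb] at h1
        exact h1
      · have h1 := hk.2 p q hR
        rw [sv_rf, sv_rf, if_neg hp, if_neg hq, ha, hb] at h1
        linarith
  · intro hk
    refine ⟨fun i => ?_, fun p q hR => ?_⟩
    · have h1 := (hk.1 i).2
      have h2 := hy i
      unfold rf
      by_cases hs : s i = true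
      · simp only [hs, if_true]
        constructor <;> linarith
      · simp only [hs]
        constructor
        · show -1 ≤ -y i
          linarith
        · show -y i ≤ 1
          linarith
    · rw [sv_rf, sv_rf]
      have hp0 := hy p.1
      have hq0 := hy q.1
      by_cases hp : p.2 = s p.1
      · by_cases hq : q.2 = s q.1
        · rw [if_pos hp, if_pos hq]
          exact hk.2 _ _ (Or.inl ⟨p, q, hR, hp, hq, rfl, rfl⟩)
        · exact absurd ⟨p, q, hR, hp, hq⟩ h
      · by_cases hq : q.2 = s q.1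
        · rw [if_neg hp, if_pos hq]
          linarith
        · rw [if_neg hp, if_neg hq]
          have := hk.2 _ _ (Or.inr ⟨p, q, hR, hp, hq, rfl, rfl⟩)
          linarith

theorem pos_ae (A : Set (Fin n → ℝ)) (hA : ∀ y ∈ A, ∀ i, 0 ≤ y i) :
    (A ∩ {y | ∀ i, 0 < y i} : Set (Fin n → ℝ)) =ᵐ[volume] A := by
  have h0 : ∀ᵐ x : Fin n → ℝ, ¬ ∃ i, x i = 0 := by
    rw [ae_iff]
    simpa using (null0 (n := n))
  filter_upwards [h0] with x hx
  refine propext ⟨fun h => h.1, fun h => ⟨h, fun i => ?_⟩⟩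
  exact lt_of_le_of_ne (hA x h i) fun h1 => hx ⟨i, h1.symm⟩

open Classical in
/-- the volume of the part -/
noncomputable def vs (R : Lb n → Lb n → Prop) (s : Fin n → Bool) : ℝ :=
  if bad R s then 0 else (volume (OPp (rel R s))).toReal

theorem part (h : Pool.Agent.R972.OP.S_SYM) (R : Lb n → Lb n → Prop) (G : (Fin n → ℝ) → ℝ)
    (hG : Continuous G)
    (h1 : ∀ (p : Equiv.Perm (Fin n)) (x : Fin n → ℝ), G (fun i => x (p i)) = G x)
    (h2 : ∀ (s : Fin n → Bool) (x : Fin n → ℝ), G (rf s x) = G x) (s : Fin n → Bool) :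
    ∫ x in SK R ∩ Or s, G x = vs R s * ∫ x in OPp (fun _ _ : Fin n => False), G x := by
  have e1 : ∫ x in Ps R s, G x = ∫ x in SK R ∩ Or s, G x := by
    rw [← (rf_mp s).setIntegral_preimage_emb (rf_emb s) G (SK R ∩ Or s)]
    unfold Ps
    exact integral_congr_ae (Eventually.of_forall fun x => (h2 s x).symm)
  rw [← e1]
  unfold vs
  by_cases hb : bad R s
  · rw [if_pos hb, Ps_bad R s hb]
    simp
  · rw [if_neg hb, Ps_good R s hb, ← h n (rel R s) G hG h1]
    refine setIntegral_congr_set (pos_ae _ fun y hy i => (hy.1 i).1)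

theorem main0 (h : Pool.Agent.R972.OP.S_SYM) (R : Lb n → Lb n → Prop) (G : (Fin n → ℝ) → ℝ)
    (hG : Continuous G)
    (h1 : ∀ (p : Equiv.Perm (Fin n)) (x : Fin n → ℝ), G (fun i => x (p i)) = G x)
    (h2 : ∀ (s : Fin n → Bool) (x : Fin n → ℝ), G (rf s x) = G x) :
    ∫ x in SK R, G x = (∑ s : Fin n → Bool, vs R s) *
      ∫ x in OPp (fun _ _ : Fin n => False), G x := by
  have hI : IntegrableOn G (SK R) := hG.continuousOn.integrableOn_compact (SK_compact R)
  have hae : (SK R : Set (Fin n → ℝ)) =ᵐ[volume] ⋃ s : Fin n → Bool, SK R ∩ Or s := by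
    have h0 : ∀ᵐ x : Fin n → ℝ, ¬ ∃ i, x i = 0 := by
      rw [ae_iff]
      simpa using (null0 (n := n))
    filter_upwards [h0] with x hx
    refine propext ⟨fun hk => ?_, fun hk => ?_⟩
    · obtain ⟨s, hs⟩ := Or_cover x fun i hi => hx ⟨i, hi⟩
      exact Set.mem_iUnion.2 ⟨s, hk, hs⟩
    · obtain ⟨s, hs⟩ := Set.mem_iUnion.1 hk
      exact hs.1
  rw [setIntegral_congr_set hae, integral_iUnion_fintype]
  · rw [Finset.sum_mul]
    exact Finset.sum_congr rfl fun s _ => part h R G hG h1 h2 s
  · intro s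
    exact (SK_closed R).measurableSet.inter (Or_meas s)
  · intro s t hst
    exact (Or_disj hst).mono Set.inter_subset_right Set.inter_subset_right
  · intro s
    exact hI.mono_set Set.inter_subset_left

theorem cube1 : ∫ x in OPp (fun _ _ : Fin n => False), (1 : ℝ) = 1 := by
  have : OPp (fun _ _ : Fin n => False) = Set.Icc (0 : Fin n → ℝ) 1 := by
    ext x
    simp [OPp, Set.mem_Icc, Pi.le_def, forall_and]
  rw [this]
  simp [Real.volume_Icc_pi, Measure.real]

end Pool.Agent.T2h31.SB.SYM

namespace Pool.Agent.T2h31.SB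

open MeasureTheory Set Filter Topology
open scoped ENNReal InnerProductSpace

/-- symmetric even functions have the same means over all bodies -/
theorem t_SYM (h : Pool.Agent.R972.OP.S_SYM) : S_SYM := by
  intro n R G hG h1 h2
  have e1 := SYM.main0 h R G hG h1 h2
  have e2 := SYM.main0 h R (fun _ => (1 : ℝ)) continuous_const (fun _ _ => rfl) (fun _ _ => rfl)
  rw [SYM.cube1, mul_one] at e2
  have e3 : ∫ _ in SK R, (1 : ℝ) = (volume (SK R)).toReal := by
    simp [Measure.real]
  rw [e3] at e2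
  rw [e1, e2]

end Pool.Agent.T2h31.SB
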