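import Pool.Agent.T2h31.SB.Stm

/-!
# SB-TRG: transfer to Euclidean space; compact and convex (helper25, for project SB of helper31)
-/

set_option autoImplicit false

namespace Pool.Agent.T2h31.SB.TRG

open MeasureTheory Set Filter Topology
open Pool.Agent.W695.KH (Eu EV VV)
open Pool.Agent.T2h31.SB

variable {n : ℕ} (R : Lb n → Lb n → Prop)

theorem pre_eq : (fun x : Fin n → ℝ => (WithLp.toLp 2 x : Eu (Fin n))) ⁻¹' (SE R) = SK R := by
  ext x
  simp [SE, SK]

theorem cont (i : Fin n) : Continuous (fun x : Eu (Fin n) => x i) :=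
  (EuclideanSpace.proj (𝕜 := ℝ) i).continuous

theorem cont_sv (p : Lb n) : Continuous (fun x : Eu (Fin n) => sv (fun i => x i) p) := by
  unfold sv
  by_cases h : p.2 = true
  · simp only [h, if_true]
    exact cont p.1
  · simp only [h]
    exact (cont p.1).neg

theorem closed : IsClosed (SE R) := by
  have e : SE R = (⋂ i, ({x : Eu (Fin n) | -1 ≤ x i} ∩ {x | x i ≤ 1})) ∩
      ⋂ p, ⋂ q, ⋂ (_ : R p q), {x : Eu (Fin n) | sv (fun i => x i) p ≤ sv (fun i => x i) q} := by
    ext x
    simp only [SE, mem_ofPred_eq, mem_inter_iff, mem_iInter]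
  rw [e]
  refine IsClosed.inter (isClosed_iInter fun i => IsClosed.inter
    (isClosed_le continuous_const (cont i)) (isClosed_le (cont i) continuous_const)) ?_
  exact isClosed_iInter fun p => isClosed_iInter fun q => isClosed_iInter fun _ =>
    isClosed_le (cont_sv p) (cont_sv q)

theorem compact : IsCompact (SE R) := by
  refine Metric.isCompact_of_isClosed_isBounded (closed R) ?_
  refine (Metric.isBounded_closedBall (x := (0 : Eu (Fin n))) (r := Real.sqrt n)).subset ?_
  intro x hx
  rw [mem_closedBall_zero_iff, EuclideanSpace.norm_eq]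
  refine Real.sqrt_le_sqrt ?_
  calc ∑ i, ‖x i‖ ^ 2 ≤ ∑ _i : Fin n, (1 : ℝ) := by
        refine Finset.sum_le_sum fun i _ => ?_
        have h := hx.1 i
        rw [Real.norm_eq_abs, sq_abs]
        nlinarith [h.1, h.2]
    _ = n := by simp

theorem convex : Convex ℝ (SE R) := by
  intro x hx y hy a b ha hb hab
  have e : ∀ i, (a • x + b • y) i = a * x i + b * y i := by
    intro i
    simp
  have e2 : ∀ p : Lb n, sv (fun i => (a • x + b • y) i) p =
      a * sv (fun i => x i) p + b * sv (fun i => y i) p := by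
    intro p
    unfold sv
    split_ifs
    · exact e p.1
    · show -((a • x + b • y) p.1) = a * -(x p.1) + b * -(y p.1)
      rw [e p.1]; ring
  refine ⟨fun i => ?_, fun p q hpq => ?_⟩
  · have h1 := hx.1 i
    have h2 := hy.1 i
    rw [e]
    constructor
    · nlinarith [mul_le_mul_of_nonneg_left h1.1 ha, mul_le_mul_of_nonneg_left h2.1 hb]
    · nlinarith [mul_le_mul_of_nonneg_left h1.2 ha, mul_le_mul_of_nonneg_left h2.2 hb]
  · rw [e2, e2]
    exact add_le_add (mul_le_mul_of_nonneg_left (hx.2 p q hpq) ha)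
      (mul_le_mul_of_nonneg_left (hy.2 p q hpq) hb)

end Pool.Agent.T2h31.SB.TRG

namespace Pool.Agent.T2h31.SB

open MeasureTheory Set Filter Topology
open Pool.Agent.W695.KH (Eu EV VV)

theorem t_TRG : S_TRG := by
  intro n R
  have hmp := PiLp.volume_preserving_toLp (Fin n)
  have hme : MeasurableEmbedding (fun x : Fin n → ℝ => (WithLp.toLp 2 x : Eu (Fin n))) :=
    (MeasurableEquiv.toLp 2 (Fin n → ℝ)).measurableEmbedding
  refine ⟨?_, fun G => ?_, TRG.compact R, TRG.convex R⟩
  · rw [← TRG.pre_eq R]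
    exact (hmp.measure_preimage_emb hme (SE R)).symm
  · rw [← TRG.pre_eq R]
    exact (hmp.setIntegral_preimage_emb hme G (SE R)).symm

end Pool.Agent.T2h31.SB
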