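import Pool.Agent.T2h31.SB.Stm
import Pool.Agent.R364.OP.UPA

/-!
# SB-UPA: asymptotics of the right-hand side (helper25, for project SB of helper31)
-/

set_option autoImplicit false

namespace Pool.Agent.T2h31.SB.UPA

open MeasureTheory Set Filter Topology
open Pool.Agent.T2h31.SB
open Pool.Agent.R364.OP (exists_err)

variable {n : ℕ}

/-- the cube -/
def cube (n : ℕ) : Set (Fin n → ℝ) := Icc (-1) 1

theorem taylor {f : (Fin n → ℝ) → ℝ} (hf : ContDiff ℝ 1 f) {x y : Fin n → ℝ} {h η : ℝ}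
    (hx : x ∈ cube n) (hy : y ∈ cube n) (hxy : ‖y - x‖ ≤ h)
    (hη : ∀ z ∈ cube n, ‖z - x‖ ≤ h → ‖fderiv ℝ f z - fderiv ℝ f x‖ ≤ η) :
    |f y - f x - fderiv ℝ f x (y - x)| ≤ η * ‖y - x‖ := by
  have hc : Convex ℝ (cube n ∩ Metric.closedBall x h) :=
    (convex_Icc (-1) 1).inter (convex_closedBall x h)
  have hh : 0 ≤ h := le_trans (norm_nonneg _) hxy
  have := Convex.norm_image_sub_le_of_norm_fderiv_le' (𝕜 := ℝ) (f := f)
    (s := cube n ∩ Metric.closedBall x h) (C := η) (φ := fderiv ℝ f x) (x := x) (y := y)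
    (fun z _ => (hf.differentiable one_ne_zero) z)
    (fun z hz => hη z hz.1 (by rw [← dist_eq_norm]; exact hz.2)) hc
    ⟨hx, Metric.mem_closedBall_self hh⟩ ⟨hy, by rw [Metric.mem_closedBall, dist_eq_norm]; exact hxy⟩
  rwa [Real.norm_eq_abs] at this

theorem lp_mem {N : ℕ} (hN : 0 < N) {g : Fin n → ℤ}
    (hg : ∀ a, -(2 * (N : ℤ)) < g a ∧ g a < 2 * (N : ℤ)) : lp N g ∈ cube n := by
  have hN' : (0 : ℝ) < N := by exact_mod_cast hN
  refine ⟨fun a => ?_, fun a => ?_⟩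
  · show (-1 : ℝ) ≤ (g a : ℝ) / (2 * N)
    rw [le_div_iff₀ (by positivity)]
    have : -(2 * (N : ℤ)) ≤ g a := (hg a).1.le
    have h2 : ((-(2 * (N : ℤ)) : ℤ) : ℝ) ≤ (g a : ℝ) := by exact_mod_cast this
    push_cast at h2
    linarith
  · show (g a : ℝ) / (2 * N) ≤ 1
    rw [div_le_one (by positivity)]
    exact_mod_cast (hg a).2.le

theorem pd_abs_le {f : (Fin n → ℝ) → ℝ} {B : ℝ} {x : Fin n → ℝ} (hB : ‖fderiv ℝ f x‖ ≤ B)
    (a : Fin n) : |pd f a x| ≤ B := by
  unfold pd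
  rw [← Real.norm_eq_abs]
  calc ‖fderiv ℝ f x (Pi.single a 1)‖ ≤ ‖fderiv ℝ f x‖ * ‖(Pi.single a 1 : Fin n → ℝ)‖ :=
        ContinuousLinearMap.le_opNorm _ _
    _ = ‖fderiv ℝ f x‖ := by
        rw [Pi.norm_single, norm_one, mul_one]
    _ ≤ B := hB

theorem lp_update_sub {N : ℕ} (g : Fin n → ℤ) (a : Fin n) (v : ℤ) :
    lp N (Function.update g a v) - lp N g =
      (((v : ℝ) - g a) / (2 * N)) • (Pi.single a 1 : Fin n → ℝ) := by
  ext c
  by_cases h : c = a
  · subst h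
    simp [Pool.Agent.T2h31.SB.lp]
    ring
  · simp [Pool.Agent.T2h31.SB.lp, h]

/-- one coordinate, move by one step `2 s = ±2` -/
theorem step {f : (Fin n → ℝ) → ℝ} (hf : ContDiff ℝ 1 f) {N : ℕ} (hN : 0 < N)
    {g : Fin n → ℤ} (hg : ∀ a, -(2 * (N : ℤ)) < g a ∧ g a < 2 * (N : ℤ)) {η : ℝ}
    (hη : ∀ x ∈ cube n, ∀ z ∈ cube n, ‖z - x‖ ≤ 1 / N → ‖fderiv ℝ f z - fderiv ℝ f x‖ ≤ η)
    (a : Fin n) (v : ℤ) (hv : -(2 * (N : ℤ)) < v ∧ v < 2 * (N : ℤ)) (s : ℝ) (hs : |s| = 1)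
    (hvs : (v : ℝ) - g a = 2 * s) :
    ∃ r : ℝ, |r| ≤ η ∧ f (lp N (Function.update g a v)) - f (lp N g) =
      1 / N * (s * (pd f a (lp N g) + r)) := by
  have hN' : (0 : ℝ) < N := by exact_mod_cast hN
  have hx := lp_mem hN hg
  have hg' : ∀ b, -(2 * (N : ℤ)) < Function.update g a v b ∧
      Function.update g a v b < 2 * (N : ℤ) := by
    intro b
    by_cases hb : b = a
    · subst hb; simpa using hv
    · rw [Function.update_of_ne hb]; exact hg b
  have hy := lp_mem hN hg'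
  have hsub := lp_update_sub (N := N) g a v
  have hcoef : 2 * s / (2 * (N : ℝ)) = s / N := by
    rw [mul_div_mul_left _ _ two_ne_zero]
  rw [hvs, hcoef] at hsub
  have hnorm : ‖lp N (Function.update g a v) - lp N g‖ = 1 / N := by
    rw [hsub, norm_smul, Pi.norm_single, norm_one, mul_one, norm_div, Real.norm_eq_abs, hs,
      Real.norm_eq_abs, abs_of_pos hN']
  have ht := taylor hf hx hy hnorm.le (hη _ hx)
  rw [hnorm] at ht
  rw [hsub, map_smul, smul_eq_mul] at ht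
  have hss : s * s = 1 := by
    rw [← sq, ← sq_abs, hs, one_pow]
  refine ⟨s * N * (f (lp N (Function.update g a v)) - f (lp N g)) - pd f a (lp N g), ?_, ?_⟩
  · have e : s * N * (f (lp N (Function.update g a v)) - f (lp N g)) - pd f a (lp N g) =
        s * N * (f (lp N (Function.update g a v)) - f (lp N g) -
          s / N * fderiv ℝ f (lp N g) (Pi.single a 1)) := by
      unfold pd
      have : s * N * (s / N * fderiv ℝ f (lp N g) (Pi.single a 1)) =
          fderiv ℝ f (lp N g) (Pi.single a 1) := by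
        field_simp
        rw [sq, hss, one_mul]
      linear_combination this
    rw [e, abs_mul, abs_mul, hs, one_mul, abs_of_pos hN']
    calc (N : ℝ) * |f (lp N (Function.update g a v)) - f (lp N g) -
          s / N * fderiv ℝ f (lp N g) (Pi.single a 1)|
        ≤ N * (η * (1 / N)) := mul_le_mul_of_nonneg_left ht hN'.le
      _ = η := by field_simp
  · have e : s * (pd f a (lp N g) + (s * N * (f (lp N (Function.update g a v)) - f (lp N g)) -
        pd f a (lp N g))) = N * (f (lp N (Function.update g a v)) - f (lp N g)) := by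
      linear_combination (N * (f (lp N (Function.update g a v)) - f (lp N g))) * hss
    rw [e]
    field_simp

/-- scalar estimate -/
theorem scal {B η D r : ℝ} (hη0 : 0 ≤ η) (hη1 : η ≤ 1) (hD : |D| ≤ B) (hr : |r| ≤ η) :
    (D + r) ^ 2 ≤ D ^ 2 + (2 * B + 1) * η := by
  have e1 : D * r ≤ B * η := by
    calc D * r ≤ |D * r| := le_abs_self _
      _ = |D| * |r| := abs_mul _ _
      _ ≤ B * η := mul_le_mul hD hr (abs_nonneg _) (le_trans (abs_nonneg _) hD)
  have e2 : r ^ 2 ≤ η := by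
    have : r ^ 2 ≤ η ^ 2 := by
      rw [← sq_abs r]; exact pow_le_pow_left₀ (abs_nonneg _) hr 2
    nlinarith
  nlinarith

theorem upa_ev {f : (Fin n → ℝ) → ℝ} (hf : ContDiff ℝ 1 f) {B : ℝ}
    (hB : ∀ x ∈ cube n, ‖fderiv ℝ f x‖ ≤ B) {N : ℕ} (hN : 0 < N)
    {g : Fin n → ℤ} (hg : ∀ a, -(2 * (N : ℤ)) < g a ∧ g a < 2 * (N : ℤ)) {η : ℝ} (hη1 : η ≤ 1)
    (hη : ∀ x ∈ cube n, ∀ z ∈ cube n, ‖z - x‖ ≤ 1 / N → ‖fderiv ℝ f z - fderiv ℝ f x‖ ≤ η) :
    (N : ℝ) ^ 2 / 2 * (∑ a, (if g a + 2 < 2 * (N : ℤ) then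
        (f (lp N (Function.update g a (g a + 2))) - f (lp N g)) ^ 2 else 0) +
      ∑ a, (if -(2 * (N : ℤ)) < g a - 2 then
        (f (lp N (Function.update g a (g a - 2))) - f (lp N g)) ^ 2 else 0)) ≤
    ∑ a, pd f a (lp N g) ^ 2 + (n : ℝ) * ((2 * B + 1) * η) := by
  have hN' : (0 : ℝ) < N := by exact_mod_cast hN
  have hx := lp_mem hN hg
  have hη0 : 0 ≤ η := by
    have := hη _ hx _ hx (by simp)
    simpa using this
  have hBx := hB _ hx
  have hB0 : 0 ≤ B := le_trans (norm_nonneg _) hBx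
  have hrest : 0 ≤ (2 * B + 1) * η := by positivity
  rw [← Finset.sum_add_distrib, Finset.mul_sum]
  have hn : (n : ℝ) * ((2 * B + 1) * η) = ∑ _a : Fin n, ((2 * B + 1) * η) := by
    rw [Finset.sum_const, Finset.card_univ, Fintype.card_fin, nsmul_eq_mul]
  rw [hn, ← Finset.sum_add_distrib]
  apply Finset.sum_le_sum
  intro a _
  have hD := pd_abs_le hBx a
  have hbase : 0 ≤ 1 / 2 * (pd f a (lp N g) ^ 2 + (2 * B + 1) * η) := by
    have := sq_nonneg (pd f a (lp N g))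
    positivity
  have conv : ∀ s r : ℝ, |s| = 1 → |r| ≤ η →
      (N : ℝ) ^ 2 / 2 * (1 / N * (s * (pd f a (lp N g) + r))) ^ 2 ≤
        1 / 2 * (pd f a (lp N g) ^ 2 + (2 * B + 1) * η) := by
    intro s r hs hr
    have hss : s ^ 2 = 1 := by rw [← sq_abs, hs, one_pow]
    have e : (N : ℝ) ^ 2 / 2 * (1 / N * (s * (pd f a (lp N g) + r))) ^ 2 =
        1 / 2 * (pd f a (lp N g) + r) ^ 2 := by
      rw [mul_pow, mul_pow, hss]
      field_simp
    rw [e]
    have := scal hη0 hη1 hD hr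
    linarith
  have t1 : (N : ℝ) ^ 2 / 2 * (if g a + 2 < 2 * (N : ℤ) then
      (f (lp N (Function.update g a (g a + 2))) - f (lp N g)) ^ 2 else 0) ≤
      1 / 2 * (pd f a (lp N g) ^ 2 + (2 * B + 1) * η) := by
    split_ifs with h
    · obtain ⟨r, hr, he⟩ := step hf hN hg hη a (g a + 2) ⟨by have := (hg a).1; omega, h⟩ 1
        (by norm_num) (by push_cast; ring)
      rw [he]
      exact conv 1 r (by norm_num) hr
    · rw [mul_zero]; exact hbase
  have t2 : (N : ℝ) ^ 2 / 2 * (if -(2 * (N : ℤ)) < g a - 2 then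
      (f (lp N (Function.update g a (g a - 2))) - f (lp N g)) ^ 2 else 0) ≤
      1 / 2 * (pd f a (lp N g) ^ 2 + (2 * B + 1) * η) := by
    split_ifs with h
    · obtain ⟨r, hr, he⟩ := step hf hN hg hη a (g a - 2) ⟨h, by have := (hg a).2; omega⟩ (-1)
        (by norm_num) (by push_cast; ring)
      rw [he]
      exact conv (-1) r (by norm_num) hr
    · rw [mul_zero]; exact hbase
  rw [mul_add]
  linarith

theorem upa_c {f : (Fin n → ℝ) → ℝ} (hf : ContDiff ℝ 1 f) {B : ℝ}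
    (hB : ∀ x ∈ cube n, ‖fderiv ℝ f x‖ ≤ B) {N : ℕ} (hN : 0 < N)
    {g : Fin n → ℤ} (hg : ∀ a, -(2 * (N : ℤ)) < g a ∧ g a < 2 * (N : ℤ)) (a b : Fin n)
    (hab : |g b| = |g a| + 2) :
    (N : ℝ) ^ 2 / 2 * (f (lp N (mv |g a| |g b| g)) - f (lp N g)) ^ 2 ≤ B ^ 2 := by
  have hN' : (0 : ℝ) < N := by exact_mod_cast hN
  have hx := lp_mem hN hg
  have hB0 : 0 ≤ B := le_trans (norm_nonneg _) (hB _ hx)
  have hb : |g b| < 2 * (N : ℤ) := abs_lt.2 (hg b)
  have ha0 : 0 ≤ |g a| := abs_nonneg _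
  obtain ⟨i, hi⟩ : ∃ i, i = |g a| := ⟨_, rfl⟩
  have hj : |g b| = i + 2 := by rw [hi]; exact hab
  rw [← hi] at ha0 ⊢
  rw [hj] at hb ⊢
  have hch : ∀ c, mv i (i + 2) g c - g c ≤ 2 ∧ g c - mv i (i + 2) g c ≤ 2 ∧
      -(2 * (N : ℤ)) < mv i (i + 2) g c ∧ mv i (i + 2) g c < 2 * (N : ℤ) := by
    intro c
    have hc := hg c
    unfold mv sg
    split_ifs <;> omega
  have hg' : ∀ c, -(2 * (N : ℤ)) < mv i (i + 2) g c ∧ mv i (i + 2) g c < 2 * (N : ℤ) :=
    fun c => ⟨(hch c).2.2.1, (hch c).2.2.2⟩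
  have hy := lp_mem hN hg'
  have hnorm : ‖lp N (mv i (i + 2) g) - lp N g‖ ≤ 1 / N := by
    rw [pi_norm_le_iff_of_nonneg (by positivity)]
    intro c
    show ‖((mv i (i + 2) g c : ℤ) : ℝ) / (2 * N) - (g c : ℝ) / (2 * N)‖ ≤ 1 / N
    rw [← sub_div, norm_div, Real.norm_eq_abs, Real.norm_eq_abs,
      abs_of_pos (by positivity : (0 : ℝ) < 2 * N)]
    have h2 : |((mv i (i + 2) g c : ℤ) : ℝ) - (g c : ℝ)| ≤ 2 := by
      have h3 : |mv i (i + 2) g c - g c| ≤ 2 := by
        rw [abs_le]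
        have := hch c
        constructor <;> omega
      exact_mod_cast h3
    calc |((mv i (i + 2) g c : ℤ) : ℝ) - (g c : ℝ)| / (2 * N) ≤ 2 / (2 * N) :=
          div_le_div_of_nonneg_right h2 (by positivity)
      _ = 1 / N := by field_simp
  have hdiff : |f (lp N (mv i (i + 2) g)) - f (lp N g)| ≤ B * (1 / N) := by
    have := Convex.norm_image_sub_le_of_norm_fderiv_le (𝕜 := ℝ) (f := f)
      (s := cube n) (C := B) (x := lp N g) (y := lp N (mv i (i + 2) g))
      (fun z _ => (hf.differentiable one_ne_zero) z) hB (convex_Icc (-1) 1) hx hy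
    rw [Real.norm_eq_abs] at this
    exact this.trans (mul_le_mul_of_nonneg_left hnorm hB0)
  have hsq : (f (lp N (mv i (i + 2) g)) - f (lp N g)) ^ 2 ≤ (B * (1 / N)) ^ 2 := by
    rw [← sq_abs (f (lp N (mv i (i + 2) g)) - f (lp N g))]
    exact pow_le_pow_left₀ (abs_nonneg _) hdiff 2
  calc (N : ℝ) ^ 2 / 2 * (f (lp N (mv i (i + 2) g)) - f (lp N g)) ^ 2
      ≤ (N : ℝ) ^ 2 / 2 * (B * (1 / N)) ^ 2 :=
        mul_le_mul_of_nonneg_left hsq (by positivity)
    _ = B ^ 2 / 2 := by field_simp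
    _ ≤ B ^ 2 := by nlinarith [sq_nonneg B]

end Pool.Agent.T2h31.SB.UPA

namespace Pool.Agent.T2h31.SB

open MeasureTheory Set Filter Topology
open Pool.Agent.R364.OP (exists_err)
open UPA

theorem t_UPA : S_UPA := by
  intro n f hf
  have hK : IsCompact (cube n) := isCompact_Icc
  have hcont : Continuous (fderiv ℝ f) := hf.continuous_fderiv one_ne_zero
  obtain ⟨B, hB⟩ := hK.exists_bound_of_continuousOn hcont.continuousOn
  have h0mem : (0 : Fin n → ℝ) ∈ cube n :=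
    ⟨fun _ => by norm_num, fun _ => by norm_num⟩
  have hB0 : 0 ≤ B := le_trans (norm_nonneg _) (hB 0 h0mem)
  obtain ⟨err, herr, herr2⟩ := exists_err (α := Fin n → ℤ)
    (fun N => {g | 0 < N ∧ ∀ a, -(2 * (N : ℤ)) < g a ∧ g a < 2 * (N : ℤ)})
    (fun N g => (N : ℝ) ^ 2 / 2 * (∑ a, (if g a + 2 < 2 * (N : ℤ) then
        (f (lp N (Function.update g a (g a + 2))) - f (lp N g)) ^ 2 else 0) +
      ∑ a, (if -(2 * (N : ℤ)) < g a - 2 then
        (f (lp N (Function.update g a (g a - 2))) - f (lp N g)) ^ 2 else 0)) -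
    ∑ a, pd f a (lp N g) ^ 2) (by
      intro N
      refine Set.Finite.subset (Set.Finite.pi' (fun _ : Fin n =>
        Set.finite_Ioo (-(2 * (N : ℤ))) (2 * (N : ℤ)))) ?_
      rintro g ⟨_, hg⟩ a
      exact hg a) (by
      intro ε hε
      -- choose η
      obtain ⟨η, hη0, hη1, hηε⟩ : ∃ η : ℝ, 0 < η ∧ η ≤ 1 ∧
          (n : ℝ) * ((2 * B + 1) * η) ≤ ε := by
        have hpos : (0 : ℝ) < (n : ℝ) * (2 * B + 1) + 1 := by positivity
        refine ⟨min 1 (ε / ((n : ℝ) * (2 * B + 1) + 1)), ?_, min_le_left _ _, ?_⟩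
        · apply lt_min one_pos
          positivity
        · set q := (n : ℝ) * (2 * B + 1) with hq
          have hq0 : 0 ≤ q := by positivity
          have h1 : min 1 (ε / (q + 1)) ≤ ε / (q + 1) := min_le_right _ _
          calc (n : ℝ) * ((2 * B + 1) * min 1 (ε / (q + 1)))
              = q * min 1 (ε / (q + 1)) := by rw [hq]; ring
            _ ≤ q * (ε / (q + 1)) := mul_le_mul_of_nonneg_left h1 hq0
            _ ≤ (q + 1) * (ε / (q + 1)) :=
                mul_le_mul_of_nonneg_right (by linarith) (by positivity)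
            _ = ε := by field_simp
      have huc : UniformContinuousOn (fderiv ℝ f) (cube n) :=
        hK.uniformContinuousOn_of_continuous hcont.continuousOn
      rw [Metric.uniformContinuousOn_iff] at huc
      obtain ⟨δ, hδ, huc⟩ := huc η hη0
      have e2 : ∀ᶠ N : ℕ in atTop, (1 : ℝ) / (N : ℝ) < δ :=
        (tendsto_one_div_atTop_nhds_zero_nat (𝕜 := ℝ)).eventually_lt_const hδ
      filter_upwards [e2] with N h2
      rintro g ⟨hN, hg⟩
      have := upa_ev hf hB hN hg hη1 (fun x hx z hz hzx => by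
        rw [← dist_eq_norm]
        apply le_of_lt
        apply huc z hz x hx
        rw [dist_eq_norm]
        exact lt_of_le_of_lt hzx h2)
      linarith)
  refine ⟨err, B ^ 2, herr, by positivity, ?_⟩
  intro N g hN hg
  refine ⟨?_, ?_⟩
  · have := herr2 N g ⟨hN, hg⟩
    linarith
  · intro a b hab
    exact upa_c hf hB hN hg a b hab

end Pool.Agent.T2h31.SB
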