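import Pool.Agent.T2h31.SB.Stm

/-!
(UPC) the energy of a placement, by the kinds of exchanges.
-/

set_option autoImplicit false

namespace Pool.Agent.T2h31.SB

namespace UPC

variable {n : ℕ}

lemma sum_ite_le {s : Finset ℕ} {φ : ℕ → Prop} [DecidablePred φ] {x : ℝ} (hx : 0 ≤ x)
    (h : ∀ i ∈ s, ∀ j ∈ s, φ i → φ j → i = j) : ∑ k ∈ s, (if φ k then x else 0) ≤ x := by
  rw [← Finset.sum_filter, Finset.sum_const, nsmul_eq_mul]
  have h1 : (s.filter φ).card ≤ 1 := by
    rw [Finset.card_le_one]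
    intro i hi j hj
    rw [Finset.mem_filter] at hi hj
    exact h i hi.1 j hj.1 hi.2 hj.2
  have h2 : ((s.filter φ).card : ℝ) ≤ 1 := by exact_mod_cast h1
  calc ((s.filter φ).card : ℝ) * x ≤ 1 * x := mul_le_mul_of_nonneg_right h2 hx
    _ = x := one_mul x

/-- the exchange moves at most the labels at the four positions -/
lemma sg_fix {k : ℕ} {w : ℤ} (h1 : |w| ≠ 2 * (k : ℤ) - 1) (h2 : |w| ≠ 2 * (k : ℤ) + 1)
    (h3 : Odd w) : sg (2 * (k : ℤ) - 1) (2 * (k : ℤ) + 1) w = w := by
  rw [Int.odd_iff] at h3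
  unfold sg
  rcases abs_cases w with ⟨h4, h5⟩ | ⟨h4, h5⟩ <;> rw [h4] at h1 h2 <;> split_ifs <;> omega

lemma sm_single {k : ℕ} {g : Fin n → ℤ} (hodd : ∀ x, Odd (g x)) {a : Fin n} {v : ℤ}
    (hv : sg (2 * (k : ℤ) - 1) (2 * (k : ℤ) + 1) (g a) = v)
    (ho : ∀ b, b ≠ a → |g b| ≠ 2 * (k : ℤ) - 1 ∧ |g b| ≠ 2 * (k : ℤ) + 1) :
    sm k g = Function.update g a v := by
  funext x
  by_cases hx : x = a
  · subst hx
    rw [Function.update_self]
    exact hv
  · rw [Function.update_of_ne hx]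
    exact sg_fix (ho x hx).1 (ho x hx).2 (hodd x)

lemma sm_id {k : ℕ} {g : Fin n → ℤ} (hodd : ∀ x, Odd (g x))
    (ho : ∀ b, |g b| ≠ 2 * (k : ℤ) - 1 ∧ |g b| ≠ 2 * (k : ℤ) + 1) : sm k g = g := by
  funext x
  exact sg_fix (ho x).1 (ho x).2 (hodd x)

end UPC

open UPC

theorem t_UPC : S_UPC := by
  classical
  intro n N R F g hg
  obtain ⟨hr, hd, -⟩ := mem_cfg.1 hg
  have hodd : ∀ x, Odd (g x) := fun x => (hr x).2.2
  have hodd' : ∀ x, g x % 2 = 1 := fun x => Int.odd_iff.1 (hodd x)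
  have habs : ∀ a b, a ≠ b → |g a| ≠ |g b| := by
    intro a b hab h
    rcases abs_eq_abs.1 h with h' | h'
    · exact (hd a b hab).1 h'
    · exact (hd a b hab).2 h'
  set A : Fin n → ℝ := fun a => if g a + 2 < 2 * (N : ℤ) then
    (F (Function.update g a (g a + 2)) - F g) ^ 2 else 0 with hAdef
  set B : Fin n → ℝ := fun a => if -(2 * (N : ℤ)) < g a - 2 then
    (F (Function.update g a (g a - 2)) - F g) ^ 2 else 0 with hBdef
  set C : Fin n × Fin n → ℝ := fun p => (F (mv |g p.1| |g p.2| g) - F g) ^ 2 with hCdef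
  have hA : ∀ a, 0 ≤ A a := by
    intro a
    simp only [hAdef]
    split_ifs with h
    · exact sq_nonneg _
    · exact le_rfl
  have hB : ∀ a, 0 ≤ B a := by
    intro a
    simp only [hBdef]
    split_ifs with h
    · exact sq_nonneg _
    · exact le_rfl
  have hC : ∀ p : Fin n × Fin n, 0 ≤ C p := fun p => sq_nonneg _
  have hcc : ∀ k ∈ Finset.range N, 0 ≤ cc N k ∧ cc N k ≤ (N : ℝ) ^ 2 / 2 := by
    intro k hk
    have h1 : (k : ℝ) ≤ N := by exact_mod_cast (Finset.mem_range.1 hk).le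
    have h2 : (0 : ℝ) ≤ k := Nat.cast_nonneg k
    unfold cc
    constructor <;> nlinarith
  -- the three kinds
  have key : ∀ k ∈ Finset.range N, (F (sm k g) - F g) ^ 2 ≤
      (∑ a, if g a = 2 * (k : ℤ) - 1 ∨ g a = -(2 * (k : ℤ) + 1) then A a else 0) +
      (∑ a, if g a = 2 * (k : ℤ) + 1 ∨ g a = -(2 * (k : ℤ) - 1) then B a else 0) +
      ∑ p ∈ Finset.univ.filter (fun p : Fin n × Fin n => |g p.2| = |g p.1| + 2),
        if |g p.1| = 2 * (k : ℤ) - 1 then C p else 0 := by
    intro k hk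
    have hkN : k < N := Finset.mem_range.1 hk
    have n1 : 0 ≤ ∑ a, if g a = 2 * (k : ℤ) - 1 ∨ g a = -(2 * (k : ℤ) + 1) then A a else 0 :=
      Finset.sum_nonneg fun a _ => by split_ifs; exacts [hA a, le_rfl]
    have n2 : 0 ≤ ∑ a, if g a = 2 * (k : ℤ) + 1 ∨ g a = -(2 * (k : ℤ) - 1) then B a else 0 :=
      Finset.sum_nonneg fun a _ => by split_ifs; exacts [hB a, le_rfl]
    have n3 : 0 ≤ ∑ p ∈ Finset.univ.filter (fun p : Fin n × Fin n => |g p.2| = |g p.1| + 2),
        if |g p.1| = 2 * (k : ℤ) - 1 then C p else 0 :=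
      Finset.sum_nonneg fun p hp => by
        split_ifs
        · exact hC p
        · exact le_rfl
    -- an up or down move of a single label
    have hsingle : ∀ a, (|g a| = 2 * (k : ℤ) - 1 ∨ |g a| = 2 * (k : ℤ) + 1) →
        (∀ b, b ≠ a → |g b| ≠ 2 * (k : ℤ) - 1 ∧ |g b| ≠ 2 * (k : ℤ) + 1) →
        (F (sm k g) - F g) ^ 2 ≤
          (∑ a, if g a = 2 * (k : ℤ) - 1 ∨ g a = -(2 * (k : ℤ) + 1) then A a else 0) +
          (∑ a, if g a = 2 * (k : ℤ) + 1 ∨ g a = -(2 * (k : ℤ) - 1) then B a else 0) := by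
      intro a ha ho
      have h0 : g a = 2 * (k : ℤ) - 1 ∨ g a = -(2 * (k : ℤ) + 1) ∨ g a = 2 * (k : ℤ) + 1 ∨
          g a = -(2 * (k : ℤ) - 1) := by
        rcases abs_cases (g a) with ⟨h4, h5⟩ | ⟨h4, h5⟩ <;> rw [h4] at ha <;> omega
      have up : (g a = 2 * (k : ℤ) - 1 ∨ g a = -(2 * (k : ℤ) + 1)) → (F (sm k g) - F g) ^ 2 ≤
          (∑ a, if g a = 2 * (k : ℤ) - 1 ∨ g a = -(2 * (k : ℤ) + 1) then A a else 0) := by
        intro h
        have e1 : sm k g = Function.update g a (g a + 2) := by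
          apply sm_single hodd _ ho
          unfold sg
          rcases h with h | h <;> rw [h] <;> split_ifs <;> omega
        have h3 : (if g a = 2 * (k : ℤ) - 1 ∨ g a = -(2 * (k : ℤ) + 1) then A a else 0) ≤
            ∑ a, if g a = 2 * (k : ℤ) - 1 ∨ g a = -(2 * (k : ℤ) + 1) then A a else 0 :=
          Finset.single_le_sum
            (f := fun a => if g a = 2 * (k : ℤ) - 1 ∨ g a = -(2 * (k : ℤ) + 1) then A a else 0)
            (fun x _ => by beta_reduce; split_ifs; exacts [hA x, le_rfl]) (Finset.mem_univ a)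
        rw [if_pos h] at h3
        have h4 : A a = (F (sm k g) - F g) ^ 2 := by
          rw [e1]
          simp only [hAdef]
          rw [if_pos (by omega)]
        linarith
      have down : (g a = 2 * (k : ℤ) + 1 ∨ g a = -(2 * (k : ℤ) - 1)) → (F (sm k g) - F g) ^ 2 ≤
          (∑ a, if g a = 2 * (k : ℤ) + 1 ∨ g a = -(2 * (k : ℤ) - 1) then B a else 0) := by
        intro h
        have e1 : sm k g = Function.update g a (g a - 2) := by
          apply sm_single hodd _ ho
          unfold sg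
          rcases h with h | h <;> rw [h] <;> split_ifs <;> omega
        have h3 : (if g a = 2 * (k : ℤ) + 1 ∨ g a = -(2 * (k : ℤ) - 1) then B a else 0) ≤
            ∑ a, if g a = 2 * (k : ℤ) + 1 ∨ g a = -(2 * (k : ℤ) - 1) then B a else 0 :=
          Finset.single_le_sum
            (f := fun a => if g a = 2 * (k : ℤ) + 1 ∨ g a = -(2 * (k : ℤ) - 1) then B a else 0)
            (fun x _ => by beta_reduce; split_ifs; exacts [hB x, le_rfl]) (Finset.mem_univ a)
        rw [if_pos h] at h3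
        have h4 : B a = (F (sm k g) - F g) ^ 2 := by
          rw [e1]
          simp only [hBdef]
          rw [if_pos (by omega)]
        linarith
      rcases h0 with h | h | h | h
      · linarith [up (Or.inl h)]
      · linarith [up (Or.inr h)]
      · linarith [down (Or.inl h)]
      · linarith [down (Or.inr h)]
    by_cases h1 : ∃ a, |g a| = 2 * (k : ℤ) - 1
    · obtain ⟨a, ha⟩ := h1
      by_cases h2 : ∃ b, |g b| = 2 * (k : ℤ) + 1
      · obtain ⟨b, hb⟩ := h2
        have h3 : (if |g (a, b).1| = 2 * (k : ℤ) - 1 then C (a, b) else 0) ≤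
            ∑ p ∈ Finset.univ.filter (fun p : Fin n × Fin n => |g p.2| = |g p.1| + 2),
              if |g p.1| = 2 * (k : ℤ) - 1 then C p else 0 := by
          refine Finset.single_le_sum
            (f := fun p : Fin n × Fin n => if |g p.1| = 2 * (k : ℤ) - 1 then C p else 0)
            (fun p hp => ?_) (Finset.mem_filter.2 ⟨Finset.mem_univ (a, b), ?_⟩)
          · beta_reduce
            split_ifs
            · exact hC p
            · exact le_rfl
          · show |g b| = |g a| + 2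
            omega
        rw [if_pos ha] at h3
        have h4 : C (a, b) = (F (sm k g) - F g) ^ 2 := by
          show (F (mv |g a| |g b| g) - F g) ^ 2 = _
          rw [ha, hb]
          rfl
        linarith
      · push Not at h2
        have h5 := hsingle a (Or.inl ha) (fun b hb => ⟨fun h => habs b a hb (h.trans ha.symm), h2 b⟩)
        linarith
    · push Not at h1
      by_cases h2 : ∃ b, |g b| = 2 * (k : ℤ) + 1
      · obtain ⟨b, hb⟩ := h2
        have h5 := hsingle b (Or.inr hb) (fun c hc => ⟨h1 c, fun h => habs c b hc (h.trans hb.symm)⟩)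
        linarith
      · push Not at h2
        rw [sm_id hodd (fun b => ⟨h1 b, h2 b⟩), sub_self]
        have : (0 : ℝ) ^ 2 = 0 := by ring
        rw [this]
        linarith
  have key2 : ∀ k ∈ Finset.range N,
      (if sm k g ∈ cfg N R then cc N k * (F (sm k g) - F g) ^ 2 else 0) ≤ (N : ℝ) ^ 2 / 2 *
      ((∑ a, if g a = 2 * (k : ℤ) - 1 ∨ g a = -(2 * (k : ℤ) + 1) then A a else 0) +
      (∑ a, if g a = 2 * (k : ℤ) + 1 ∨ g a = -(2 * (k : ℤ) - 1) then B a else 0) +
      ∑ p ∈ Finset.univ.filter (fun p : Fin n × Fin n => |g p.2| = |g p.1| + 2),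
        if |g p.1| = 2 * (k : ℤ) - 1 then C p else 0) := by
    intro k hk
    obtain ⟨c0, c1⟩ := hcc k hk
    have h1 := key k hk
    have h2 : (if sm k g ∈ cfg N R then cc N k * (F (sm k g) - F g) ^ 2 else 0) ≤
        cc N k * (F (sm k g) - F g) ^ 2 := by
      split_ifs
      · exact le_rfl
      · exact mul_nonneg c0 (sq_nonneg _)
    refine h2.trans ?_
    exact (mul_le_mul_of_nonneg_right c1 (sq_nonneg _)).trans
      (mul_le_mul_of_nonneg_left h1 (by positivity))
  have h1 := Finset.sum_le_sum key2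
  rw [← Finset.mul_sum, Finset.sum_add_distrib, Finset.sum_add_distrib] at h1
  have e1 : ∑ k ∈ Finset.range N,
      ∑ a, (if g a = 2 * (k : ℤ) - 1 ∨ g a = -(2 * (k : ℤ) + 1) then A a else 0) ≤ ∑ a, A a := by
    rw [Finset.sum_comm]
    exact Finset.sum_le_sum fun a _ => sum_ite_le (hA a) fun i _ j _ hi hj => by omega
  have e2 : ∑ k ∈ Finset.range N,
      ∑ a, (if g a = 2 * (k : ℤ) + 1 ∨ g a = -(2 * (k : ℤ) - 1) then B a else 0) ≤ ∑ a, B a := by
    rw [Finset.sum_comm]
    exact Finset.sum_le_sum fun a _ => sum_ite_le (hB a) fun i _ j _ hi hj => by omega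
  have e3 : ∑ k ∈ Finset.range N,
      ∑ p ∈ Finset.univ.filter (fun p : Fin n × Fin n => |g p.2| = |g p.1| + 2),
        (if |g p.1| = 2 * (k : ℤ) - 1 then C p else 0) ≤
      ∑ p ∈ Finset.univ.filter (fun p : Fin n × Fin n => |g p.2| = |g p.1| + 2), C p := by
    rw [Finset.sum_comm]
    exact Finset.sum_le_sum fun p hp => sum_ite_le (hC p) fun i _ j _ hi hj => by omega
  unfold QQ
  refine h1.trans ?_
  apply mul_le_mul_of_nonneg_left _ (by positivity)
  linarith

end Pool.Agent.T2h31.SB
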