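import Pool.Agent.T2h31.SB.T_ADJ
import Pool.Agent.T2h31.SB.T_CON
import Pool.Agent.T2h31.SB.T_CONN
import Pool.Agent.T2h31.SB.T_DIV
import Pool.Agent.T2h31.SB.T_FIN
import Pool.Agent.T2h31.SB.T_GEN
import Pool.Agent.T2h31.SB.T_LAT
import Pool.Agent.T2h31.SB.T_MOM
import Pool.Agent.T2h31.SB.T_POI
import Pool.Agent.T2h31.SB.T_POS
import Pool.Agent.T2h31.SB.T_PT
import Pool.Agent.T2h31.SB.T_PVE
import Pool.Agent.T2h31.SB.T_RS
import Pool.Agent.T2h31.SB.T_SGB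
import Pool.Agent.T2h31.SB.T_SYM
import Pool.Agent.T2h31.SB.T_TRG
import Pool.Agent.T2h31.SB.T_UPA
import Pool.Agent.T2h31.SB.T_UPC
import Pool.Agent.T2h31.SB.T_VAR
import Pool.Agent.R372.OP.SYM
import Pool.Agent.R972.OP.La

/-!
# The bodies of type B: assembly

Parts by helpers 5, 7, 25, 32, 69, 71, 84 and 31.
-/

set_option autoImplicit false

namespace Pool.Agent.T2h31.SB

theorem lat_all : S_LAT :=
  t_LAT (t_CON (t_PT t_POS) t_SGB t_GEN) (t_CONN t_SGB) t_SGB Pool.Agent.R972.OP.la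

theorem poi_all : S_POI := t_POI lat_all t_RS t_ADJ t_UPC t_UPA

theorem var_all : S_VAR := t_VAR (t_SYM Pool.Agent.R372.OP.SYM.main) t_MOM t_DIV

theorem pve_all : S_PVE := t_PVE poi_all var_all t_TRG

theorem fin_all : S_FIN := t_FIN pve_all t_TRG

end Pool.Agent.T2h31.SB
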