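import Pool.Agent.R972.OP.Stm3

/-!
# The KLS inequality for the convex bodies cut out of the cube by the hyperplanes `x_i = ± x_j`, `x_i = 0`

Project SB (helper31) for MP_8d00da_gt. The bodies
`SK R = {x ∈ [-1,1]ⁿ | sv x p ≤ sv x q if R p q}`, where `p, q` are signed labels (`sv x (a, true) = x a`,
`sv x (a, false) = - x a`): all relations `x_a ≤ x_b`, `x_a + x_b ≤ 0`, `x_a + x_b ≥ 0`, `x_a ≥ 0`, `x_a ≤ 0`. Up to
`x ↦ (1 + x)/2` these are all fractional stable set polytopes of graphs, all order polytopes, the relaxations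
of all 2-SAT formulas. The proof is the one for order polytopes (`R972.OP`, type `A`) for the
hyperoctahedral group (type `B`); most of the tasks are adaptations of finished files.
-/

set_option autoImplicit false

namespace Pool.Agent.T2h31.SB

open MeasureTheory Set Filter Topology
open scoped ENNReal InnerProductSpace

section

variable {n : ℕ}

/-- signed labels -/
abbrev Lb (n : ℕ) : Type := Fin n × Bool

/-- the value of `g` at a signed label -/
def sv {A : Type} [Neg A] (g : Fin n → A) (p : Lb n) : A := if p.2 then g p.1 else -g p.1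

/-! ### placements of the labels `Fin n` on the odd positions between `- 2 N` and `2 N` -/

/-- the reflection which exchanges the positions `i` and `j`, and `-i` and `-j` -/
def sg (i j z : ℤ) : ℤ :=
  if z = i then j else if z = j then i else if z = -i then -j else if z = -j then -i else z

/-- exchange of the contents of the positions -/
def mv (i j : ℤ) (g : Fin n → ℤ) : Fin n → ℤ := fun a => sg i j (g a)

/-- the simple exchanges: of `2 k - 1` and `2 k + 1` (for `k = 0` a change of sign at the position one) -/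
def sm (k : ℕ) (g : Fin n → ℤ) : Fin n → ℤ := mv (2 * (k : ℤ) - 1) (2 * (k : ℤ) + 1) g

open Classical in
/-- admissible placements -/
noncomputable def cfg (N : ℕ) (R : Lb n → Lb n → Prop) : Finset (Fin n → ℤ) :=
  (Fintype.piFinset fun _ : Fin n => (Finset.Ioo (-(2 * (N : ℤ))) (2 * (N : ℤ))).filter
    fun z => Odd z).filter
      fun g => (∀ a b, a ≠ b → g a ≠ g b ∧ g a ≠ -g b) ∧ ∀ p q, R p q → sv g p < sv g q

theorem mem_cfg {N : ℕ} {R : Lb n → Lb n → Prop} {g : Fin n → ℤ} : g ∈ cfg N R ↔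
    (∀ a, -(2 * (N : ℤ)) < g a ∧ g a < 2 * (N : ℤ) ∧ Odd (g a)) ∧
    (∀ a b, a ≠ b → g a ≠ g b ∧ g a ≠ -g b) ∧ ∀ p q, R p q → sv g p < sv g q := by
  unfold cfg
  simp only [Finset.mem_filter, Fintype.mem_piFinset, Finset.mem_Ioo, and_assoc]

/-- the rates -/
noncomputable def cc (N k : ℕ) : ℝ := ((N : ℝ) ^ 2 - (k : ℝ) ^ 2) / 2

open Classical in
/-- contribution of the exchange `k` to the generator -/
noncomputable def tt (N : ℕ) (R : Lb n → Lb n → Prop) (F : (Fin n → ℤ) → ℝ) (g : Fin n → ℤ)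
    (k : ℕ) : ℝ :=
  if sm k g ∈ cfg N R then cc N k * (F (sm k g) - F g) else 0

/-- generator -/
noncomputable def LL (N : ℕ) (R : Lb n → Lb n → Prop) (F : (Fin n → ℤ) → ℝ) (g : Fin n → ℤ) : ℝ :=
  ∑ k ∈ Finset.range N, tt N R F g k

open Classical in
/-- local energy -/
noncomputable def QQ (N : ℕ) (R : Lb n → Lb n → Prop) (F : (Fin n → ℤ) → ℝ) (g : Fin n → ℤ) : ℝ :=
  ∑ k ∈ Finset.range N, if sm k g ∈ cfg N R then cc N k * (F (sm k g) - F g) ^ 2 else 0

/-- `F` is Lipschitz with the constant `M` for all exchanges -/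
def Lp (N : ℕ) (R : Lb n → Lb n → Prop) (F : (Fin n → ℤ) → ℝ) (M : ℝ) : Prop :=
  ∀ g ∈ cfg N R, ∀ i j : ℤ, Odd i → Odd j → -(2 * (N : ℤ)) < i → i < j → j < 2 * (N : ℤ) →
    mv i j g ∈ cfg N R → |F (mv i j g) - F g| ≤ M * ((j : ℝ) - i)

end

/-! ### A: the lattice inequality -/

/-- POS (100 lines, integers only, `omega` after `unfold sg; split_ifs`; checked by computer). Let `t = sg (2 k - 1) (2 k + 1)`,
`s = sg i j`. (1) `t (s z) = sg (t i) (t j) (t z)`. (2) `t j ≤ t i` only if `s = t`. (3) If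
`s (2k-1) < s (2k+1)` and `(s (2k-1), s (2k+1))` is neither `(2k-1, 2k+1)` nor `(-(2k+1), -(2k-1))` then
`2 ≤ (t j - j) - (t i - i)`. (4) If it is one of the two then `0 ≤ (t j - j) - (t i - i)`. (5) `t` is increasing at
all pairs of odd numbers except `(2k-1, 2k+1)` and `(-(2k+1), -(2k-1))`. (6) `t` is odd and an involution, and
keeps the range and the parity. -/
def S_POS : Prop := ∀ (k : ℕ) (i j : ℤ), Odd i → Odd j → i < j →
  (∀ z, sg (2 * k - 1) (2 * k + 1) (sg i j z) =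
    sg (sg (2 * k - 1) (2 * k + 1) i) (sg (2 * k - 1) (2 * k + 1) j)
      (sg (2 * k - 1) (2 * k + 1) z)) ∧
  (sg (2 * k - 1) (2 * k + 1) j ≤ sg (2 * k - 1) (2 * k + 1) i →
    ∀ z, sg i j z = sg (2 * k - 1) (2 * k + 1) z) ∧
  (sg i j (2 * k - 1) < sg i j (2 * k + 1) →
    ¬ (sg i j (2 * k - 1) = 2 * k - 1 ∧ sg i j (2 * k + 1) = 2 * k + 1) →
    ¬ (sg i j (2 * k - 1) = -(2 * k + 1) ∧ sg i j (2 * k + 1) = -(2 * k - 1)) →
    2 ≤ (sg (2 * k - 1) (2 * k + 1) j - j) - (sg (2 * k - 1) (2 * k + 1) i - i)) ∧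
  ((sg i j (2 * k - 1) = 2 * k - 1 ∧ sg i j (2 * k + 1) = 2 * k + 1) ∨
    (sg i j (2 * k - 1) = -(2 * k + 1) ∧ sg i j (2 * k + 1) = -(2 * k - 1)) →
    0 ≤ (sg (2 * k - 1) (2 * k + 1) j - j) - (sg (2 * k - 1) (2 * k + 1) i - i)) ∧
  (sg (2 * k - 1) (2 * k + 1) j ≤ sg (2 * k - 1) (2 * k + 1) i →
    (i = 2 * k - 1 ∧ j = 2 * k + 1) ∨ (i = -(2 * k + 1) ∧ j = -(2 * k - 1)))

/-- SGB (60 lines, `omega`): basic facts on `sg`: it is odd, an involution, it keeps the range, the parity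
and the placements which satisfy the relations up to the order. -/
def S_SGB : Prop := (∀ i j z : ℤ, i ≠ 0 → j ≠ 0 → sg i j (-z) = -sg i j z) ∧
  (∀ i j z : ℤ, i ≠ 0 → j ≠ 0 → sg i j (sg i j z) = z) ∧
  (∀ (N : ℕ) (i j z : ℤ), Odd i → Odd j → -(2 * (N : ℤ)) < i → i < 2 * (N : ℤ) →
    -(2 * (N : ℤ)) < j → j < 2 * (N : ℤ) → Odd z → -(2 * (N : ℤ)) < z → z < 2 * (N : ℤ) →
    Odd (sg i j z) ∧ -(2 * (N : ℤ)) < sg i j z ∧ sg i j z < 2 * (N : ℤ)) ∧
  ∀ (n N : ℕ) (R : Lb n → Lb n → Prop) (g : Fin n → ℤ) (i j : ℤ), Odd i → Odd j →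
    -(2 * (N : ℤ)) < i → i < 2 * (N : ℤ) → -(2 * (N : ℤ)) < j → j < 2 * (N : ℤ) → g ∈ cfg N R →
    (mv i j g ∈ cfg N R ↔ ∀ p q, R p q → sg i j (sv g p) < sg i j (sv g q)) ∧
    ∀ p, sv (mv i j g) p = sg i j (sv g p)

/-- GEN (60 lines): the generator of one particle maps the position to its negative. For `z = 2 m - 1 > 0` only
`k = m` (if `m < N`; `cc N N = 0`) and `k = m - 1` contribute: `2 cc N m - 2 cc N (m-1) = -(2m-1)`; `z < 0` by
symmetry. -/
def S_GEN : Prop := ∀ (N : ℕ) (z : ℤ), Odd z → -(2 * (N : ℤ)) < z → z < 2 * (N : ℤ) →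
  ∑ k ∈ Finset.range N, cc N k * ((sg (2 * (k : ℤ) - 1) (2 * (k : ℤ) + 1) z - z : ℤ) : ℝ) = -(z : ℝ)

/-- PT (200 lines; takes S_POS, S_SGB; compare R780/OP/Pt.lean): the coupling, one exchange. Let `s' = mv i j s`,
`σ = sg i j`, `t = sg (2k-1) (2k+1)`. If `sm k s` and `sm k s'` are both admissible then
`sm k s' = mv (t i) (t j) (sm k s)` (POS (1)), so `F (sm k s') - F (sm k s) ≤ M (t j - t i)`: by `Lp` if
`t i < t j`; otherwise `mv i j = sm k` (POS (2)), `sm k s' = s`, `sm k s = s'`, equality. This is the claim. If one of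
them is not admissible then by SGB there are `p, q` with `R p q` and, by POS (5), `(sv s p, sv s q)` (respectively
`(sv s' p, sv s' q)`) is `(2k-1, 2k+1)` or `(-(2k+1), -(2k-1))`; as `s'` (respectively `s`) is in `cfg` and
`sv s' p = σ (sv s p)` we get `σ (2k-1) < σ (2k+1)`. If `σ` maps the pair `(2k-1, 2k+1)` to itself or to
`(-(2k+1), -(2k-1))` then `sm k s`, `sm k s'` are both not admissible, and the claim is `0 ≤ ...` (POS (4)).
Otherwise the right-hand side is at least `2 M cc N k` (POS (3)), and the left-hand side is at most this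
by `Lp` (at most one of the two terms is not zero, or both are zero). -/
def S_PT : Prop := ∀ (n N : ℕ) (R : Lb n → Lb n → Prop) (F : (Fin n → ℤ) → ℝ) (M : ℝ), 0 ≤ M →
  Lp N R F M → ∀ s ∈ cfg N R, ∀ i j : ℤ, Odd i → Odd j → -(2 * (N : ℤ)) < i → i < j →
  j < 2 * (N : ℤ) → mv i j s ∈ cfg N R → F (mv i j s) - F s = M * ((j : ℝ) - i) →
  ∀ k, k < N → tt N R F (mv i j s) k - tt N R F s k ≤ M * (cc N k *
    (((sg (2 * (k : ℤ) - 1) (2 * (k : ℤ) + 1) j - j) -
      (sg (2 * (k : ℤ) - 1) (2 * (k : ℤ) + 1) i - i) : ℤ) : ℝ))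

/-- CON (130 lines; takes S_PT, S_SGB, S_GEN; adapt R560/OP/OpCon.lean): eigenvalues of nonconstant eigenfunctions
are at least one. `M > 0` the largest of the finitely many quotients `|F (mv i j g) - F g| / (j - i)`, attained at
`g, i, j`, with a positive difference (replace `g` by `mv i j g`, `mv` is an involution); sum PT over `k < N` and
use GEN: `- lam M (j - i) ≤ - M (j - i)`. -/
def S_CON : Prop := ∀ (n N : ℕ) (R : Lb n → Lb n → Prop) (lam : ℝ) (F : (Fin n → ℤ) → ℝ),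
  (∀ g ∈ cfg N R, LL N R F g = -lam * F g) →
  (∃ g ∈ cfg N R, ∃ k, k < N ∧ sm k g ∈ cfg N R ∧ F (sm k g) ≠ F g) → 1 ≤ lam

/-- CONN (150 lines; takes S_SGB; compare R574/OP/Conn.lean): connectivity. Induction on `∑ a, (g a - h a)^2`. If `g ≠ h`
let `p` be a signed label with `sv g p < sv h p` and `z = sv g p` maximal. The exchange of `z` and `z + 2` is simple
(`k = (z+1)/2` if `z > 0` or `z = -1`, `k = -(z+1)/2` if `z < -1`). It is admissible for `g`: the only relations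
which change are between `p` and the signed label `q` with `sv g q = z + 2`, if there is one (and the mirror
images); then `sv h q ≤ z + 2 ≤ sv h p` by the maximality and parity, so `sv h q < sv h p`, and `R p q` is
impossible as `h ∈ cfg` (`q = (p.1, !p.2)` if `z = -1`: `sv h p ≥ 1`). The sum decreases: by
`4 (sv h p - sv h q) / 2 · 2 > 0` if there is `q` (compute), by `4 (sv h p - z) - 4 > 0` if there is none. -/
def S_CONN : Prop := ∀ (n N : ℕ) (R : Lb n → Lb n → Prop) (F : (Fin n → ℤ) → ℝ),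
  (∀ g ∈ cfg N R, ∀ k, k < N → sm k g ∈ cfg N R → F (sm k g) = F g) →
  ∀ g ∈ cfg N R, ∀ h ∈ cfg N R, F g = F h

/-- LAT (100 lines; takes S_CON, S_CONN, S_SGB and `h : Pool.Agent.R972.OP.S_LA`; adapt R928/OPLat.lean): the lattice
inequality. `w g h = ∑ k < N, if sm k g = h then cc N k else 0` on the subtype of `cfg N R`. -/
def S_LAT : Prop := ∀ (n N : ℕ) (R : Lb n → Lb n → Prop) (F : (Fin n → ℤ) → ℝ),
  ((cfg N R).card : ℝ) * ∑ g ∈ cfg N R, F g ^ 2 - (∑ g ∈ cfg N R, F g) ^ 2 ≤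
    (cfg N R).card * (1 / 2 * ∑ g ∈ cfg N R, QQ N R F g)

/-! ### B: the limit -/

section

variable {n : ℕ}

/-- the convex body in `[-1,1]ⁿ` -/
def SK (R : Lb n → Lb n → Prop) : Set (Fin n → ℝ) :=
  {x | (∀ i, -1 ≤ x i ∧ x i ≤ 1) ∧ ∀ p q, R p q → sv x p ≤ sv x q}

/-- lattice points of the cube -/
noncomputable def lp (N : ℕ) (g : Fin n → ℤ) : Fin n → ℝ := fun a => (g a : ℝ) / (2 * N)

/-- number of ordered pairs of labels at neighbouring positions, up to the sign -/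
noncomputable def adj (g : Fin n → ℤ) : ℕ :=
  (Finset.univ.filter fun p : Fin n × Fin n => |g p.2| = |g p.1| + 2).card

/-- partial derivative -/
noncomputable def pd (f : (Fin n → ℝ) → ℝ) (a : Fin n) (x : Fin n → ℝ) : ℝ :=
  fderiv ℝ f x (Pi.single a 1)

end

/-- RS (250 lines; compare R364/OP/RS.lean): Riemann sums. The cubes `∏ [g a - 1, g a + 1] / (2 N)`, `g` with odd
coordinates, tile the cube and have volume `N⁻ⁿ`; the function which is `G (lp N g)` on the cube of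
`g ∈ cfg N R` and zero on the other cubes converges to `G` at the points of the cube with
`sv x p < sv x q` for `R p q` and `|x a|` all different, and to zero where `sv x q < sv x p` for some `R p q`; dominated
convergence; the exceptional set is contained in finitely many hyperplanes. -/
def S_RS : Prop := ∀ (n : ℕ) (R : Lb n → Lb n → Prop), (∀ p, ¬ R p p) →
  ∀ G : (Fin n → ℝ) → ℝ, Continuous G →
  Tendsto (fun N : ℕ => (∑ g ∈ cfg N R, G (lp N g)) / (N : ℝ) ^ n) atTop (𝓝 (∫ x in SK R, G x))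

/-- ADJ (100 lines; adapt R372/OP/ADJ.lean): few placements have labels at neighbouring positions: for `a ≠ b` at most
`4 (2N)^(n-1)` functions `g` with values in the `2N` positions satisfy `|g b| = |g a| + 2`. -/
def S_ADJ : Prop := ∀ (n : ℕ) (R : Lb n → Lb n → Prop),
  Tendsto (fun N : ℕ => (∑ g ∈ cfg N R, (adj g : ℝ)) / (N : ℝ) ^ n) atTop (𝓝 0)

/-- UPC (180 lines; adapt R972/OP/UPC.lean): the energy of a placement, by the kinds of exchanges. `cc N k ≤ N²/2`. The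
exchange `k` moves the labels with `|g a| = 2k - 1` or `2k + 1`, at most one each: if there are both it is the
exchange of `|g a|` and `|g b|`; if there is only one it moves it by `2` or `-2`; a label is moved up
(down) by one `k` only. -/
def S_UPC : Prop := ∀ (n N : ℕ) (R : Lb n → Lb n → Prop) (F : (Fin n → ℤ) → ℝ),
  ∀ g ∈ cfg N R, QQ N R F g ≤ (N : ℝ) ^ 2 / 2 *
    (∑ a, (if g a + 2 < 2 * (N : ℤ) then (F (Function.update g a (g a + 2)) - F g) ^ 2 else 0) +
    ∑ a, (if -(2 * (N : ℤ)) < g a - 2 then (F (Function.update g a (g a - 2)) - F g) ^ 2 else 0) +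
    ∑ p ∈ Finset.univ.filter (fun p : Fin n × Fin n => |g p.2| = |g p.1| + 2),
      (F (mv |g p.1| |g p.2| g) - F g) ^ 2)

/-- UPA (250 lines; adapt R874/OP/Upb.lean or R364/OP/UPA.lean): asymptotics of the right-hand side. Each move changes
one coordinate by `1/N`: uniform continuity of `fderiv f` on a compact set. -/
def S_UPA : Prop := ∀ (n : ℕ) (f : (Fin n → ℝ) → ℝ), ContDiff ℝ 1 f →
  ∃ (err : ℕ → ℝ) (C : ℝ), Tendsto err atTop (𝓝 0) ∧ 0 ≤ C ∧
  ∀ (N : ℕ) (g : Fin n → ℤ), 0 < N → (∀ a, -(2 * (N : ℤ)) < g a ∧ g a < 2 * (N : ℤ)) →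
  ((N : ℝ) ^ 2 / 2 * (∑ a, (if g a + 2 < 2 * (N : ℤ) then
        (f (lp N (Function.update g a (g a + 2))) - f (lp N g)) ^ 2 else 0) +
      ∑ a, (if -(2 * (N : ℤ)) < g a - 2 then
        (f (lp N (Function.update g a (g a - 2))) - f (lp N g)) ^ 2 else 0)) ≤
    ∑ a, pd f a (lp N g) ^ 2 + err N) ∧
  ∀ a b, |g b| = |g a| + 2 →
    (N : ℝ) ^ 2 / 2 * (f (lp N (mv |g a| |g b| g)) - f (lp N g)) ^ 2 ≤ C

/-- POI (140 lines; takes S_LAT, S_RS, S_ADJ, S_UPC, S_UPA; adapt H152R2/OP/Poi.lean): Poincare's inequality. -/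
def S_POI : Prop := ∀ (n : ℕ) (R : Lb n → Lb n → Prop), (∀ p, ¬ R p p) →
  ∀ f : (Fin n → ℝ) → ℝ, ContDiff ℝ 1 f →
  (volume (SK R)).toReal * (∫ x in SK R, f x ^ 2) - (∫ x in SK R, f x) ^ 2 ≤
    (volume (SK R)).toReal * (1 / 2 * ∫ x in SK R, ∑ a, pd f a x ^ 2)

/-! ### C: a linear functional of large variance -/

/-- SYM (150 lines; takes `h : Pool.Agent.R972.OP.S_SYM`, the case of order polytopes): symmetric even functions
have the same means over all bodies. `SK R` is the union of its parts in the orthants (which overlap in null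
sets); the part in the orthant of the signs `ε` is the image under `y ↦ ε y` of `{y ∈ [0,1]ⁿ | ε y ∈ SK R}`; every
relation `sv x p ≤ sv x q` becomes trivial, `y_a ≤ y_b`, or (for a positive value of `p` and a negative one of `q`) it
forces `y_a = 0`, so this set is an order polytope `OPp` or a null set. -/
def S_SYM : Prop := ∀ (n : ℕ) (R : Lb n → Lb n → Prop) (G : (Fin n → ℝ) → ℝ), Continuous G →
  (∀ (p : Equiv.Perm (Fin n)) (x : Fin n → ℝ), G (fun i => x (p i)) = G x) →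
  (∀ (s : Fin n → Bool) (x : Fin n → ℝ), G (fun i => if s i then x i else -x i) = G x) →
  ∫ x in SK R, G x = (volume (SK R)).toReal *
    ∫ x in Pool.Agent.R972.OP.OPp (fun _ _ : Fin n => False), G x

/-- MOM (100 lines; adapt R372/OP/MOM.lean): moments on the cube `[0,1]ⁿ`: `∫ (x - x³)² = 8/105`,
`∫ (3 x² - 1) = 0`, `∫ (3 x² - 1)² = 4/5`. -/
def S_MOM : Prop := ∀ n : ℕ,
  (∫ x in Pool.Agent.R972.OP.OPp (fun _ _ : Fin n => False), ∑ i, (x i - x i ^ 3) ^ 2 =
    8 * (n : ℝ) / 105) ∧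
  (∫ x in Pool.Agent.R972.OP.OPp (fun _ _ : Fin n => False), (∑ i, (3 * x i ^ 2 - 1)) ^ 2 =
    4 * (n : ℝ) / 5)

/-- DIV (200 lines): integration by parts with the vector field `v(x) = (x_i - x_i³)`, whose flow preserves `SK R`. For
`|t| < 1/4` the map `φ(s) = s + t (s - s³)` is an odd increasing bijection of `[-1,1]`, so `T x = (φ (x_i))` is a
bijection of `SK R` and the change of variables (`integral_image_eq_integral_abs_det_fderiv_smul`, diagonal
matrix) gives `∫ (∑ u_i (x_i + t v_i)) ∏ (1 + t (1 - 3 x_j²)) = ∫ ∑ u_i x_i` on `SK R`. Both sides are polynomials in `t`;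
compare the coefficients of `t` (or differentiate at `t = 0`). The second identity: the same without
`∑ u_i x_i`. -/
def S_DIV : Prop := ∀ (n : ℕ) (R : Lb n → Lb n → Prop) (u : Fin n → ℝ),
  (∫ x in SK R, (∑ i, u i * x i) * ∑ i, (3 * x i ^ 2 - 1) =
    ∫ x in SK R, ∑ i, u i * (x i - x i ^ 3)) ∧
  ∫ x in SK R, ∑ i, (3 * x i ^ 2 - 1) = 0

/-- VAR (200 lines; takes S_SYM, S_MOM, S_DIV): a direction of variance at least `1/63`. Let `E` be the mean over
`SK R`, `m = E x`, `D = ∑ Var x_i`, `v(s) = s - s³`, `h = ∑ (3 x_i² - 1)`, so `E h = 0`, `E h² = 4n/5`. If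
`D ≥ n/63` take a coordinate. Otherwise: `∑ Var v(x_i) ≤ 4 D` (`|v(a) - v(b)| ≤ 2 |a - b|` on `[-1,1]`,
`Var v(x_i) ≤ E (v(x_i) - v(m_i))²`), so with `y = E v(x)` we have
`|y|² = E |v(x)|² - ∑ Var v(x_i) ≥ 8n/105 - 4D > 0`. Take `u = y/|y|`: by DIV `E (⟨u,x⟩ h) = ⟨u,y⟩ = |y|`, so
Cauchy-Schwarz gives `|y|² ≤ Var ⟨u,x⟩ · E h²`, so `Var ⟨u,x⟩ ≥ (8/105 - 4 D/n) 5/4 ≥ 1/63`. -/
def S_VAR : Prop := ∀ (n : ℕ) (R : Lb n → Lb n → Prop), 1 ≤ n → 0 < volume (SK R) →
  ∃ u : Fin n → ℝ, ∑ i, u i ^ 2 = 1 ∧ 1 / 63 * (volume (SK R)).toReal ^ 2 ≤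
    (volume (SK R)).toReal * (∫ x in SK R, (∑ i, u i * x i) ^ 2) -
      (∫ x in SK R, ∑ i, u i * x i) ^ 2

/-! ### D: Euclidean space -/

open Pool.Agent.W695.KH (Eu EV VV)

/-- the body in Euclidean space -/
def SE {n : ℕ} (R : Lb n → Lb n → Prop) : Set (Eu (Fin n)) :=
  {x | (∀ i, -1 ≤ x i ∧ x i ≤ 1) ∧ ∀ p q, R p q → sv (fun i => x i) p ≤ sv (fun i => x i) q}

/-- TRG (120 lines; adapt R441/OPTR.lean and R609/OP/Geo.lean): transfer; compact and convex. -/
def S_TRG : Prop := ∀ (n : ℕ) (R : Lb n → Lb n → Prop), volume (SE R) = volume (SK R) ∧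
  (∀ G : Eu (Fin n) → ℝ, ∫ x in SE R, G x = ∫ x in SK R, G (WithLp.toLp 2 x)) ∧
  IsCompact (SE R) ∧ Convex ℝ (SE R)

/-- PVE (150 lines; takes S_POI, S_VAR, S_TRG; adapt R711/POBE.lean): Poincare's inequality and the variance in
Euclidean space. Replace `R` by `R p q ∧ p ≠ q`, which gives the same body. -/
def S_PVE : Prop := ∀ (n : ℕ) (R : Lb n → Lb n → Prop), 0 < volume (SE R) →
  (∀ f : Eu (Fin n) → ℝ, ContDiff ℝ 1 f →
    VV (SE R) f ≤ 1 / 2 * EV (SE R) fun x => ‖fderiv ℝ f x‖ ^ 2) ∧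
  (1 ≤ n → ∃ θ : Eu (Fin n), ‖θ‖ = 1 ∧ 1 / 63 ≤ VV (SE R) fun x => ⟪x, θ⟫_ℝ)

/-- the uniform measure -/
noncomputable def un {n : ℕ} (K : Set (Eu (Fin n))) : Measure (Eu (Fin n)) :=
  (volume K)⁻¹ • volume.restrict K

/-- FIN (200 lines; takes S_PVE, S_TRG; adapt `all_of` of R972/OP/All2.lean and `sets`, `half_form` of
R972/OP/Fin.lean; `bodl_all` of R972/OP/All2.lean, `Pool.Agent.W695.KH.mink`, `Pool.Agent.Y211.FF.half`): the inequality
of Kannan, Lovasz and Simonovits. The first part is Cheeger's inequality. -/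
def S_FIN : Prop := ∃ c : ℝ, 0 < c ∧ ∀ (n : ℕ) (R : Lb n → Lb n → Prop),
  (interior (SE R)).Nonempty →
  (∀ S : Set (Eu (Fin n)), MeasurableSet S →
    ENNReal.ofReal c * min (un (SE R) S) (1 - un (SE R) S) ≤
      liminf (fun ε : ℝ =>
        (un (SE R) (Metric.thickening ε S) - un (SE R) S) / ENNReal.ofReal ε) (𝓝[>] 0)) ∧
  (1 ≤ n → ∃ θ : Eu (Fin n), ‖θ‖ = 1 ∧ ∀ t : ℝ≥0∞,
    (∀ b : ℝ, t * min (un (SE R) {x | ⟪θ, x⟫_ℝ ≤ b}) (1 - un (SE R) {x | ⟪θ, x⟫_ℝ ≤ b}) ≤
      liminf (fun ε : ℝ => (un (SE R) (Metric.thickening ε {x | ⟪θ, x⟫_ℝ ≤ b}) -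
        un (SE R) {x | ⟪θ, x⟫_ℝ ≤ b}) / ENNReal.ofReal ε) (𝓝[>] 0)) →
    ∀ S : Set (Eu (Fin n)), MeasurableSet S →
      ENNReal.ofReal c * t * min (un (SE R) S) (1 - un (SE R) S) ≤
      liminf (fun ε : ℝ =>
        (un (SE R) (Metric.thickening ε S) - un (SE R) S) / ENNReal.ofReal ε) (𝓝[>] 0))

end Pool.Agent.T2h31.SB
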