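import Pool.Agent.T2h31.SB.Stm

set_option autoImplicit false

namespace Pool.Agent.T2h31.SB.ADJ

open Pool.Agent.T2h31.SB
open MeasureTheory Set Filter Topology

open Classical in
theorem cnt (n N : ℕ) (R : Lb n → Lb n → Prop) (p : Fin n × Fin n) :
    ((cfg N R).filter fun g => |g p.2| = |g p.1| + 2).card ≤ 2 * (4 * N) ^ (n - 1) := by
  by_cases hp : p.1 = p.2
  · rw [Finset.card_eq_zero.2]
    · exact Nat.zero_le _
    · apply Finset.filter_eq_empty_iff.2
      intro g _ h
      rw [hp] at h
      omega
  · have h1 : ((cfg N R).filter fun g => |g p.2| = |g p.1| + 2).card ≤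
        ((Finset.univ : Finset Bool) ×ˢ (Fintype.piFinset (Function.update
          (fun _ : Fin n => Finset.Ioo (-(2 * (N : ℤ))) (2 * (N : ℤ))) p.2 {0}))).card := by
      apply Finset.card_le_card_of_injOn
        (fun g => (decide (0 < g p.2), Function.update g p.2 0))
      · intro g hg
        have hg1 := (mem_cfg.1 (Finset.mem_filter.1 hg).1).1
        rw [Finset.mem_coe, Finset.mem_product, Fintype.mem_piFinset]
        refine ⟨Finset.mem_univ _, fun a => ?_⟩
        by_cases ha : a = p.2
        · subst ha; simp
        · show Function.update g p.2 0 a ∈ _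
          rw [Function.update_of_ne ha, Function.update_of_ne ha]
          exact Finset.mem_Ioo.2 ⟨(hg1 a).1, (hg1 a).2.1⟩
      · intro g hg h hh hgh
        have hg1 := (Finset.mem_filter.1 hg).2
        have hh1 := (Finset.mem_filter.1 hh).2
        have hgh2 : Function.update g p.2 0 = Function.update h p.2 0 := (Prod.ext_iff.1 hgh).2
        have hgh1 : decide (0 < g p.2) = decide (0 < h p.2) := (Prod.ext_iff.1 hgh).1
        have hs : (0 < g p.2) ↔ (0 < h p.2) := by
          rw [decide_eq_decide] at hgh1
          exact hgh1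
        funext a
        by_cases ha : a = p.2
        · subst ha
          have h2 := congrFun hgh2 p.1
          rw [Function.update_of_ne hp, Function.update_of_ne hp] at h2
          have h3 : |g p.2| = |h p.2| := by rw [hg1, hh1, h2]
          have h4 : g p.2 ≠ 0 := by
            intro h0
            rw [h0, abs_zero] at hg1
            have := abs_nonneg (g p.1)
            omega
          rcases abs_eq_abs.1 h3 with h5 | h5
          · exact h5
          · omega
        · have h2 := congrFun hgh2 a
          rwa [Function.update_of_ne ha, Function.update_of_ne ha] at h2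
    refine le_trans h1 ?_
    rw [Finset.card_product, Finset.card_univ, Fintype.card_bool]
    refine Nat.mul_le_mul_left 2 ?_
    rw [Fintype.card_piFinset, ← Finset.mul_prod_erase Finset.univ _ (Finset.mem_univ p.2)]
    rw [Function.update_self, Finset.card_singleton, one_mul]
    calc _ ≤ ∏ a ∈ Finset.univ.erase p.2, (4 * N) := by
          refine Finset.prod_le_prod (fun _ _ => Nat.zero_le _) fun a ha => ?_
          rw [Function.update_of_ne (Finset.ne_of_mem_erase ha), Int.card_Ioo]
          omega
      _ = (4 * N) ^ (n - 1) := by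
          rw [Finset.prod_const, Finset.card_erase_of_mem (Finset.mem_univ _), Finset.card_univ,
            Fintype.card_fin]

open Classical in
theorem tot (n N : ℕ) (R : Lb n → Lb n → Prop) :
    ∑ g ∈ cfg N R, adj g ≤ n ^ 2 * (2 * (4 * N) ^ (n - 1)) := by
  calc ∑ g ∈ cfg N R, adj g
      = ∑ g ∈ cfg N R, ∑ p : Fin n × Fin n, (if |g p.2| = |g p.1| + 2 then 1 else 0) := by
        apply Finset.sum_congr rfl
        intro g _
        unfold adj
        rw [Finset.card_filter]
    _ = ∑ p : Fin n × Fin n, ∑ g ∈ cfg N R, (if |g p.2| = |g p.1| + 2 then 1 else 0) :=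
        Finset.sum_comm
    _ = ∑ p : Fin n × Fin n, ((cfg N R).filter fun g => |g p.2| = |g p.1| + 2).card := by
        apply Finset.sum_congr rfl
        intro p _
        rw [Finset.card_filter]
    _ ≤ ∑ _p : Fin n × Fin n, (2 * (4 * N) ^ (n - 1)) :=
        Finset.sum_le_sum fun p _ => cnt n N R p
    _ = n ^ 2 * (2 * (4 * N) ^ (n - 1)) := by
        rw [Finset.sum_const, Finset.card_univ, Fintype.card_prod, Fintype.card_fin, smul_eq_mul,
          sq]

end Pool.Agent.T2h31.SB.ADJ

namespace Pool.Agent.T2h31.SB

open Pool.Agent.T2h31.SB.ADJ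
open MeasureTheory Set Filter Topology

theorem t_ADJ : S_ADJ := by
  intro n R
  refine squeeze_zero' (Eventually.of_forall fun N => ?_) ?_
    (tendsto_const_div_atTop_nhds_zero_nat ((n : ℝ) ^ 2 * (2 * 4 ^ (n - 1))))
  · exact div_nonneg (Finset.sum_nonneg fun g _ => Nat.cast_nonneg _) (by positivity)
  · filter_upwards [eventually_gt_atTop 0] with N hN
    have hN' : (0 : ℝ) < N := Nat.cast_pos.2 hN
    have h1 : (∑ g ∈ cfg N R, (adj g : ℝ)) ≤ (n : ℝ) ^ 2 * (2 * (4 * (N : ℝ)) ^ (n - 1)) := by
      exact_mod_cast tot n N R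
    refine le_trans (div_le_div_of_nonneg_right h1 (by positivity)) (le_of_eq ?_)
    rcases Nat.eq_zero_or_pos n with h0 | h0
    · subst h0; simp
    · obtain ⟨k, rfl⟩ : ∃ k, n = k + 1 := ⟨n - 1, by omega⟩
      rw [Nat.add_sub_cancel, pow_succ (N : ℝ) k, mul_pow]
      field_simp


end Pool.Agent.T2h31.SB
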