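import Pool.Agent.T2h31.SB.Stm

/-!
SGB: basic facts on the exchange of two positions.
-/

set_option autoImplicit false

namespace Pool.Agent.T2h31.SB

namespace SGB

theorem sg_neg (i j z : ℤ) (hi : i ≠ 0) (hj : j ≠ 0) : sg i j (-z) = -sg i j z := by
  unfold sg
  split_ifs <;> omega

theorem sg_inv (i j z : ℤ) (hi : i ≠ 0) (hj : j ≠ 0) : sg i j (sg i j z) = z := by
  unfold sg
  split_ifs <;> omega

theorem sg_inj (i j z w : ℤ) (hi : i ≠ 0) (hj : j ≠ 0) (h : sg i j z = sg i j w) : z = w := by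
  rw [← sg_inv i j z hi hj, h, sg_inv i j w hi hj]

theorem sg_range (N : ℕ) (i j z : ℤ) (hi : Odd i) (hj : Odd j) (h1 : -(2 * (N : ℤ)) < i)
    (h2 : i < 2 * (N : ℤ)) (h3 : -(2 * (N : ℤ)) < j) (h4 : j < 2 * (N : ℤ)) (hz : Odd z)
    (h5 : -(2 * (N : ℤ)) < z) (h6 : z < 2 * (N : ℤ)) :
    Odd (sg i j z) ∧ -(2 * (N : ℤ)) < sg i j z ∧ sg i j z < 2 * (N : ℤ) := by
  unfold sg
  split_ifs
  · exact ⟨hj, by omega, by omega⟩
  · exact ⟨hi, by omega, by omega⟩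
  · exact ⟨hj.neg, by omega, by omega⟩
  · exact ⟨hi.neg, by omega, by omega⟩
  · exact ⟨hz, by omega, by omega⟩

theorem ne_zero_of_odd {i : ℤ} (hi : Odd i) : i ≠ 0 := by
  rintro rfl
  exact absurd hi (by decide)

end SGB

open SGB in
theorem t_SGB : S_SGB := by
  refine ⟨sg_neg, sg_inv, sg_range, ?_⟩
  intro n N R g i j hi hj h1 h2 h3 h4 hg
  have hi0 := ne_zero_of_odd hi
  have hj0 := ne_zero_of_odd hj
  have hsv : ∀ p, sv (mv i j g) p = sg i j (sv g p) := by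
    intro p
    unfold sv mv
    split_ifs with h
    · rfl
    · exact (sg_neg i j _ hi0 hj0).symm
  refine ⟨?_, hsv⟩
  obtain ⟨ha, hb, hc⟩ := mem_cfg.1 hg
  rw [mem_cfg]
  constructor
  · rintro ⟨-, -, h⟩ p q hpq
    have := h p q hpq
    rwa [hsv, hsv] at this
  · intro h
    refine ⟨fun a => ?_, fun a b hab => ⟨fun e => ?_, fun e => ?_⟩, fun p q hpq => ?_⟩
    · obtain ⟨r1, r2, r3⟩ := sg_range N i j (g a) hi hj h1 h2 h3 h4 (ha a).2.2 (ha a).1 (ha a).2.1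
      exact ⟨r2, r3, r1⟩
    · exact (hb a b hab).1 (sg_inj i j _ _ hi0 hj0 e)
    · have e' : sg i j (g a) = sg i j (-g b) := by
        rw [sg_neg i j _ hi0 hj0]
        exact e
      exact (hb a b hab).2 (sg_inj i j _ _ hi0 hj0 e')
    · rw [hsv, hsv]
      exact h p q hpq

end Pool.Agent.T2h31.SB
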